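import Mathlib
import Pool.Agent.Helper98.BBCoprime

set_option autoImplicit false

open MvPolynomial

namespace Pool.Agent.Helper56.BBTrdeg

theorem aeval_scale {k M σ : Type} [Field k] [Field M] [Algebra k M] [Fintype σ] {d : ℕ}
    {F : MvPolynomial σ k} (hF : F.IsHomogeneous d) (z : σ → M) (c : M) :
    aeval (fun i => z i * c) F = c ^ d * aeval z F := by
  rw [aeval_def, aeval_def, eval₂_eq', eval₂_eq', Finset.mul_sum]
  apply Finset.sum_congr rfl
  intro m hm
  have h1 : ∏ i, (z i * c) ^ m i = (∏ i, z i ^ m i) * c ^ d := by
    have h2 : ∑ i, m i = d := by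
      have h3 := hF (mem_support_iff.1 hm)
      rw [← h3, Finsupp.weight_apply, Finsupp.sum_fintype]
      · simp
      · intro i; simp
    rw [← h2, ← Finset.prod_pow_eq_pow_sum, ← Finset.prod_mul_distrib]
    apply Finset.prod_congr rfl
    intro i _
    rw [mul_pow]
  rw [h1]
  ring

/-- substitution used for dehomogenising -/
noncomputable def sub (k : Type) [Field k] (i j : Fin 4) : Fin 4 → MvPolynomial (Option Unit) k :=
  fun x => if x = i then X (some ()) else if x = j then X none else 1

theorem sub_ne_zero {k : Type} [Field k] {a b i j : Fin 4} (hij : i ≠ j)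
    (hall : ∀ x, x = a ∨ x = b ∨ x = i ∨ x = j) {e : ℕ} {D : MvPolynomial (Fin 4) k}
    (hai : a ≠ i) (haj : a ≠ j) (hab : a ≠ b)
    (hD : D.IsHomogeneous e) (hD0 : D ≠ 0) (hb : ∀ m ∈ D.support, m b = 0) :
    aeval (sub k i j) D ≠ 0 := by
  classical
  let φ : (Fin 4 →₀ ℕ) → (Option Unit →₀ ℕ) :=
    fun m => Finsupp.single (some ()) (m i) + Finsupp.single none (m j)
  have hmono : ∀ m : Fin 4 →₀ ℕ, ∏ x, (sub k i j x) ^ (m x) = monomial (φ m) (1 : k) := by
    intro m
    have h1 : ∀ x, (sub k i j x) ^ (m x)
        = (if x = i then (X (some ()) : MvPolynomial (Option Unit) k) ^ (m i) else 1) *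
          (if x = j then (X none : MvPolynomial (Option Unit) k) ^ (m j) else 1) := by
      intro x
      unfold sub
      by_cases hx : x = i
      · subst hx
        simp [hij]
      · by_cases hx' : x = j
        · subst hx'; simp [hx]
        · simp [hx, hx']
    rw [Finset.prod_congr rfl (fun x _ => h1 x), Finset.prod_mul_distrib]
    rw [Finset.prod_ite_eq' Finset.univ i, Finset.prod_ite_eq' Finset.univ j]
    simp only [Finset.mem_univ, if_true, φ]
    rw [X_pow_eq_monomial, X_pow_eq_monomial, monomial_mul, one_mul]
  have hinj : ∀ m ∈ D.support, ∀ m' ∈ D.support, φ m = φ m' → m = m' := by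
    intro m hm m' hm' h
    have hi : m i = m' i := by
      have := DFunLike.congr_fun h (some ())
      simpa [φ] using this
    have hj : m j = m' j := by
      have := DFunLike.congr_fun h none
      simpa [φ] using this
    have hsum : ∀ m ∈ D.support, ∑ x, m x = e := by
      intro m hm
      have h3 := hD (mem_support_iff.1 hm)
      rw [← h3, Finsupp.weight_apply, Finsupp.sum_fintype]
      · simp
      · intro i; simp
    have hbm := hb m hm
    have hbm' := hb m' hm'
    have hother : ∀ x, x ≠ a → m x = m' x := by
      intro x hx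
      rcases hall x with rfl | rfl | rfl | rfl
      · exact absurd rfl hx
      · rw [hbm, hbm']
      · exact hi
      · exact hj
    have ha : m a = m' a := by
      have h1 := hsum m hm
      have h2 := hsum m' hm'
      rw [← Finset.add_sum_erase _ _ (Finset.mem_univ a)] at h1 h2
      have h3 : ∑ x ∈ Finset.univ.erase a, m x = ∑ x ∈ Finset.univ.erase a, m' x :=
        Finset.sum_congr rfl (fun x hx => hother x (Finset.ne_of_mem_erase hx))
      omega
    ext x
    by_cases hx : x = a
    · rw [hx, ha]
    · exact hother x hx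
  obtain ⟨m₀, hm₀⟩ := support_nonempty.2 hD0
  intro h0
  have h1 : coeff (φ m₀) (aeval (sub k i j) D) = coeff m₀ D := by
    rw [aeval_def, eval₂_eq', coeff_sum]
    rw [Finset.sum_eq_single m₀]
    · rw [hmono, algebraMap_eq, C_mul_monomial, mul_one, coeff_monomial, if_pos rfl]
    · intro m hm hne
      rw [hmono, algebraMap_eq, C_mul_monomial, mul_one, coeff_monomial, if_neg]
      intro h
      exact hne (hinj m hm m₀ hm₀ h)
    · intro h
      exact absurd hm₀ h
  rw [h0, coeff_zero] at h1
  exact (mem_support_iff.1 hm₀) h1.symm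

section

variable {k M : Type} [Field k] [Field M] [Algebra k M]

theorem fourth : ∀ a i j : Fin 4, ∃ b : Fin 4, b ≠ a ∧ b ≠ i ∧ b ≠ j := by decide

theorem four_cases : ∀ a b i j : Fin 4, i ≠ j → a ≠ i → a ≠ j → b ≠ a → b ≠ i → b ≠ j →
    ∀ x : Fin 4, x = a ∨ x = b ∨ x = i ∨ x = j := by decide

attribute [local instance] MvPolynomial.gradedAlgebra

/-- The two coordinate functions `y i`, `y j` satisfy a nontrivial relation. -/
theorem exists_rel {d : ℕ} {F G : MvPolynomial (Fin 4) k} (hF : F.IsHomogeneous d)
    (hG : G.IsHomogeneous d) (hFG : IsRelPrime F G) (y : Fin 4 → M) (hFy : aeval y F = 0)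
    (hGy : aeval y G = 0) (a : Fin 4) (ha : y a = 1) (i j : Fin 4) (hij : i ≠ j) (hai : a ≠ i)
    (haj : a ≠ j) :
    ∃ E : MvPolynomial (Option Unit) k, E ≠ 0 ∧
      aeval (fun o : Option Unit => o.elim (y j) (fun _ => y i)) E = 0 := by
  classical
  obtain ⟨b, hba, hbi, hbj⟩ := fourth a i j
  have hall := four_cases a b i j hij hai haj hba hbi hbj
  obtain ⟨U, V, D, hUV, hD0, hDb⟩ := Pool.Agent.Helper98.BBCoprime.exists_elim hFG b
  -- a nonzero homogeneous component
  obtain ⟨e, he⟩ : ∃ e, homogeneousComponent e D ≠ 0 := by
    by_contra hcon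
    push Not at hcon
    apply hD0
    rw [← sum_homogeneousComponent D]
    exact Finset.sum_eq_zero (fun n _ => hcon n)
  have hmemI : D ∈ Ideal.span ({F, G} : Set (MvPolynomial (Fin 4) k)) := by
    rw [Ideal.mem_span_pair]; exact ⟨U, V, hUV⟩
  have hIhom : (Ideal.span ({F, G} : Set (MvPolynomial (Fin 4) k))).IsHomogeneous
      (homogeneousSubmodule (Fin 4) k) := by
    apply Ideal.homogeneous_span
    rintro x (rfl | hx)
    · exact ⟨d, hF⟩
    · rw [Set.mem_singleton_iff] at hx
      subst hx
      exact ⟨d, hG⟩
  have hcomp := homogeneousComponent_mem_of_mem hIhom hmemI e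
  have hzero : aeval y (homogeneousComponent e D) = 0 := by
    rw [Ideal.mem_span_pair] at hcomp
    obtain ⟨p, q, hpq⟩ := hcomp
    rw [← hpq, map_add, map_mul, map_mul, hFy, hGy, mul_zero, mul_zero, add_zero]
  have hb : ∀ m ∈ (homogeneousComponent e D).support, m b = 0 := by
    intro m hm
    have h1 : m ∈ D.support := by
      rw [mem_support_iff, coeff_homogeneousComponent] at hm
      rw [mem_support_iff]
      intro h
      apply hm
      rw [h]; simp
    have h2 := monomial_le_degreeOf b h1
    omega
  refine ⟨aeval (sub k i j) (homogeneousComponent e D), ?_, ?_⟩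
  · exact sub_ne_zero hij hall hai haj hba.symm (homogeneousComponent_isHomogeneous e D) he hb
  · -- evaluate
    have h1 : ((aeval (fun o : Option Unit => o.elim (y j) (fun _ => y i))).comp
        (aeval (sub k i j)) : MvPolynomial (Fin 4) k →ₐ[k] M)
        = aeval (fun x => if x = i then y i else if x = j then y j else 1) := by
      apply MvPolynomial.algHom_ext
      intro x
      rw [AlgHom.comp_apply, aeval_X, aeval_X, sub]
      split_ifs
      · rw [aeval_X]; rfl
      · rw [aeval_X]; rfl
      · rw [map_one]
    have h2 := DFunLike.congr_fun h1 (homogeneousComponent e D)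
    rw [AlgHom.comp_apply] at h2
    rw [h2, ← hzero, aeval_def, aeval_def, eval₂_eq', eval₂_eq']
    apply Finset.sum_congr rfl
    intro m hm
    congr 1
    apply Finset.prod_congr rfl
    intro x _
    rcases hall x with rfl | rfl | rfl | rfl
    · rw [if_neg hai, if_neg haj, ha]
    · rw [hb m hm, pow_zero, pow_zero]
    · rw [if_pos rfl]
    · rw [if_neg hij.symm, if_pos rfl]

theorem trdeg_le_one {d : ℕ}
    {F G : MvPolynomial (Fin 4) k} (hF : F.IsHomogeneous d) (hG : G.IsHomogeneous d)
    (hFG : IsRelPrime F G) (z : Fin 4 → M) (hFz : aeval z F = 0) (hGz : aeval z G = 0)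
    (a : Fin 4) (ha : z a ≠ 0) :
    Algebra.trdeg k (IntermediateField.adjoin k (Set.range fun i => z i / z a)) ≤ 1 := by
  classical
  set y : Fin 4 → M := fun i => z i / z a with hy
  have hya : y a = 1 := div_self ha
  have hyz : y = fun i => z i * (z a)⁻¹ := by
    funext i; rw [hy]; exact div_eq_mul_inv _ _
  have hFy : aeval y F = 0 := by rw [hyz, aeval_scale hF, hFz, mul_zero]
  have hGy : aeval y G = 0 := by rw [hyz, aeval_scale hG, hGz, mul_zero]
  set L := IntermediateField.adjoin k (Set.range y) with hL
  let w : Fin 4 → L := fun i => ⟨y i, IntermediateField.subset_adjoin k _ ⟨i, rfl⟩⟩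
  have hwy : ∀ i, algebraMap L M (w i) = y i := fun i => rfl
  -- generic induction: algebraicity over a subalgebra containing relations
  have ind : ∀ A : Subalgebra k L, (∀ i, IsAlgebraic A (w i)) → Algebra.IsAlgebraic A L := by
    intro A hA
    refine ⟨?_⟩
    rintro ⟨x, hx⟩
    induction hx using IntermediateField.adjoin_induction with
    | mem x hx =>
      obtain ⟨i, rfl⟩ := hx
      exact hA i
    | algebraMap x =>
      have : (⟨algebraMap k M x, L.algebraMap_mem x⟩ : L) = algebraMap A L (algebraMap k A x) := rfl
      rw [this]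
      exact isAlgebraic_algebraMap _
    | add x y hx hy h1 h2 => exact h1.add h2
    | inv x hx h1 => exact h1.inv
    | mul x y hx hy h1 h2 => exact h1.mul h2
  by_cases hall : ∀ i, IsAlgebraic k (w i)
  · have h1 : Algebra.IsAlgebraic k L := by
      have h2 := ind ⊥ (fun i => (hall i).extendScalars
        (algebraMap k (⊥ : Subalgebra k L)).injective)
      exact Algebra.IsAlgebraic.trans k (⊥ : Subalgebra k L) L
    rw [trdeg_eq_zero_iff.2 h1]
    exact zero_le_one
  · push Not at hall
    obtain ⟨i, hi⟩ := hall
    have hai : a ≠ i := by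
      rintro rfl
      apply hi
      have : w a = algebraMap k L 1 := by
        apply Subtype.ext
        rw [map_one]; exact hya
      rw [this]
      exact isAlgebraic_algebraMap _
    have hind1 : AlgebraicIndependent k (fun _ : Unit => w i) := by
      rw [algebraicIndependent_unique_type_iff]
      exact hi
    have halg := ind (Algebra.adjoin k {w i}) (by
      intro j
      by_cases hij : j = i
      · subst hij
        have : w j = algebraMap (Algebra.adjoin k {w j}) L
            ⟨w j, Algebra.subset_adjoin (Set.mem_singleton _)⟩ := rfl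
        rw [this]
        exact isAlgebraic_algebraMap _
      by_cases haj : a = j
      · subst haj
        have : w a = algebraMap (Algebra.adjoin k {w i}) L 1 := by
          apply Subtype.ext
          rw [map_one]; exact hya
        rw [this]
        exact isAlgebraic_algebraMap _
      by_contra hcon
      obtain ⟨E, hE0, hE⟩ := exists_rel hF hG hFG y hFy hGy a hya i j (Ne.symm hij) hai haj
      have h1 : AlgebraicIndependent k (fun o : Option Unit => o.elim (w j) (fun _ => w i)) := by
        rw [hind1.option_iff_transcendental]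
        rw [Set.range_const]
        exact hcon
      apply hE0
      apply h1.eq_zero_of_aeval_eq_zero
      apply (algebraMap L M).injective
      rw [map_zero, ← hE]
      have h2 : (algebraMap L M) (aeval (fun o : Option Unit => o.elim (w j) (fun _ => w i)) E)
          = aeval (fun o => algebraMap L M (o.elim (w j) (fun _ => w i))) E :=
        (aeval_algebraMap_apply M (fun o : Option Unit => o.elim (w j) (fun _ => w i)) E).symm
      rw [h2]
      congr 2
      funext o
      cases o <;> rfl)
    have := Algebra.IsAlgebraic.trdeg_le_cardinalMk k ({w i} : Set L)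
    simpa using this

end

end Pool.Agent.Helper56.BBTrdeg
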