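import Pool.Agent.Helper56.Orders

set_option autoImplicit false

namespace Pool.Agent.Helper56

/-- The group of pairs `(n, c)`, `n : ℤ`, `c : F`, with `(n,c)(m,d) = (n+m, c + l^n d)`. -/
@[ext] structure BG (F : Type) [Field F] (l : Fˣ) where
  n : ℤ
  c : F

namespace BG

variable {F : Type} [Field F] {l : Fˣ}

instance : Mul (BG F l) := ⟨fun A B => ⟨A.n + B.n, A.c + ((l ^ A.n : Fˣ) : F) * B.c⟩⟩
instance : One (BG F l) := ⟨⟨0, 0⟩⟩
instance : Inv (BG F l) := ⟨fun A => ⟨-A.n, -(((l ^ (-A.n) : Fˣ) : F) * A.c)⟩⟩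

@[simp] theorem mul_n (A B : BG F l) : (A * B).n = A.n + B.n := rfl
@[simp] theorem mul_c (A B : BG F l) : (A * B).c = A.c + ((l ^ A.n : Fˣ) : F) * B.c := rfl
@[simp] theorem one_n : (1 : BG F l).n = 0 := rfl
@[simp] theorem one_c : (1 : BG F l).c = 0 := rfl
@[simp] theorem inv_n (A : BG F l) : (A⁻¹).n = -A.n := rfl
@[simp] theorem inv_c (A : BG F l) : (A⁻¹).c = -(((l ^ (-A.n) : Fˣ) : F) * A.c) := rfl

instance : Group (BG F l) := Group.ofLeftAxioms
  (by
    intro A B C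
    ext
    · simp [add_assoc]
    · simp only [mul_c, mul_n, zpow_add, Units.val_mul]; ring)
  (by
    intro A
    ext
    · simp
    · simp)
  (by
    intro A
    ext
    · simp
    · simp)

/-- action on the real line via an embedding -/
noncomputable def act (ι : F →+* ℝ) (A : BG F l) (v : ℝ) : ℝ := (ι l) ^ A.n * v + ι A.c

theorem ι_ne (ι : F →+* ℝ) : ι l ≠ 0 := by
  intro h
  rw [map_eq_zero] at h
  exact l.ne_zero h

theorem ι_zpow (ι : F →+* ℝ) (n : ℤ) : ι ((l ^ n : Fˣ) : F) = (ι l) ^ n := by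
  rw [Units.val_zpow_eq_zpow_val, map_zpow₀]

theorem act_mul (ι : F →+* ℝ) (A B : BG F l) (v : ℝ) : (A * B).act ι v = A.act ι (B.act ι v) := by
  simp only [act, mul_n, mul_c, map_add, map_mul, ι_zpow, zpow_add₀ (ι_ne ι)]
  ring

theorem act_one (ι : F →+* ℝ) (v : ℝ) : (1 : BG F l).act ι v = v := by
  simp [act]

theorem act_inj {ι : F →+* ℝ} (hl : 1 < ι l) {A B : BG F l} {v w : ℝ} (hvw : v ≠ w)
    (h1 : A.act ι v = B.act ι v) (h2 : A.act ι w = B.act ι w) : A = B := by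
  simp only [act] at h1 h2
  have h3 : ((ι l) ^ A.n - (ι l) ^ B.n) * (v - w) = 0 := by linear_combination h1 - h2
  have h4 : (ι l) ^ A.n = (ι l) ^ B.n := by
    rcases mul_eq_zero.1 h3 with h | h
    · exact sub_eq_zero.1 h
    · exact absurd (sub_eq_zero.1 h) hvw
  have h5 : A.n = B.n := zpow_right_injective₀ (by linarith) hl.ne' h4
  ext
  · exact h5
  · rw [h4] at h1
    exact ι.injective (add_left_cancel h1)

end BG

end Pool.Agent.Helper56
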