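import Pool.Agent.Helper56.Line

set_option autoImplicit false

namespace Pool.Agent.Helper56

/-- The function realising the germ `(0, c)`. -/
noncomputable def bet (L C : ℝ) (x : ℝ) : ℝ :=
  if x ≤ 0 then x else if x ≤ 1 then psi L (psi L x + C) else psi L (1 + C) + (x - 1)

section

variable {L C : ℝ}

theorem psi_one (hL : 1 < L) : psi L 1 = 1 := by
  rw [psi_eq hL 0 (by simp) (by simp; linarith)]
  have : L ≠ 0 := by linarith
  simp [this]

theorem bet_neg {x : ℝ} (hx : x ≤ 0) : bet L C x = x := if_pos hx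

theorem bet_mid {x : ℝ} (hx : 0 < x) (hx1 : x ≤ 1) : bet L C x = psi L (psi L x + C) := by
  rw [bet, if_neg (not_le.2 hx), if_pos hx1]

theorem bet_top (hL : 1 < L) {x : ℝ} (hx1 : 1 ≤ x) : bet L C x = psi L (1 + C) + (x - 1) := by
  rcases hx1.eq_or_lt with rfl | h
  · rw [bet_mid one_pos le_rfl, psi_one hL]; ring
  · rw [bet, if_neg (not_le.2 (by linarith)), if_neg (not_le.2 h)]

theorem bet_mono (hL : 1 < L) (hC : 0 < C) : StrictMono (bet L C) := by
  have h1 : StrictMonoOn (bet L C) (Set.Iic 0) := by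
    intro x hx y hy hxy
    rw [bet_neg hx, bet_neg hy]; exact hxy
  have h2 : StrictMonoOn (bet L C) (Set.Icc 0 1) := by
    intro x hx y hy hxy
    have hy0 : 0 < y := lt_of_le_of_lt hx.1 hxy
    rcases hx.1.eq_or_lt with rfl | hx0
    · rw [bet_neg le_rfl, bet_mid hy0 hy.2]
      exact psi_pos hL (add_pos (psi_pos hL hy0) hC)
    · rw [bet_mid hx0 hx.2, bet_mid hy0 hy.2]
      apply psi_lt hL (add_pos (psi_pos hL hy0) hC)
      have := psi_lt hL hx0 hxy
      linarith
  have h3 : StrictMonoOn (bet L C) (Set.Ici 1) := by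
    intro x hx y hy hxy
    rw [bet_top hL hx, bet_top hL hy]; linarith
  have h4 : StrictMonoOn (bet L C) (Set.Iic 1) := by
    intro x hx y hy hxy
    rcases le_or_gt y 0 with hy0 | hy0
    · exact h1 (hxy.le.trans hy0) hy0 hxy
    · rcases le_or_gt x 0 with hx0 | hx0
      · calc bet L C x ≤ bet L C 0 := by rw [bet_neg hx0, bet_neg le_rfl]; exact hx0
          _ < bet L C y := h2 ⟨le_rfl, zero_le_one⟩ ⟨hy0.le, hy⟩ hy0
      · exact h2 ⟨hx0.le, hx⟩ ⟨hy0.le, hy⟩ hxy
  exact h4.Iic_union_Ici h3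

theorem bet_surj (hL : 1 < L) (hC : 0 < C) : Function.Surjective (bet L C) := by
  intro y
  rcases le_or_gt y 0 with hy | hy
  · exact ⟨y, bet_neg hy⟩
  rcases le_or_gt y (psi L (1 + C)) with hy1 | hy1
  · have h1 : 1 + C ≤ psi L y := by
      rw [← psi_psi hL (show 0 < 1 + C by linarith)]
      exact (psi_le_iff hL hy (psi_pos hL (by linarith))).2 hy1
    have h2 : 0 < psi L y - C := by linarith
    refine ⟨psi L (psi L y - C), ?_⟩
    have h3 : psi L (psi L y - C) ≤ 1 := by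
      rw [← psi_one hL]
      exact (psi_le_iff hL one_pos h2).2 (by linarith)
    rw [bet_mid (psi_pos hL h2) h3, psi_psi hL h2, sub_add_cancel, psi_psi hL hy]
  · refine ⟨y - psi L (1 + C) + 1, ?_⟩
    rw [bet_top hL (by linarith)]; ring

/-- `bet` as an order automorphism -/
noncomputable def betIso (hL : 1 < L) (hC : 0 < C) : ℝ ≃o ℝ :=
  StrictMono.orderIsoOfSurjective (bet L C) (bet_mono hL hC) (bet_surj hL hC)

theorem betIso_app (hL : 1 < L) (hC : 0 < C) (x : ℝ) : betIso hL hC x = bet L C x := rfl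

theorem bet_left (hL : 1 < L) (hC : 0 < C) (x : ℝ) : ∃ n, LeftAt L (betIso hL hC) x n := by
  have hL0 : 0 < L := by linarith
  rcases le_or_gt x 0 with hx | hx
  · refine ⟨0, x - 1, by linarith, ?_⟩
    intro y _ hy
    rw [betIso_app, betIso_app, bet_neg hx, bet_neg (hy.trans hx), zpow_zero]; ring
  rcases le_or_gt x 1 with hx1 | hx1
  · obtain ⟨k, s, hs0, hs, h1⟩ := psi_left hL hx
    have hw : 0 < psi L x + C := add_pos (psi_pos hL hx) hC
    obtain ⟨j, s', hs', h2⟩ := psi_right hL hw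
    have hk : 0 < L ^ k := zpow_pos hL0 k
    refine ⟨j + k, max s (x - (s' - (psi L x + C)) / L ^ k), ?_, ?_⟩
    · apply max_lt hs
      have : 0 < (s' - (psi L x + C)) / L ^ k := div_pos (by linarith) hk
      linarith
    · intro y hy1 hy2
      have h3 : s ≤ y := (le_max_left _ _).trans hy1
      have h4 : x - y ≤ (s' - (psi L x + C)) / L ^ k := by
        have := (le_max_right _ _).trans hy1
        linarith
      rw [le_div_iff₀ hk] at h4
      have hy0 : 0 < y := lt_of_lt_of_le hs0 h3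
      rw [betIso_app, betIso_app, bet_mid hx hx1, bet_mid hy0 (hy2.trans hx1)]
      have h5 := h1 y h3 hy2
      have h6 : 0 ≤ (x - y) * L ^ k := mul_nonneg (by linarith) hk.le
      rw [h2 (psi L y + C) (by rw [h5]; nlinarith) (by rw [h5]; nlinarith), h5,
        zpow_add₀ hL0.ne']
      ring
  · refine ⟨0, (1 + x) / 2, by linarith, ?_⟩
    intro y hy1 hy2
    rw [betIso_app, betIso_app, bet_top hL hx1.le, bet_top hL (by linarith), zpow_zero]; ring

end

section

variable {F : Type} [Field F] {l : Fˣ} {ι : F →+* ℝ}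

theorem bet_right_zero (hl : 1 < ι l) {c : F} (hc : 0 < ι c) :
    RightAt ι (betIso hl hc) 0 (⟨0, c⟩ : BG F l) := by
  refine ⟨1, one_pos, ?_⟩
  intro y hy1 hy2
  rw [betIso_app, betIso_app, bet_neg le_rfl, bet_mid hy1 hy2, sub_zero, sub_zero,
    psi_psi hl (add_pos (psi_pos hl hy1) hc)]
  simp [BG.act]

theorem bet_inP (hl : 1 < ι l) {c : F} (hc : 0 < ι c) : InP l ι (betIso hl hc) := by
  have hL0 : 0 < ι l := by linarith
  refine ⟨fun x => bet_left hl hc x, ?_⟩
  intro x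
  rcases lt_trichotomy x 0 with hx | rfl | hx
  · refine ⟨_, RLin.rightAt (n := 0) hl ⟨0, hx, ?_⟩⟩
    intro y _ hy
    rw [betIso_app, betIso_app, bet_neg hx.le, bet_neg hy, zpow_zero]; ring
  · exact ⟨_, bet_right_zero hl hc⟩
  rcases lt_or_ge x 1 with hx1 | hx1
  · obtain ⟨k, s, hs, h1⟩ := psi_right hl hx
    have hw : 0 < psi (ι l) x + ι c := add_pos (psi_pos hl hx) hc
    obtain ⟨j, s', hs0', hs', h2⟩ := psi_left hl hw
    have hk : 0 < (ι l) ^ k := zpow_pos hL0 k
    refine ⟨_, RLin.rightAt (n := j + k) hl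
      ⟨min 1 (min s (x + ((psi (ι l) x + ι c) - s') / (ι l) ^ k)), ?_, ?_⟩⟩
    · apply lt_min hx1 (lt_min hs _)
      have : 0 < ((psi (ι l) x + ι c) - s') / (ι l) ^ k := div_pos (by linarith) hk
      linarith
    · intro y hy1 hy2
      have h3 : y ≤ 1 := hy2.trans (min_le_left _ _)
      have h3' : y ≤ s := hy2.trans ((min_le_right _ _).trans (min_le_left _ _))
      have h4 : y - x ≤ ((psi (ι l) x + ι c) - s') / (ι l) ^ k := by
        have := hy2.trans ((min_le_right _ _).trans (min_le_right _ _))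
        linarith
      rw [le_div_iff₀ hk] at h4
      have hy0 : 0 < y := lt_of_lt_of_le hx hy1
      rw [betIso_app, betIso_app, bet_mid hx hx1.le, bet_mid hy0 h3]
      have h5 := h1 y hy1 h3'
      have h6 : 0 ≤ (y - x) * (ι l) ^ k := mul_nonneg (by linarith) hk.le
      rw [h2 (psi (ι l) y + ι c) (by rw [h5]; nlinarith) (by rw [h5]; nlinarith), h5,
        zpow_add₀ hL0.ne']
      ring
  · refine ⟨_, RLin.rightAt (n := 0) hl ⟨x + 1, by linarith, ?_⟩⟩
    intro y hy1 _
    rw [betIso_app, betIso_app, bet_top hl hx1, bet_top hl (hx1.trans hy1), zpow_zero]; ring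

/-- All germs `(0, c)` at `0⁺` are realised by elements supported on the right. -/
theorem exists_beta (hl : 1 < ι l) (c : F) :
    ∃ f, InP l ι f ∧ (∀ x, x ≤ 0 → f x = x) ∧ RightAt ι f 0 (⟨0, c⟩ : BG F l) := by
  rcases lt_trichotomy (ι c) 0 with hc | hc | hc
  · have hc' : 0 < ι (-c) := by rw [map_neg]; linarith
    refine ⟨(betIso hl hc')⁻¹, (PP l ι hl).inv_mem (bet_inP hl hc'), ?_, ?_⟩
    · intro x hx
      have : betIso hl hc' x = x := by rw [betIso_app, bet_neg hx]
      conv_lhs => rw [← this]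
      exact inv_app_self _ _
    · have h1 := (bet_right_zero hl hc').inv
      rw [betIso_app, bet_neg le_rfl] at h1
      have h2 : (⟨0, -c⟩ : BG F l)⁻¹ = ⟨0, c⟩ := by
        ext
        · simp
        · simp
      rwa [h2] at h1
  · have hc0 : c = 0 := by
      rw [map_eq_zero] at hc; exact hc
    subst hc0
    exact ⟨1, one_inP, fun x _ => rfl, RightAt.one⟩
  · refine ⟨betIso hl hc, bet_inP hl hc, ?_, bet_right_zero hl hc⟩
    intro x hx
    rw [betIso_app, bet_neg hx]

/-- All germs at `0⁺` are realised. -/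
theorem exists_germ_zero (hl : 1 < ι l) (A : BG F l) :
    ∃ f, InP l ι f ∧ (∀ x, x ≤ 0 → f x = x) ∧ RightAt ι f 0 A := by
  have hL0 : 0 < ι l := by linarith
  obtain ⟨f, hf1, hf2, hf3⟩ := exists_beta (l := l) hl A.c
  have hg0 : (1 : ℝ ≃o ℝ) 0 = aff (ι l) hL0 (-A.n) 0 0 := by
    rw [aff_app, one_app]; simp
  set g := glue 1 (aff (ι l) hL0 (-A.n) 0) 0 hg0 with hg
  have hg1 : InP l ι g := one_inP.glue (aff_inP hl hL0 _ _) hg0
  have hg2 : ∀ x, x ≤ 0 → g x = x := fun x hx => by rw [hg, glue_le hx, one_app]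
  have hg3 : RightAt ι g 0 (⟨A.n, 0⟩ : BG F l) := by
    have h1 : RLin (ι l) g 0 (-A.n) := by
      refine ⟨1, one_pos, ?_⟩
      intro y hy _
      rw [hg2 0 le_rfl, hg, glue_ge hy, aff_app]; ring
    have := h1.rightAt hl
    rwa [neg_neg] at this
  refine ⟨f * g, (PP l ι hl).mul_mem hf1 hg1, ?_, ?_⟩
  · intro x hx
    rw [mul_app, hg2 x hx, hf2 x hx]
  · have h1 : RightAt ι (f * g) 0 ((⟨0, A.c⟩ : BG F l) * ⟨A.n, 0⟩) := by
      apply RightAt.mul _ hg3
      rw [hg2 0 le_rfl]; exact hf3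
    have h2 : ((⟨0, A.c⟩ : BG F l) * ⟨A.n, 0⟩) = A := by
      ext
      · simp
      · simp
    rwa [h2] at h1

/-- All germs at `t⁺` are realised. -/
theorem exists_germ_right (hl : 1 < ι l) (t : ℝ) (A : BG F l) :
    ∃ f, InP l ι f ∧ (∀ x, x ≤ t → f x = x) ∧ RightAt ι f t A := by
  obtain ⟨f, hf1, hf2, hf3⟩ := exists_germ_zero hl A
  obtain ⟨z, hz1, hz2⟩ := exists_trans (l := l) hl t
  have hzi : ∀ x, z⁻¹ x = x - t := by
    intro x
    have : z (x - t) = x := by rw [hz2]; ring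
    conv_lhs => rw [← this]
    exact inv_app_self _ _
  refine ⟨z * f * z⁻¹, (PP l ι hl).mul_mem ((PP l ι hl).mul_mem hz1 hf1)
    ((PP l ι hl).inv_mem hz1), ?_, ?_⟩
  · intro x hx
    rw [mul_app, mul_app, hzi, hf2 _ (by linarith), hz2]; ring
  · obtain ⟨s, hs, h1⟩ := hf3
    refine ⟨s + t, by linarith, ?_⟩
    intro y hy1 hy2
    have h2 := h1 (y - t) (by linarith) (by linarith)
    simp only [mul_app, hzi, hz2]
    have e1 : f (y - t) + t - (f (t - t) + t) = f (y - t) - f 0 := by rw [sub_self]; ring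
    rw [e1, h2, sub_zero]

/-- All germs at `t⁻` are realised. -/
theorem exists_germ_left (hl : 1 < ι l) (t : ℝ) (n : ℤ) :
    ∃ f, InP l ι f ∧ (∀ x, t ≤ x → f x = x) ∧ LeftAt (ι l) f t n := by
  have hL0 : 0 < ι l := by linarith
  have hg0 : aff (ι l) hL0 n (t - (ι l) ^ n * t) t = (1 : ℝ ≃o ℝ) t := by
    rw [aff_app, one_app]; ring
  refine ⟨glue (aff (ι l) hL0 n (t - (ι l) ^ n * t)) 1 t hg0,
    (aff_inP hl hL0 _ _).glue one_inP hg0, ?_, ?_⟩
  · intro x hx
    rw [glue_ge hx, one_app]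
  · refine ⟨t - 1, by linarith, ?_⟩
    intro y _ hy
    rw [glue_le hy, glue_le le_rfl, aff_app, aff_app]; ring

end

end Pool.Agent.Helper56
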