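import Mathlib

set_option autoImplicit false
set_option linter.unusedSectionVars false
set_option linter.style.haveILetI false

namespace Pool.Agent.Helper56

/-- Two additive maps to `ℝ` with the same positivity are proportional. -/
theorem proportional {F : Type*} [AddCommGroup F] (f g : F →+ ℝ)
    (h : ∀ z, 0 < f z → 0 < g z) {u : F} (hf : 0 < f u) (hg : 0 < g u)
    (x : F) : f x * g u = g x * f u := by
  -- it suffices to show one inequality for all `x`
  have key : ∀ x, g x * f u ≤ f x * g u := by
    intro x
    by_contra hcon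
    push Not at hcon
    have h1 : f x / f u < g x / g u := by
      rw [div_lt_div_iff₀ hf hg]; exact hcon
    obtain ⟨q, hq1, hq2⟩ := exists_rat_btwn h1
    rw [div_lt_iff₀ hf] at hq1
    rw [lt_div_iff₀ hg] at hq2
    have hd : (0 : ℝ) < q.den := by exact_mod_cast q.den_pos
    have hqd : (q : ℝ) * q.den = q.num := by
      exact_mod_cast Rat.mul_den_eq_num q
    have h2 : 0 < f (q.num • u - q.den • x) := by
      rw [map_sub, map_zsmul, map_nsmul, zsmul_eq_mul, nsmul_eq_mul]
      have := mul_lt_mul_of_pos_left hq1 hd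
      nlinarith
    have h3 := h _ h2
    rw [map_sub, map_zsmul, map_nsmul, zsmul_eq_mul, nsmul_eq_mul] at h3
    have := mul_lt_mul_of_pos_left hq2 hd
    nlinarith
  apply le_antisymm
  · have := key (-x)
    rw [map_neg, map_neg] at this
    linarith
  · exact key x

section

variable {F : Type*} [Field F] [Algebra ℚ F] [FiniteDimensional ℚ F]

theorem arch_of_order [LinearOrder F] [IsOrderedAddMonoid F] (l : F)
    (hgen : Algebra.adjoin ℚ {l} = ⊤) (hmul : ∀ a : F, 0 < a → 0 < l * a) :
    Archimedean F := by
  have hl0 : l ≠ 0 := by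
    rintro rfl
    have h1 : ∃ a : F, 0 < a := by
      rcases lt_or_gt_of_ne (one_ne_zero : (1 : F) ≠ 0) with h | h
      · exact ⟨-1, by simpa using h⟩
      · exact ⟨1, h⟩
    obtain ⟨a, ha⟩ := h1
    have := hmul a ha
    simp at this
  have hlmono : ∀ a b : F, a ≤ b → l * a ≤ l * b := by
    intro a b hab
    rcases hab.eq_or_lt with rfl | hab
    · exact le_rfl
    · have := hmul (b - a) (sub_pos.2 hab)
      rw [mul_sub] at this
      exact (sub_pos.1 this).le
  have hlabs : ∀ a : F, |l * a| = l * |a| := by
    intro a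
    rcases le_total 0 a with h | h
    · rw [abs_of_nonneg h, abs_of_nonneg]
      simpa using hlmono 0 a h
    · rw [abs_of_nonpos h, abs_of_nonpos]
      · ring
      · simpa using hlmono a 0 h
  -- convex subspaces
  let D : (x : F) → 0 < x → Submodule ℚ F := fun x hx =>
    { carrier := {z | ∃ n : ℕ, |z| ≤ n • x}
      add_mem' := by
        rintro a b ⟨n, hn⟩ ⟨m, hm⟩
        refine ⟨n + m, ?_⟩
        rw [add_smul]
        exact (abs_add_le a b).trans (add_le_add hn hm)
      zero_mem' := ⟨0, by simp⟩
      smul_mem' := by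
        rintro q z ⟨n, hn⟩
        refine ⟨q.num.natAbs * n, ?_⟩
        have h1 : q.den • (q • z) = q.num • z := by
          rw [← Nat.cast_smul_eq_nsmul ℚ, ← Int.cast_smul_eq_zsmul ℚ, smul_smul, mul_comm,
            Rat.mul_den_eq_num]
        have h2 : |q • z| ≤ |q.den • (q • z)| := by
          rw [abs_nsmul]
          have := nsmul_le_nsmul_left (abs_nonneg (q • z)) (show 1 ≤ q.den from q.den_pos)
          rwa [one_nsmul] at this
        have h3 : |q.num • z| = q.num.natAbs • |z| := by
          rw [abs_zsmul, Int.abs_eq_natAbs, natCast_zsmul]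
        rw [h1, h3] at h2
        refine h2.trans ?_
        rw [mul_comm, mul_nsmul]
        exact nsmul_le_nsmul_right hn _ }
  have hDmem : ∀ (x : F) (hx : 0 < x) (z : F), z ∈ D x hx ↔ ∃ n : ℕ, |z| ≤ n • x :=
    fun x hx z => Iff.rfl
  -- comparison
  have hDle : ∀ (x : F) (hx : 0 < x) (y : F) (hy : 0 < y), x ≤ y → D x hx ≤ D y hy := by
    intro x hx y hy hxy z hz
    obtain ⟨n, hn⟩ := (hDmem x hx z).1 hz
    exact (hDmem y hy z).2 ⟨n, hn.trans (nsmul_le_nsmul_right hxy n)⟩
  -- multiplication by `l`
  let M : F →ₗ[ℚ] F := LinearMap.mulLeft ℚ l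
  have hM : ∀ a, M a = l * a := fun a => rfl
  have hMinj : Function.Injective M := by
    intro a b hab
    exact mul_left_cancel₀ hl0 hab
  have hDmap : ∀ (x : F) (hx : 0 < x), (D x hx).map M = D (l * x) (hmul x hx) := by
    intro x hx
    ext z
    rw [Submodule.mem_map]
    constructor
    · rintro ⟨y, hy, rfl⟩
      obtain ⟨n, hn⟩ := (hDmem x hx y).1 hy
      refine (hDmem _ (hmul x hx) _).2 ⟨n, ?_⟩
      have h2 : l * n • x = n • (l * x) := by rw [mul_smul_comm]
      rw [hM, hlabs, ← h2]
      exact hlmono _ _ hn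
    · intro hz
      obtain ⟨n, hn⟩ := (hDmem _ (hmul x hx) _).1 hz
      refine ⟨l⁻¹ * z, (hDmem _ hx _).2 ⟨n, ?_⟩, ?_⟩
      · by_contra hcon
        push Not at hcon
        have h1 := hmul _ (sub_pos.2 hcon)
        rw [mul_sub, ← hlabs, mul_inv_cancel_left₀ hl0] at h1
        have h2 : l * n • x = n • (l * x) := by
          rw [mul_smul_comm]
        rw [h2] at h1
        exact absurd hn (not_le.2 (sub_pos.1 h1))
      · rw [hM, mul_inv_cancel_left₀ hl0]
  have hDeq : ∀ (x : F) (hx : 0 < x), D (l * x) (hmul x hx) = D x hx := by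
    intro x hx
    have hfr : Module.finrank ℚ (D (l * x) (hmul x hx)) = Module.finrank ℚ (D x hx) := by
      rw [← hDmap x hx]
      exact (Submodule.equivMapOfInjective M hMinj (D x hx)).finrank_eq.symm
    rcases le_total (l * x) x with h | h
    · exact Submodule.eq_of_le_of_finrank_eq (hDle _ (hmul x hx) _ hx h) hfr
    · exact (Submodule.eq_of_le_of_finrank_eq (hDle _ hx _ (hmul x hx) h) hfr.symm).symm
  have hDtop : ∀ (x : F) (hx : 0 < x) (z : F), z ∈ D x hx := by
    intro x hx z
    let B : Subalgebra ℚ F :=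
      { carrier := {a | ∀ z ∈ D x hx, a * z ∈ D x hx}
        mul_mem' := by
          intro a b ha hb z hz
          rw [mul_assoc]; exact ha _ (hb _ hz)
        add_mem' := by
          intro a b ha hb z hz
          rw [add_mul]; exact (D x hx).add_mem (ha _ hz) (hb _ hz)
        algebraMap_mem' := by
          intro q z hz
          rw [← Algebra.smul_def]
          exact (D x hx).smul_mem q hz }
    have hB : B = ⊤ := by
      rw [eq_top_iff, ← hgen]
      apply Algebra.adjoin_le
      rintro a ha
      rw [Set.mem_singleton_iff] at ha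
      subst ha
      intro z hz
      rw [← hDeq x hx, ← hDmap x hx]
      exact Submodule.mem_map_of_mem (f := M) hz
    have h1 : z * x⁻¹ ∈ B := by rw [hB]; exact Algebra.mem_top
    have h2 : x ∈ D x hx := (hDmem x hx x).2 ⟨1, by rw [abs_of_pos hx, one_nsmul]⟩
    have h3 := h1 x h2
    rwa [inv_mul_cancel_right₀ hx.ne'] at h3
  refine ⟨fun z x hx => ?_⟩
  obtain ⟨n, hn⟩ := (hDmem x hx z).1 (hDtop x hx z)
  exact ⟨n, (le_abs_self z).trans hn⟩

theorem exists_ringHom_of_order [LinearOrder F] [IsOrderedAddMonoid F] (l : F)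
    (hgen : Algebra.adjoin ℚ {l} = ⊤) (hmul : ∀ a : F, 0 < a → 0 < l * a) (h1 : (0 : F) < 1) :
    ∃ σ : F →+* ℝ, ∀ a, 0 < a ↔ 0 < σ a := by
  haveI := arch_of_order l hgen hmul
  obtain ⟨φ, hφ⟩ := Archimedean.exists_orderAddMonoidHom_real_injective F
  have hmono : StrictMono φ := (OrderHomClass.mono φ).strictMono_of_injective hφ
  have hpos : ∀ a, 0 < φ a ↔ 0 < a := by
    intro a
    rw [← map_zero φ]; exact hmono.lt_iff_lt
  have hφ1 : 0 < φ 1 := (hpos 1).2 h1
  have hl : 0 < φ l := (hpos l).2 (by simpa using hmul 1 h1)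
  let f : F →+ ℝ := φ
  have hf : ∀ a, f a = φ a := fun a => rfl
  let g : F →+ ℝ := f.comp (AddMonoidHom.mulLeft l)
  have hg : ∀ a, g a = φ (l * a) := fun a => rfl
  have hprop : ∀ x, φ (l * x) * φ 1 = φ l * φ x := by
    intro x
    have := proportional f g (u := 1) (by
      intro z hz
      rw [hg, hpos]
      rw [hf, hpos] at hz
      exact hmul z hz) hφ1 (by rw [hg, mul_one]; exact hl) x
    rw [hf, hf, hg, hg, mul_one] at this
    linarith
  let B : Subalgebra ℚ F :=
    { carrier := {a | ∀ x, φ (a * x) * φ 1 = φ a * φ x}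
      mul_mem' := by
        intro a b ha hb x
        have e1 := ha (b * x)
        have e2 := hb x
        have e3 := ha b
        rw [mul_assoc]
        have : (φ (a * (b * x)) * φ 1) * φ 1 = (φ (a * b) * φ x) * φ 1 := by
          linear_combination φ 1 * e1 + φ a * e2 - φ x * e3
        exact mul_right_cancel₀ hφ1.ne' this
      add_mem' := by
        intro a b ha hb x
        rw [add_mul, map_add, map_add, add_mul, add_mul, ha x, hb x]
      algebraMap_mem' := by
        intro q x
        have e1 : algebraMap ℚ F q * x = q • x := (Algebra.smul_def q x).symm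
        have e2 : algebraMap ℚ F q = q • (1 : F) := Algebra.algebraMap_eq_smul_one q
        have e3 : ∀ y, φ (q • y) = q • φ y := fun y => map_ratCast_smul f ℚ ℚ q y
        rw [e1, e2, e3, e3, Rat.smul_def, Rat.smul_def]
        ring }
  have hB : B = ⊤ := by
    rw [eq_top_iff, ← hgen]
    apply Algebra.adjoin_le
    rintro a ha
    rw [Set.mem_singleton_iff] at ha
    subst ha
    exact hprop
  have hall : ∀ a x, φ (a * x) * φ 1 = φ a * φ x := by
    intro a
    have : a ∈ B := by rw [hB]; exact Algebra.mem_top
    exact this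
  let σ : F →+* ℝ :=
    { toFun := fun a => φ a / φ 1
      map_one' := div_self hφ1.ne'
      map_zero' := by simp
      map_add' := by intro a b; rw [map_add]; ring
      map_mul' := by
        intro a b
        have := hall a b
        field_simp
        linear_combination this }
  refine ⟨σ, ?_⟩
  intro a
  have : σ a = φ a / φ 1 := rfl
  rw [this, div_pos_iff_of_pos_right hφ1, hpos]

theorem exists_ringHom_of_cone (l : F)
    (hgen : Algebra.adjoin ℚ {l} = ⊤) (Q : Set F) (h0 : (0 : F) ∉ Q)
    (hadd : ∀ a b, a ∈ Q → b ∈ Q → a + b ∈ Q) (htot : ∀ a, a ≠ 0 → a ∈ Q ∨ -a ∈ Q)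
    (hmul : ∀ a, a ∈ Q → l * a ∈ Q) (h1 : (1 : F) ∈ Q) :
    ∃ σ : F →+* ℝ, ∀ a, a ∈ Q ↔ 0 < σ a := by
  classical
  let inst : LinearOrder F :=
    { le := fun a b => a = b ∨ b - a ∈ Q
      lt := fun a b => b - a ∈ Q
      le_refl := fun a => Or.inl rfl
      le_trans := by
        rintro a b c (rfl | h1) (rfl | h2)
        · exact Or.inl rfl
        · exact Or.inr h2
        · exact Or.inr h1
        · refine Or.inr ?_
          have := hadd _ _ h1 h2
          rwa [add_comm, sub_add_sub_cancel] at this
      lt_iff_le_not_ge := by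
        intro a b
        constructor
        · intro h
          refine ⟨Or.inr h, ?_⟩
          rintro (rfl | h2)
          · rw [sub_self] at h; exact h0 h
          · have := hadd _ _ h h2
            rw [sub_add_sub_cancel, sub_self] at this
            exact h0 this
        · rintro ⟨(rfl | h1), h2⟩
          · exact absurd (Or.inl rfl) h2
          · exact h1
      le_antisymm := by
        rintro a b (rfl | h1) h2
        · rfl
        · rcases h2 with h2 | h2
          · exact h2.symm
          · exfalso
            have := hadd _ _ h1 h2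
            rw [sub_add_sub_cancel, sub_self] at this
            exact h0 this
      le_total := by
        intro a b
        by_cases hab : a = b
        · exact Or.inl (Or.inl hab)
        · rcases htot (b - a) (sub_ne_zero.2 (Ne.symm hab)) with h | h
          · exact Or.inl (Or.inr h)
          · rw [neg_sub] at h
            exact Or.inr (Or.inr h)
      toDecidableLE := Classical.decRel _ }
  have hle : ∀ a b : F, a ≤ b ↔ (a = b ∨ b - a ∈ Q) := fun a b => Iff.rfl
  have hlt : ∀ a b : F, a < b ↔ b - a ∈ Q := fun a b => Iff.rfl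
  haveI : IsOrderedAddMonoid F :=
    { add_le_add_left := by
        intro a b hab c
        rw [hle] at hab ⊢
        rcases hab with rfl | hab
        · exact Or.inl rfl
        · right
          rwa [add_sub_add_right_eq_sub] }
  have hpos : ∀ a : F, 0 < a ↔ a ∈ Q := by
    intro a; rw [hlt, sub_zero]
  obtain ⟨σ, hσ⟩ := exists_ringHom_of_order l hgen
    (fun a ha => (hpos _).2 (hmul a ((hpos _).1 ha))) ((hpos 1).2 h1)
  exact ⟨σ, fun a => by rw [← hpos, hσ]⟩

end

end Pool.Agent.Helper56
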