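import Pool.Agent.Helper56.BG
import Pool.Agent.Helper56.FieldCone

set_option autoImplicit false

namespace Pool.Agent.Helper56

section Z

/-- positive or negative elements of `ℤ` -/
def zCone (e : ℤˣ) : Set (Multiplicative ℤ) := {x | 0 < (e : ℤ) * Multiplicative.toAdd x}

theorem zCone_isCone (e : ℤˣ) : IsCone (zCone e) where
  one := by simp [zCone]
  mul := by
    intro a b ha hb
    simp only [zCone, Set.mem_ofPred_eq] at ha hb ⊢
    rw [toAdd_mul, mul_add]; exact add_pos ha hb
  total := by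
    intro a ha
    simp only [zCone, Set.mem_ofPred_eq]
    rw [toAdd_inv]
    have h1 : Multiplicative.toAdd a ≠ 0 := fun h => ha (Multiplicative.toAdd.injective h)
    have h2 : (e : ℤ) * Multiplicative.toAdd a ≠ 0 := mul_ne_zero e.ne_zero h1
    rcases lt_or_gt_of_ne h2 with h | h
    · right; rw [mul_neg]; omega
    · left; exact h
  conj := by
    intro a g ha
    have : g * a * g⁻¹ = a := by rw [mul_comm g a, mul_inv_cancel_right]
    rwa [this]

theorem zCone_injective : Function.Injective zCone := by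
  intro e e' h
  have h1 : Multiplicative.ofAdd (1 : ℤ) ∈ zCone e ↔ Multiplicative.ofAdd (1 : ℤ) ∈ zCone e' := by
    rw [h]
  simp only [zCone, Set.mem_ofPred_eq, toAdd_ofAdd, mul_one] at h1
  rcases Int.units_eq_one_or e with rfl | rfl <;> rcases Int.units_eq_one_or e' with rfl | rfl
  · rfl
  · simp at h1
  · simp at h1
  · rfl

theorem zCones_eq : {Q : Set (Multiplicative ℤ) | IsCone Q} = Set.range zCone := by
  ext Q
  constructor
  · intro hQ
    have hQ' : IsCone Q := hQ
    have h1 : Multiplicative.ofAdd (1 : ℤ) ≠ 1 := by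
      intro h
      have := congrArg Multiplicative.toAdd h
      simp at this
    have key : ∀ e : ℤˣ, Multiplicative.ofAdd (e : ℤ) ∈ Q → zCone e = Q := by
      intro e he
      apply (zCone_isCone e).eq_of_subset hQ'
      intro x hx
      simp only [zCone, Set.mem_ofPred_eq] at hx
      obtain ⟨n, hn⟩ : ∃ n : ℕ, (e : ℤ) * Multiplicative.toAdd x = n + 1 := by
        refine ⟨((e : ℤ) * Multiplicative.toAdd x - 1).toNat, ?_⟩
        omega
      have hx2 : x = (Multiplicative.ofAdd (e : ℤ)) ^ (n + 1) := by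
        apply Multiplicative.toAdd.injective
        rw [toAdd_pow, toAdd_ofAdd, nsmul_eq_mul]
        rcases Int.units_eq_one_or e with rfl | rfl
        · simp at hn ⊢; exact hn
        · simp at hn ⊢; omega
      rw [hx2]
      clear hx hn hx2
      induction n with
      | zero => simpa using he
      | succ n ih => rw [pow_succ]; exact hQ'.mul _ _ ih he
    rcases hQ'.total _ h1 with h | h
    · exact ⟨1, key 1 (by simpa using h)⟩
    · exact ⟨-1, key (-1) (by simpa using h)⟩
  · rintro ⟨e, rfl⟩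
    exact zCone_isCone e

theorem encard_zCones : {Q : Set (Multiplicative ℤ) | IsCone Q}.encard = 2 := by
  rw [zCones_eq, ← Set.image_univ, zCone_injective.encard_image, Set.encard_univ, ENat.card_eq_coe_fintype_card]
  simp

end Z

section BGcount

variable {F : Type} [Field F] {l : Fˣ}

/-- The cone of `BG` attached to two signs and a real embedding. -/
def bgCone (p : ℤˣ × ℤˣ × (F →+* ℝ)) : Set (BG F l) :=
  {A | 0 < (p.1 : ℤ) * A.n ∨ (A.n = 0 ∧ 0 < ((p.2.1 : ℤ) : ℝ) * p.2.2 A.c)}

theorem bg_conj (A g : BG F l) (hA : A.n = 0) :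
    (g * A * g⁻¹).c = ((l ^ g.n : Fˣ) : F) * A.c := by
  simp only [BG.mul_c, BG.mul_n, BG.inv_c, hA, add_zero]
  rw [zpow_neg]
  have : ((l ^ g.n : Fˣ) : F) * (((l ^ g.n)⁻¹ : Fˣ) : F) = 1 := Units.mul_inv _
  linear_combination (-g.c) * this

theorem bgCone_isCone (hpos : ∀ σ : F →+* ℝ, 0 < σ l) (p : ℤˣ × ℤˣ × (F →+* ℝ)) :
    IsCone (bgCone (l := l) p) := by
  obtain ⟨e, d, σ⟩ := p
  have hσl : ∀ n : ℤ, 0 < σ ((l ^ n : Fˣ) : F) := by
    intro n
    rw [BG.ι_zpow]
    exact zpow_pos (hpos σ) n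
  refine ⟨?_, ?_, ?_, ?_⟩
  · simp [bgCone]
  · intro A B hA hB
    simp only [bgCone, Set.mem_ofPred_eq, BG.mul_n, BG.mul_c] at hA hB ⊢
    rcases hA with hA | ⟨hA, hA'⟩ <;> rcases hB with hB | ⟨hB, hB'⟩
    · left; rw [mul_add]; exact add_pos hA hB
    · left; rw [hB, add_zero]; exact hA
    · left; rw [hA, zero_add]; exact hB
    · right
      refine ⟨by rw [hA, hB]; rfl, ?_⟩
      rw [hA, zpow_zero, Units.val_one, one_mul, map_add, mul_add]
      exact add_pos hA' hB'
  · intro A hA
    simp only [bgCone, Set.mem_ofPred_eq, BG.inv_n, BG.inv_c]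
    by_cases hn : A.n = 0
    · have hc : A.c ≠ 0 := by
        intro hc; apply hA; ext
        · exact hn
        · exact hc
      have h1 : ((d : ℤ) : ℝ) * σ A.c ≠ 0 := by
        apply mul_ne_zero
        · exact_mod_cast d.ne_zero
        · rwa [map_ne_zero]
      rw [hn]
      rcases lt_or_gt_of_ne h1 with h | h
      · right; right
        refine ⟨by simp, ?_⟩
        simp only [neg_zero, zpow_zero, Units.val_one, one_mul, map_neg]
        linarith
      · left; right; exact ⟨rfl, h⟩
    · have h2 : (e : ℤ) * A.n ≠ 0 := mul_ne_zero e.ne_zero hn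
      rcases lt_or_gt_of_ne h2 with h | h
      · right; left; rw [mul_neg]; omega
      · left; left; exact h
  · intro A g hA
    simp only [bgCone, Set.mem_ofPred_eq] at hA ⊢
    have hn : (g * A * g⁻¹).n = A.n := by simp
    rw [hn]
    rcases hA with hA | ⟨hA, hA'⟩
    · exact Or.inl hA
    · right
      refine ⟨hA, ?_⟩
      rw [bg_conj A g hA, map_mul]
      have := hσl g.n
      have h3 := mul_pos this hA'
      linarith

theorem bgCone_injective : Function.Injective (bgCone (F := F) (l := l)) := by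
  rintro ⟨e, d, σ⟩ ⟨e', d', σ'⟩ h
  have h1 : ∀ A : BG F l, A ∈ bgCone (l := l) (e, d, σ) ↔ A ∈ bgCone (l := l) (e', d', σ') := by
    intro A; rw [h]
  simp only [bgCone, Set.mem_ofPred_eq] at h1
  have he : e = e' := by
    have := h1 ⟨1, 0⟩
    simp at this
    rcases Int.units_eq_one_or e with rfl | rfl <;> rcases Int.units_eq_one_or e' with rfl | rfl
    · rfl
    · simp at this
    · simp at this
    · rfl
  have hd : d = d' := by
    have := h1 ⟨0, 1⟩
    simp at this
    rcases Int.units_eq_one_or d with rfl | rfl <;> rcases Int.units_eq_one_or d' with rfl | rfl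
    · rfl
    · simp at this
    · simp at this
    · rfl
  subst he hd
  have hσ : ∀ c : F, 0 < σ c ↔ 0 < σ' c := by
    rcases Int.units_eq_one_or d with rfl | rfl
    · intro c
      have := h1 ⟨0, c⟩
      simpa using this
    · intro c
      have := h1 ⟨0, -c⟩
      simpa using this
  have key : ∀ σ σ' : F →+* ℝ, (∀ c : F, 0 < σ c ↔ 0 < σ' c) → ∀ c, σ c ≤ σ' c := by
    intro σ σ' hσ c
    by_contra hcon
    push Not at hcon
    obtain ⟨q, hq1, hq2⟩ := exists_rat_btwn hcon
    -- work with numerator and denominator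
    have hd : (0 : ℝ) < q.den := by exact_mod_cast q.den_pos
    have hqd : (q : ℝ) * q.den = q.num := by
      exact_mod_cast Rat.mul_den_eq_num q
    have h2 := hσ ((q.den : F) * c - (q.num : F))
    rw [map_sub, map_mul, map_natCast, map_intCast, map_sub, map_mul, map_natCast,
      map_intCast] at h2
    have h3 : 0 < (q.den : ℝ) * σ c - (q.num : ℝ) := by
      have := mul_lt_mul_of_pos_left hq2 hd
      linarith
    have h4 := h2.1 h3
    have := mul_lt_mul_of_pos_left hq1 hd
    linarith
  have : σ = σ' := by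
    apply RingHom.ext
    intro c
    exact le_antisymm (key σ σ' hσ c) (key σ' σ (fun c => (hσ c).symm) c)
  rw [this]

/-- an element with `n ≠ 0` is conjugate to `(n, 0)` -/
theorem bg_conj_pow (hl : ∀ n : ℤ, n ≠ 0 → ((l ^ n : Fˣ) : F) ≠ 1) (A : BG F l) (hA : A.n ≠ 0) :
    ∃ g : BG F l, g * (⟨A.n, 0⟩ : BG F l) * g⁻¹ = A := by
  have h1 : (1 : F) - ((l ^ A.n : Fˣ) : F) ≠ 0 := sub_ne_zero.2 (Ne.symm (hl _ hA))
  refine ⟨⟨0, A.c / (1 - ((l ^ A.n : Fˣ) : F))⟩, ?_⟩
  ext
  · simp
  · simp only [BG.mul_c, BG.mul_n, BG.inv_c, neg_zero, zpow_zero, Units.val_one, one_mul,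
      mul_zero, add_zero, zero_add]
    field_simp
    ring

theorem bgCones_eq [Algebra ℚ F] [FiniteDimensional ℚ F]
    (hgen : Algebra.adjoin ℚ {(l : F)} = ⊤) (hpos : ∀ σ : F →+* ℝ, 0 < σ l)
    (hl : ∀ n : ℤ, n ≠ 0 → ((l ^ n : Fˣ) : F) ≠ 1) :
    {P : Set (BG F l) | IsCone P} = Set.range bgCone := by
  ext P
  constructor
  · intro hP
    have hP' : IsCone P := hP
    -- sign of `(0,1)`
    obtain ⟨d, hd⟩ : ∃ d : ℤˣ, (⟨0, ((d : ℤ) : F)⟩ : BG F l) ∈ P := by
      have h1 : (⟨0, 1⟩ : BG F l) ≠ 1 := by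
        intro h
        have := congrArg BG.c h
        simp at this
      rcases hP'.total _ h1 with h | h
      · exact ⟨1, by simpa using h⟩
      · refine ⟨-1, ?_⟩
        have h2 : (⟨0, 1⟩ : BG F l)⁻¹ = ⟨0, (((-1 : ℤˣ) : ℤ) : F)⟩ := by
          ext
          · simp
          · simp
        rwa [h2] at h
    have hadd : ∀ a b : F, (⟨0, a⟩ : BG F l) ∈ P → (⟨0, b⟩ : BG F l) ∈ P →
        (⟨0, a + b⟩ : BG F l) ∈ P := by
      intro a b ha hb
      have := hP'.mul _ _ ha hb
      have h2 : (⟨0, a⟩ : BG F l) * ⟨0, b⟩ = ⟨0, a + b⟩ := by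
        ext
        · simp
        · simp
      rwa [h2] at this
    have hdd : ((d : ℤ) : F) * ((d : ℤ) : F) = 1 := by
      rcases Int.units_eq_one_or d with rfl | rfl <;> simp
    have hdne : ((d : ℤ) : F) ≠ 0 := left_ne_zero_of_mul_eq_one hdd
    obtain ⟨σ, hσ⟩ := exists_ringHom_of_cone (F := F) (l : F) hgen
      {c : F | (⟨0, ((d : ℤ) : F) * c⟩ : BG F l) ∈ P}
      (by
        intro h
        have h2 : (⟨0, ((d : ℤ) : F) * 0⟩ : BG F l) ∈ P := h
        rw [mul_zero] at h2
        exact hP'.one h2)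
      (by
        intro a b ha hb
        have := hadd _ _ ha hb
        rw [← mul_add] at this
        exact this)
      (by
        intro a ha
        have h1 : (⟨0, ((d : ℤ) : F) * a⟩ : BG F l) ≠ 1 := by
          intro h
          have := congrArg BG.c h
          exact mul_ne_zero hdne ha this
        rcases hP'.total _ h1 with h | h
        · exact Or.inl h
        · right
          have h2 : (⟨0, ((d : ℤ) : F) * a⟩ : BG F l)⁻¹ = ⟨0, ((d : ℤ) : F) * -a⟩ := by
            ext
            · simp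
            · simp
          rw [h2] at h
          exact h)
      (by
        intro a ha
        have := hP'.conj _ (⟨1, 0⟩ : BG F l) ha
        have h2 : (⟨1, 0⟩ : BG F l) * ⟨0, ((d : ℤ) : F) * a⟩ * (⟨1, 0⟩ : BG F l)⁻¹
            = ⟨0, ((d : ℤ) : F) * (l * a)⟩ := by
          ext
          · simp
          · rw [bg_conj _ _ rfl]
            simp
            ring
        rw [h2] at this
        exact this)
      (by
        change (⟨0, ((d : ℤ) : F) * 1⟩ : BG F l) ∈ P
        rw [mul_one]; exact hd)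
    -- sign of `t`
    obtain ⟨e, he⟩ : ∃ e : ℤˣ, (⟨(e : ℤ), 0⟩ : BG F l) ∈ P := by
      have h1 : (⟨1, 0⟩ : BG F l) ≠ 1 := by
        intro h
        have := congrArg BG.n h
        simp at this
      rcases hP'.total _ h1 with h | h
      · exact ⟨1, by simpa using h⟩
      · refine ⟨-1, ?_⟩
        have h2 : (⟨1, 0⟩ : BG F l)⁻¹ = ⟨((-1 : ℤˣ) : ℤ), 0⟩ := by
          ext
          · simp
          · simp
        rwa [h2] at h
    refine ⟨(e, d, σ), ?_⟩
    apply (bgCone_isCone hpos _).eq_of_subset hP'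
    rintro A (hA | ⟨hA, hA'⟩)
    · simp only at hA
      have hAn : A.n ≠ 0 := by rintro h; rw [h] at hA; simp at hA
      obtain ⟨g, hg⟩ := bg_conj_pow hl A hAn
      rw [← hg]
      apply hP'.conj
      obtain ⟨n, hn⟩ : ∃ n : ℕ, (e : ℤ) * A.n = n + 1 := by
        refine ⟨((e : ℤ) * A.n - 1).toNat, ?_⟩
        omega
      have hpow : ∀ n : ℕ, (⟨(e : ℤ) * (n + 1), 0⟩ : BG F l) ∈ P := by
        intro n
        induction n with
        | zero => simpa using he
        | succ n ih =>
          have := hP'.mul _ _ ih he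
          have h2 : (⟨(e : ℤ) * (n + 1), 0⟩ : BG F l) * ⟨(e : ℤ), 0⟩
              = ⟨(e : ℤ) * (((n + 1 : ℕ) : ℤ) + 1), 0⟩ := by
            ext
            · simp; ring
            · simp
          rwa [h2] at this
      have h3 := hpow n
      have h4 : (e : ℤ) * ((n : ℤ) + 1) = A.n := by
        rw [← hn]
        rcases Int.units_eq_one_or e with rfl | rfl <;> simp
      rwa [h4] at h3
    · simp only at hA'
      have h1 : 0 < σ (((d : ℤ) : F) * A.c) := by
        rw [map_mul, map_intCast]; exact hA'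
      have h2 : (⟨0, ((d : ℤ) : F) * (((d : ℤ) : F) * A.c)⟩ : BG F l) ∈ P := (hσ _).2 h1
      rw [← mul_assoc, hdd, one_mul] at h2
      have h3 : A = ⟨0, A.c⟩ := by
        ext
        · exact hA
        · rfl
      rw [h3]; exact h2
  · rintro ⟨p, rfl⟩
    exact bgCone_isCone hpos p

theorem encard_bgCones [Algebra ℚ F] [FiniteDimensional ℚ F]
    (hgen : Algebra.adjoin ℚ {(l : F)} = ⊤) (hpos : ∀ σ : F →+* ℝ, 0 < σ l)
    (hl : ∀ n : ℤ, n ≠ 0 → ((l ^ n : Fˣ) : F) ≠ 1) :
    {P : Set (BG F l) | IsCone P}.encard = 4 * ENat.card (F →+* ℝ) := by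
  rw [bgCones_eq hgen hpos hl, ← Set.image_univ, bgCone_injective.encard_image, Set.encard_univ,
    ENat.card_prod, ENat.card_prod, ENat.card_eq_coe_fintype_card, ← mul_assoc]
  congr 1

end BGcount

end Pool.Agent.Helper56
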