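import Pool.Agent.Helper56.Orders

set_option autoImplicit false
set_option linter.unusedSectionVars false
set_option linter.style.haveILetI false

namespace Pool.Agent.Helper56

section Dom

variable {G : Type*} [Group G] [LinearOrder G] [MulLeftMono G] [MulRightMono G]

/-- `h` infinitely dominates `x`. -/
def Dom (x h : G) : Prop := ∀ n : ℤ, x ^ n < h

theorem Dom.pos {x h : G} (H : Dom x h) : 1 < h := by simpa using H 0

theorem Dom.npow {x h : G} (H : Dom x h) (n : ℕ) : x ^ n < h := by simpa using H n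

theorem dom_of_nat {x h : G} (h1 : 1 ≤ x) (H : ∀ n : ℕ, x ^ n < h) : Dom x h := by
  intro n
  have hh : 1 < h := by simpa using H 0
  rcases n with n | n
  · simpa using H n
  · rw [zpow_negSucc]
    exact lt_of_le_of_lt (inv_le_one'.2 (one_le_pow_of_one_le' h1 _)) hh

theorem Dom.inv {x h : G} (H : Dom x h) : Dom x⁻¹ h := by
  intro n
  rw [inv_zpow']
  exact H _

theorem Dom.pow {x h : G} (H : Dom x h) (k : ℕ) : Dom (x ^ k) h := by
  intro n
  rw [← zpow_natCast, ← zpow_mul]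
  exact H _

theorem Dom.of_le {z m h : G} (H : Dom m h) (h1 : z ≤ m) (h2 : z⁻¹ ≤ m) : Dom z h := by
  intro n
  rcases n with n | n
  · refine lt_of_le_of_lt ?_ (H.npow n)
    simpa using pow_le_pow_left' h1 n
  · refine lt_of_le_of_lt ?_ (H.npow (n + 1))
    rw [zpow_negSucc, ← inv_pow]
    exact pow_le_pow_left' h2 _

theorem dom_one {h : G} (hh : 1 < h) : Dom 1 h := by
  intro n; simpa using hh

theorem Dom.mul_aux {x y h : G} (hx : Dom x h) (hx1 : 1 ≤ x) (hy1 : 1 ≤ y)
    (hyx : y ≤ x) : Dom (x * y) h := by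
  have h2 := hx.pow 2
  refine h2.of_le ?_ ?_
  · rw [pow_two]; exact mul_le_mul' le_rfl hyx
  · refine le_trans (inv_le_one'.2 (one_le_mul hx1 hy1)) ?_
    exact one_le_pow_of_one_le' hx1 _

/-- the positive one among `x, x⁻¹` -/
theorem exists_abs (x : G) : ∃ y, 1 ≤ y ∧ x ≤ y ∧ x⁻¹ ≤ y ∧ (y = x ∨ y = x⁻¹) := by
  rcases le_total 1 x with h | h
  · exact ⟨x, h, le_rfl, le_trans (inv_le_one'.2 h) h, Or.inl rfl⟩
  · exact ⟨x⁻¹, one_le_inv'.2 h, le_trans h (one_le_inv'.2 h), le_rfl, Or.inr rfl⟩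

theorem Dom.mul {x y h : G} (hx : Dom x h) (hy : Dom y h) : Dom (x * y) h := by
  obtain ⟨a, ha1, ha2, ha3, ha4⟩ := exists_abs x
  obtain ⟨b, hb1, hb2, hb3, hb4⟩ := exists_abs y
  have hda : Dom a h := by rcases ha4 with rfl | rfl; exacts [hx, hx.inv]
  have hdb : Dom b h := by rcases hb4 with rfl | rfl; exacts [hy, hy.inv]
  obtain ⟨m, hm, ham, hbm⟩ : ∃ m, Dom m h ∧ a ≤ m ∧ b ≤ m := by
    rcases le_total a b with hab | hab
    · exact ⟨b, hdb, hab, le_rfl⟩
    · exact ⟨a, hda, le_rfl, hab⟩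
  refine (hm.pow 2).of_le ?_ ?_
  · rw [pow_two]; exact mul_le_mul' (ha2.trans ham) (hb2.trans hbm)
  · rw [pow_two, mul_inv_rev]; exact mul_le_mul' (hb3.trans hbm) (ha3.trans ham)

theorem conj_lt {a b : G} (w : G) (h : a < b) : w * a * w⁻¹ < w * b * w⁻¹ :=
  mul_lt_mul_left (mul_lt_mul_right h w) w⁻¹

theorem conj_lt_iff {a b : G} (w : G) : w * a * w⁻¹ < w * b * w⁻¹ ↔ a < b := by
  constructor
  · intro h
    have := conj_lt w⁻¹ h
    simpa [mul_assoc] using this
  · exact conj_lt w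

theorem conj_pow_le {a b : G} (w : G) {m n : ℕ} (h : a ^ m ≤ b ^ n) :
    (w * a * w⁻¹) ^ m ≤ (w * b * w⁻¹) ^ n := by
  rw [conj_pow, conj_pow]
  exact mul_le_mul' (mul_le_mul' le_rfl h) le_rfl

theorem Dom.conj {x h : G} (H : Dom x h) (w : G) : Dom (w * x * w⁻¹) (w * h * w⁻¹) := by
  intro n
  rw [conj_zpow]
  exact conj_lt w (H n)

theorem Dom.conj_iff {x h : G} (w : G) : Dom (w * x * w⁻¹) (w * h * w⁻¹) ↔ Dom x h := by
  constructor
  · intro H
    have := H.conj w⁻¹
    simpa [mul_assoc] using this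
  · intro H; exact H.conj w

/-- In a simple group some conjugate of `u ≠ 1` is not dominated by `h`. -/
theorem exists_not_dom (hs : ∀ u : G, u ≠ 1 → Subgroup.normalClosure {u} = ⊤)
    {u h : G} (hu : u ≠ 1) : ∃ w : G, ¬ Dom (w * u * w⁻¹) h := by
  by_contra hcon
  push Not at hcon
  have hh : 1 < h := (hcon 1).pos
  let D : Subgroup G :=
    { carrier := {x | Dom x h}
      mul_mem' := fun {a b} ha hb => Dom.mul ha hb
      one_mem' := dom_one hh
      inv_mem' := fun {a} ha => Dom.inv ha }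
  have h1 : Subgroup.normalClosure {u} ≤ D := by
    rw [Subgroup.normalClosure, Subgroup.closure_le]
    intro x hx
    rw [Group.mem_conjugatesOfSet_iff] at hx
    obtain ⟨a, ha, hax⟩ := hx
    rw [Set.mem_singleton_iff] at ha
    subst ha
    rw [isConj_iff] at hax
    obtain ⟨c, rfl⟩ := hax
    exact hcon c
  rw [hs u hu] at h1
  have h2 : Dom h h := h1 (Subgroup.mem_top h)
  have := h2 1
  rw [zpow_one] at this
  exact lt_irrefl _ this

end Dom

/-- Axioms for the separation relation (`u` lies strictly below `f`). -/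
structure SepAx {G : Type*} [Group G] (Sep : G → G → Prop) : Prop where
  comm : ∀ u f, Sep u f → u * f = f * u
  sim : ∀ u f g h, Sep u f → Sep (g * u * g⁻¹) (h * f * h⁻¹) →
    ∃ w, w * u * w⁻¹ = g * u * g⁻¹ ∧ w * f * w⁻¹ = h * f * h⁻¹
  room : ∀ u a b, ∃ g, Sep (g * u * g⁻¹) a ∧ Sep (g * u * g⁻¹) b
  room' : ∀ u a b, ∃ g, Sep a (g * u * g⁻¹) ∧ Sep b (g * u * g⁻¹)
  irr : ∀ u, Sep u u → u = 1
  trans : ∀ x z y, Sep x z → Sep z y → z ≠ 1 → Sep x y

theorem SepAx.flip {G : Type*} [Group G] {Sep : G → G → Prop} (S : SepAx Sep) :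
    SepAx (fun u f => Sep f u) where
  comm := fun u f h => (S.comm f u h).symm
  sim := by
    intro u f g h h1 h2
    obtain ⟨w, hw1, hw2⟩ := S.sim f u h g h1 h2
    exact ⟨w, hw2, hw1⟩
  room := fun u a b => S.room' u a b
  room' := fun u a b => S.room u a b
  irr := fun u h => S.irr u h
  trans := fun x z y h1 h2 h3 => S.trans y z x h2 h1 h3

theorem exists_pow_gap (N m : ℕ) : ∃ k : ℕ, N * m ^ k < (m + 1) ^ k := by
  rcases Nat.eq_zero_or_pos m with rfl | hm
  · exact ⟨1, by simp⟩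
  · have h1 : (1 : ℝ) < ((m : ℝ) + 1) / m := by
      rw [lt_div_iff₀ (by exact_mod_cast hm)]
      linarith
    obtain ⟨k, hk⟩ := pow_unbounded_of_one_lt (N : ℝ) h1
    refine ⟨k, ?_⟩
    rw [div_pow, lt_div_iff₀ (by positivity)] at hk
    exact_mod_cast hk

section Main

variable {G : Type*} [Group G] [LinearOrder G] [MulLeftMono G] [MulRightMono G]

/-- Key claim: if for some separated pair of conjugates of `a` the upper one is larger, then
for all such pairs, the upper one dominates the lower one. -/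
theorem dom_of_lt {Sep : G → G → Prop} (S : SepAx Sep)
    (hs : ∀ u : G, u ≠ 1 → Subgroup.normalClosure {u} = ⊤) {a : G} (ha : 1 < a)
    (g₀ h₀ : G) (hsep : Sep (g₀ * a * g₀⁻¹) (h₀ * a * h₀⁻¹))
    (hlt : g₀ * a * g₀⁻¹ < h₀ * a * h₀⁻¹) (g h : G)
    (hgh : Sep (g * a * g⁻¹) (h * a * h⁻¹)) :
    Dom (g * a * g⁻¹) (h * a * h⁻¹) := by
  -- transfer principle
  have conj_conj : ∀ w g : G, w * (g * a * g⁻¹) * w⁻¹ = (w * g) * a * (w * g)⁻¹ := by
    intro w g; group
  have transfer : ∀ g' h' : G, Sep (g' * a * g'⁻¹) (h' * a * h'⁻¹) → ∀ g h : G,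
      Sep (g * a * g⁻¹) (h * a * h⁻¹) → ∃ w : G, w * (g' * a * g'⁻¹) * w⁻¹ = g * a * g⁻¹ ∧
        w * (h' * a * h'⁻¹) * w⁻¹ = h * a * h⁻¹ := by
    intro g' h' h1 g h h2
    have e1 : g * a * g⁻¹ = (g * g'⁻¹) * (g' * a * g'⁻¹) * (g * g'⁻¹)⁻¹ := by group
    have e2 : h * a * h⁻¹ = (h * h'⁻¹) * (h' * a * h'⁻¹) * (h * h'⁻¹)⁻¹ := by group
    rw [e1, e2] at h2 ⊢
    exact S.sim _ _ _ _ h1 h2
  have pos : ∀ g : G, 1 < g * a * g⁻¹ := by
    intro g
    have := conj_lt g ha
    simpa using this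
  set x₀ := g₀ * a * g₀⁻¹ with hx₀
  set y₀ := h₀ * a * h₀⁻¹ with hy₀
  have hxy : Commute x₀ y₀ := S.comm _ _ hsep
  set b := y₀ * x₀⁻¹ with hb
  have hbpos : 1 < b := by
    rw [hb, lt_mul_inv_iff_mul_lt, one_mul]; exact hlt
  have hbpow : ∀ n : ℕ, b ^ n = y₀ ^ n * (x₀ ^ n)⁻¹ := by
    intro n
    rw [hb, (hxy.symm.inv_right).mul_pow, inv_pow]
  -- all separated pairs are increasing
  have incr : ∀ g h : G, Sep (g * a * g⁻¹) (h * a * h⁻¹) → g * a * g⁻¹ < h * a * h⁻¹ := by
    intro g h h1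
    obtain ⟨w, hw1, hw2⟩ := transfer g₀ h₀ hsep g h h1
    rw [← hw1, ← hw2]
    exact conj_lt w hlt
  by_cases hcase : ∃ n : ℕ, y₀ ≤ b ^ n
  · -- case (i)
    obtain ⟨n, hn⟩ := hcase
    obtain ⟨m, rfl⟩ : ∃ m, n = m + 1 := by
      rcases n with _ | m
      · rw [pow_zero] at hn
        exact absurd (pos h₀) (not_lt.2 hn)
      · exact ⟨m, rfl⟩
    have hstep₀ : x₀ ^ (m + 1) ≤ y₀ ^ m := by
      rw [hbpow, le_mul_inv_iff_mul_le, pow_succ' y₀] at hn
      exact le_of_mul_le_mul_left' hn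
    have hstep : ∀ g h : G, Sep (g * a * g⁻¹) (h * a * h⁻¹) →
        (g * a * g⁻¹) ^ (m + 1) ≤ (h * a * h⁻¹) ^ m := by
      intro g h h1
      obtain ⟨w, hw1, hw2⟩ := transfer g₀ h₀ hsep g h h1
      rw [← hw1, ← hw2]
      exact conj_pow_le w hstep₀
    have hiter : ∀ k : ℕ, ∀ g h : G, Sep (g * a * g⁻¹) (h * a * h⁻¹) →
        (g * a * g⁻¹) ^ ((m + 1) ^ k) ≤ (h * a * h⁻¹) ^ (m ^ k) := by
      intro k
      induction k with
      | zero =>
        intro g h h1
        simpa using (incr g h h1).le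
      | succ k ih =>
        -- choose a special triple
        obtain ⟨p, hp, -⟩ := S.room a a a
        obtain ⟨q, hq, -⟩ := S.room a (p * a * p⁻¹) a
        have hpne : p * a * p⁻¹ ≠ 1 := (pos p).ne'
        have hqa : Sep (q * a * q⁻¹) (1 * a * 1⁻¹) := by
          simpa using S.trans _ _ _ hq hp hpne
        have hp' : Sep (p * a * p⁻¹) (1 * a * 1⁻¹) := by simpa using hp
        have key : (q * a * q⁻¹) ^ ((m + 1) ^ (k + 1)) ≤ (1 * a * 1⁻¹) ^ (m ^ (k + 1)) := by
          calc (q * a * q⁻¹) ^ ((m + 1) ^ (k + 1))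
              = ((q * a * q⁻¹) ^ ((m + 1) ^ k)) ^ (m + 1) := by rw [← pow_mul, pow_succ]
            _ ≤ ((p * a * p⁻¹) ^ (m ^ k)) ^ (m + 1) := pow_le_pow_left' (ih q p hq) _
            _ = ((p * a * p⁻¹) ^ (m + 1)) ^ (m ^ k) := by
                rw [← pow_mul, ← pow_mul, mul_comm]
            _ ≤ ((1 * a * 1⁻¹) ^ m) ^ (m ^ k) := pow_le_pow_left' (hstep p 1 hp') _
            _ = (1 * a * 1⁻¹) ^ (m ^ (k + 1)) := by rw [← pow_mul, pow_succ']
        intro g h h1
        obtain ⟨w, hw1, hw2⟩ := transfer q 1 hqa g h h1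
        rw [← hw1, ← hw2]
        exact conj_pow_le w key
    apply dom_of_nat (pos g).le
    intro N
    by_contra hcon
    push Not at hcon
    obtain ⟨k, hk⟩ := exists_pow_gap N m
    have h1 := hiter k g h hgh
    have h2 : (h * a * h⁻¹) ^ (m ^ k) ≤ (g * a * g⁻¹) ^ (N * m ^ k) := by
      rw [pow_mul]; exact pow_le_pow_left' hcon _
    have h3 : (g * a * g⁻¹) ^ (N * m ^ k) < (g * a * g⁻¹) ^ ((m + 1) ^ k) :=
      pow_lt_pow_right' (pos g) hk
    exact absurd (h1.trans h2) (not_le.2 h3)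
  · -- case (ii)
    exfalso
    push Not at hcase
    have hbne : b ≠ 1 := hbpos.ne'
    -- y < x ^ 2 for all separated pairs
    have hsq₀ : y₀ < x₀ ^ 2 := by
      have h2 := hcase 2
      rw [hbpow, mul_inv_lt_iff_lt_mul, pow_two y₀] at h2
      exact lt_of_mul_lt_mul_left' h2
    have hsq : ∀ g h : G, Sep (g * a * g⁻¹) (h * a * h⁻¹) →
        (h * a * h⁻¹) < (g * a * g⁻¹) ^ 2 := by
      intro g h h1
      obtain ⟨w, hw1, hw2⟩ := transfer g₀ h₀ hsep g h h1
      rw [← hw1, ← hw2, conj_pow]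
      exact conj_lt w hsq₀
    obtain ⟨w, hw⟩ := exists_not_dom hs (u := b) (h := y₀) hbne
    apply hw
    have hbwpos : 1 < w * b * w⁻¹ := by
      have := conj_lt w hbpos
      simpa using this
    apply dom_of_nat hbwpos.le
    intro n
    by_contra hcon
    push Not at hcon
    -- room
    obtain ⟨z, hz1, hz2⟩ := S.room a y₀ (w * y₀ * w⁻¹)
    have e1 : w * y₀ * w⁻¹ = (w * h₀) * a * (w * h₀)⁻¹ := conj_conj w h₀
    have h3 : (w * y₀ * w⁻¹) < (z * a * z⁻¹) ^ 2 := by
      rw [e1] at hz2 ⊢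
      exact hsq _ _ hz2
    have h4 : (z * a * z⁻¹) ^ 2 ≤ y₀ ^ 2 := pow_le_pow_left' (incr z h₀ hz1).le 2
    have h5 : y₀ ^ 2 ≤ (w * b * w⁻¹) ^ (n * 2) := by
      rw [pow_mul]; exact pow_le_pow_left' hcon 2
    have h6 : (w * b * w⁻¹) ^ (n * 2) < w * y₀ * w⁻¹ := by
      rw [conj_pow]
      exact conj_lt w (hcase _)
    exact lt_irrefl _ (((h3.trans_le h4).trans_le h5).trans h6)

/-- type U for a positive element -/
def UElt (Sep : G → G → Prop) (a : G) : Prop :=
  ∀ g h : G, Sep (g * a * g⁻¹) (h * a * h⁻¹) → Dom (g * a * g⁻¹) (h * a * h⁻¹)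

theorem uelt_or {Sep : G → G → Prop} (S : SepAx Sep)
    (hs : ∀ u : G, u ≠ 1 → Subgroup.normalClosure {u} = ⊤) {a : G} (ha : 1 < a) :
    UElt Sep a ∨ UElt (fun u f => Sep f u) a := by
  obtain ⟨g, hg, -⟩ := S.room a a a
  have hg' : Sep (g * a * g⁻¹) (1 * a * 1⁻¹) := by simpa using hg
  rcases lt_trichotomy (g * a * g⁻¹) (1 * a * 1⁻¹) with h | h | h
  · exact Or.inl (fun g' h' H => dom_of_lt S hs ha g 1 hg' h g' h' H)
  · exfalso
    rw [h] at hg'
    have := S.irr _ hg'
    simp at this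
    exact ha.ne' this
  · exact Or.inr (fun g' h' H => dom_of_lt S.flip hs ha 1 g hg' h g' h' H)

/-- Step 2. -/
theorem dom_of_uelt {Sep : G → G → Prop} (S : SepAx Sep)
    (hs : ∀ u : G, u ≠ 1 → Subgroup.normalClosure {u} = ⊤) {u f : G} (hu : 1 < u)
    (hU : UElt Sep u) (hf : 1 < f) (hsep : Sep u f) : Dom u f := by
  apply dom_of_nat hu.le
  intro n
  by_contra hcon
  push Not at hcon
  obtain ⟨w, hw⟩ := exists_not_dom hs (u := f) (h := u) hf.ne'
  apply hw
  obtain ⟨h, hh1, hh2⟩ := S.room u (w * f * w⁻¹) u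
  obtain ⟨v, hv1, hv2⟩ := S.sim u f h w hsep hh1
  have h1 : w * f * w⁻¹ ≤ (h * u * h⁻¹) ^ n := by
    rw [← hv1, ← hv2, conj_pow]
    exact mul_le_mul' (mul_le_mul' le_rfl hcon) le_rfl
  have h2 : Dom (h * u * h⁻¹) u := by
    have := hU h 1 (by simpa using hh2)
    simpa using this
  have hfw : 1 < w * f * w⁻¹ := by
    have := conj_lt w hf
    simpa using this
  exact (h2.pow n).of_le h1 (le_trans (inv_le_one'.2 hfw.le)
    (le_trans hfw.le h1))

theorem dicho_lin {Sep : G → G → Prop} (S : SepAx Sep)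
    (hs : ∀ u : G, u ≠ 1 → Subgroup.normalClosure {u} = ⊤) :
    (∀ u f, Sep u f → 1 < u → 1 < f → Dom u f) ∨
      (∀ u f, Sep f u → 1 < u → 1 < f → Dom u f) := by
  by_cases hall : ∀ a : G, 1 < a → UElt Sep a
  · exact Or.inl (fun u f h hu hf => dom_of_uelt S hs hu (hall u hu) hf h)
  · right
    push Not at hall
    obtain ⟨f, hf, hfU⟩ := hall
    have hfL := (uelt_or S hs hf).resolve_left hfU
    -- every u is of type L
    have hallL : ∀ a : G, 1 < a → UElt (fun u f => Sep f u) a := by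
      intro u hu
      rcases uelt_or S hs hu with hU | hL
      · exfalso
        obtain ⟨g, hg, -⟩ := S.room u f f
        have hu' : 1 < g * u * g⁻¹ := by
          have := conj_lt g hu
          simpa using this
        have hU' : UElt Sep (g * u * g⁻¹) := by
          intro p q hpq
          have e1 : p * (g * u * g⁻¹) * p⁻¹ = (p * g) * u * (p * g)⁻¹ := by group
          have e2 : q * (g * u * g⁻¹) * q⁻¹ = (q * g) * u * (q * g)⁻¹ := by group
          rw [e1, e2] at hpq ⊢
          exact hU _ _ hpq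
        have d1 := dom_of_uelt S hs hu' hU' hf hg
        have d2 := dom_of_uelt S.flip hs hf hfL hu' hg
        have h1 := d1 1
        have h2 := d2 1
        rw [zpow_one] at h1 h2
        exact lt_asymm h1 h2
      · exact hL
    exact fun u f h hu hf => dom_of_uelt S.flip hs hu (hallL u hu) hf h

end Main

/-- A cone is of type U relative to `Sep`: the sign of an element is unchanged when multiplying by
something below. -/
def UType {G : Type*} [Group G] (Sep : G → G → Prop) (P : Set G) : Prop :=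
  ∀ u f, Sep u f → f ∈ P → ∀ n : ℤ, u ^ n * f ∈ P

theorem dichotomy {G : Type*} [Group G] {Sep : G → G → Prop} (S : SepAx Sep)
    (hinv : ∀ u f, Sep u f → Sep u⁻¹ f) (hinv' : ∀ u f, Sep u f → Sep u f⁻¹)
    (hs : ∀ u : G, u ≠ 1 → Subgroup.normalClosure {u} = ⊤) {P : Set G} (hP : IsCone P) :
    UType Sep P ∨ UType (fun u f => Sep f u) P := by
  classical
  letI : LE G := ⟨fun a b => a = b ∨ a⁻¹ * b ∈ P⟩
  letI : LT G := ⟨fun a b => a⁻¹ * b ∈ P⟩
  have lt_def : ∀ a b : G, a < b ↔ a⁻¹ * b ∈ P := fun a b => Iff.rfl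
  have le_def : ∀ a b : G, a ≤ b ↔ (a = b ∨ a⁻¹ * b ∈ P) := fun a b => Iff.rfl
  letI : LinearOrder G :=
    { le := fun a b => a = b ∨ a⁻¹ * b ∈ P
      lt := fun a b => a⁻¹ * b ∈ P
      le_refl := fun a => Or.inl rfl
      le_trans := by
        rintro a b c (rfl | h1) (rfl | h2)
        · exact Or.inl rfl
        · exact Or.inr h2
        · exact Or.inr h1
        · refine Or.inr ?_
          have := hP.mul _ _ h1 h2
          simpa [mul_assoc] using this
      lt_iff_le_not_ge := by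
        intro a b
        constructor
        · intro h
          refine ⟨Or.inr h, ?_⟩
          rintro (rfl | h2)
          · exact hP.ne_one h (by simp)
          · have := hP.not_inv h
            rw [mul_inv_rev, inv_inv] at this
            exact this h2
        · rintro ⟨(rfl | h1), h2⟩
          · exact absurd (Or.inl rfl) h2
          · exact h1
      le_antisymm := by
        rintro a b (rfl | h1) h2
        · rfl
        · rcases h2 with h2 | h2
          · exact h2.symm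
          · exfalso
            have := hP.not_inv h1
            rw [mul_inv_rev, inv_inv] at this
            exact this h2
      le_total := by
        intro a b
        by_cases hab : a = b
        · exact Or.inl (Or.inl hab)
        · have h1 : a⁻¹ * b ≠ 1 := by
            intro h; rw [inv_mul_eq_one] at h; exact hab h
          rcases hP.total _ h1 with h | h
          · exact Or.inl (Or.inr h)
          · refine Or.inr (Or.inr ?_)
            rw [mul_inv_rev, inv_inv] at h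
            exact h
      toDecidableLE := Classical.decRel _ }
  haveI : MulLeftMono G := ⟨by
    rintro c a b (h | h)
    · exact Or.inl (by rw [h])
    · refine Or.inr ?_
      have : (c * a)⁻¹ * (c * b) = a⁻¹ * b := by group
      rw [this]; exact h⟩
  haveI : MulRightMono G := ⟨by
    rintro c a b (h | h)
    · exact Or.inl (by simp [h])
    · refine Or.inr ?_
      have : (Function.swap (· * ·) c a)⁻¹ * (Function.swap (· * ·) c b)
          = c⁻¹ * (a⁻¹ * b) * c := by
        simp only [Function.swap]; group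
      rw [this]; exact hP.conj' h⟩
  have pos_iff : ∀ a : G, 1 < a ↔ a ∈ P := by
    intro a
    have : (1 : G) < a ↔ (1 : G)⁻¹ * a ∈ P := Iff.rfl
    rw [this, inv_one, one_mul]
  have lt_iff : ∀ a b : G, a < b ↔ a⁻¹ * b ∈ P := fun a b => Iff.rfl
  have key : ∀ Sep' : G → G → Prop, (∀ u f, Sep' u f → Sep' u⁻¹ f) →
      (∀ u f, Sep' u f → 1 < u → 1 < f → Dom u f) → UType Sep' P := by
    intro Sep' hi hD u f hsep hf n
    by_cases hu1 : u = 1
    · subst hu1; simpa using hf
    rcases hP.total u hu1 with hu | hu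
    · have := hD u f hsep ((pos_iff _).2 hu) ((pos_iff _).2 hf) (-n)
      rw [lt_iff] at this
      simpa using this
    · have := hD u⁻¹ f (hi _ _ hsep) ((pos_iff _).2 hu) ((pos_iff _).2 hf) n
      rw [lt_iff] at this
      simpa using this
  rcases dicho_lin S hs with h | h
  · exact Or.inl (key _ hinv h)
  · exact Or.inr (key _ (fun u f h => hinv' _ _ h) h)

end Pool.Agent.Helper56
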