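import Mathlib

set_option autoImplicit false
set_option linter.style.haveILetI false

open Polynomial

namespace Pool.Agent.Helper56

/-- the product `∏ (X - 8(i+1))` -/
noncomputable def qpoly (r : ℕ) : ℤ[X] := ∏ i ∈ Finset.range r, (X - C (8 * ((i : ℤ) + 1)))

/-- the polynomial `∏ (X - 8(i+1)) + 2` -/
noncomputable def ppoly (r : ℕ) : ℤ[X] := qpoly r + C 2

theorem qpoly_monic (r : ℕ) : (qpoly r).Monic :=
  monic_prod_of_monic _ _ (fun _ _ => monic_X_sub_C _)

theorem qpoly_natDegree (r : ℕ) : (qpoly r).natDegree = r := by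
  rw [qpoly, natDegree_prod_of_monic _ _ (fun _ _ => monic_X_sub_C _)]
  simp only [natDegree_X_sub_C, Finset.sum_const, Finset.card_range, smul_eq_mul, mul_one]

theorem qpoly_degree (r : ℕ) : (qpoly r).degree = r := by
  rw [degree_eq_natDegree (qpoly_monic r).ne_zero, qpoly_natDegree]

theorem deg_lt {r : ℕ} (hr : 0 < r) : (C 2 : ℤ[X]).degree < (qpoly r).degree := by
  rw [qpoly_degree]
  refine lt_of_le_of_lt degree_C_le ?_
  exact_mod_cast hr

theorem ppoly_monic {r : ℕ} (hr : 0 < r) : (ppoly r).Monic :=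
  (qpoly_monic r).add_of_left (deg_lt hr)

theorem ppoly_degree {r : ℕ} (hr : 0 < r) : (ppoly r).degree = r := by
  rw [ppoly, degree_add_eq_left_of_degree_lt (deg_lt hr), qpoly_degree]

theorem ppoly_natDegree {r : ℕ} (hr : 0 < r) : (ppoly r).natDegree = r :=
  natDegree_eq_of_degree_eq_some (ppoly_degree hr)

theorem ppoly_mod (r : ℕ) : (ppoly r).map (Int.castRingHom (ZMod 2)) = X ^ r := by
  rw [ppoly, qpoly, Polynomial.map_add, Polynomial.map_prod]
  have h1 : ∀ i ∈ Finset.range r,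
      (X - C (8 * ((i : ℤ) + 1)) : ℤ[X]).map (Int.castRingHom (ZMod 2)) = X := by
    intro i _
    have : ((8 : ℤ) : ZMod 2) = 0 := by decide
    rw [Polynomial.map_sub, map_X, map_C]
    simp only [map_mul, eq_intCast, this, zero_mul]
    simp
  rw [Finset.prod_congr rfl h1, Finset.prod_const, Finset.card_range, map_C]
  have : ((2 : ℤ) : ZMod 2) = 0 := by decide
  simp only [eq_intCast, this]
  simp

theorem ppoly_coeff_zero {r : ℕ} (hr : 0 < r) : ∃ k : ℤ, (ppoly r).coeff 0 = 4 * k + 2 := by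
  rw [coeff_zero_eq_eval_zero, ppoly, qpoly, eval_add, eval_prod, eval_C]
  have h1 : ∏ i ∈ Finset.range r, eval 0 (X - C (8 * ((i : ℤ) + 1)) : ℤ[X])
      = ∏ i ∈ Finset.range r, (-(8 * ((i : ℤ) + 1))) := by
    apply Finset.prod_congr rfl
    intro i _
    simp
  rw [h1]
  obtain ⟨s, rfl⟩ : ∃ s, r = s + 1 := ⟨r - 1, by omega⟩
  rw [Finset.prod_range_succ]
  refine ⟨(∏ i ∈ Finset.range s, (-(8 * ((i : ℤ) + 1)))) * (-(2 * ((s : ℤ) + 1))), ?_⟩
  ring

theorem ppoly_irreducible {r : ℕ} (hr : 0 < r) : Irreducible (ppoly r) := by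
  have hprime : (Ideal.span {(2 : ℤ)}).IsPrime := by
    rw [Ideal.span_singleton_prime (by norm_num)]
    exact Int.prime_two
  apply irreducible_of_eisenstein_criterion hprime
  · rw [ppoly_monic hr, Ideal.mem_span_singleton]
    decide
  · intro n hn
    rw [ppoly_degree hr] at hn
    have hn' : n < r := by exact_mod_cast hn
    rw [Ideal.mem_span_singleton]
    have h1 : ((ppoly r).map (Int.castRingHom (ZMod 2))).coeff n = 0 := by
      rw [ppoly_mod, coeff_X_pow, if_neg hn'.ne]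
    rw [coeff_map, eq_intCast] at h1
    exact (ZMod.intCast_zmod_eq_zero_iff_dvd _ 2).1 h1
  · rw [ppoly_degree hr]; exact_mod_cast hr
  · obtain ⟨k, hk⟩ := ppoly_coeff_zero hr
    rw [hk, Ideal.span_singleton_pow, Ideal.mem_span_singleton]
    omega
  · exact (ppoly_monic hr).isPrimitive

/-- the rational polynomial -/
noncomputable def rpoly (r : ℕ) : ℚ[X] := (ppoly r).map (Int.castRingHom ℚ)

theorem rpoly_monic {r : ℕ} (hr : 0 < r) : (rpoly r).Monic := (ppoly_monic hr).map _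

theorem rpoly_irreducible {r : ℕ} (hr : 0 < r) : Irreducible (rpoly r) :=
  (IsPrimitive.Int.irreducible_iff_irreducible_map_cast (ppoly_monic hr).isPrimitive).1
    (ppoly_irreducible hr)

theorem rpoly_natDegree {r : ℕ} (hr : 0 < r) : (rpoly r).natDegree = r := by
  rw [rpoly, (ppoly_monic hr).natDegree_map, ppoly_natDegree hr]

/-- the real function -/
noncomputable def qfun (r : ℕ) (x : ℝ) : ℝ := ∏ i ∈ Finset.range r, (x - 8 * ((i : ℝ) + 1))

theorem aeval_rpoly (r : ℕ) (x : ℝ) : aeval x (rpoly r) = qfun r x + 2 := by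
  rw [rpoly, aeval_def, eval₂_map, ppoly, qpoly, eval₂_add, eval₂_finsetProd, qfun]
  congr 1
  · apply Finset.prod_congr rfl
    intro i _
    simp
  · simp

theorem abs_qfun_ge {r : ℕ} (hr : 0 < r) {x : ℝ} (hx : ∀ i : ℕ, i < r → 4 ≤ |x - 8 * ((i : ℝ) + 1)|) :
    4 ≤ |qfun r x| := by
  rw [qfun, Finset.abs_prod]
  calc (4 : ℝ) ≤ 4 ^ r := by
        obtain ⟨s, rfl⟩ : ∃ s, r = s + 1 := ⟨r - 1, by omega⟩
        rw [pow_succ]
        have : (1 : ℝ) ≤ 4 ^ s := one_le_pow₀ (by norm_num)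
        linarith
    _ = ∏ i ∈ Finset.range r, (4 : ℝ) := by rw [Finset.prod_const, Finset.card_range]
    _ ≤ ∏ i ∈ Finset.range r, |x - 8 * ((i : ℝ) + 1)| := by
        apply Finset.prod_le_prod
        · intro i _; norm_num
        · intro i hi; exact hx i (Finset.mem_range.1 hi)

theorem abs_mid (j : ℕ) (i : ℕ) : 4 ≤ |((8 : ℝ) * j + 4) - 8 * ((i : ℝ) + 1)| := by
  have h1 : ((8 : ℝ) * j + 4) - 8 * ((i : ℝ) + 1) = ((8 * (j : ℤ) + 4 - 8 * ((i : ℤ) + 1) : ℤ) : ℝ) := by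
    push_cast; ring
  rw [h1, ← Int.cast_abs]
  have h2 : (4 : ℤ) ≤ |8 * (j : ℤ) + 4 - 8 * ((i : ℤ) + 1)| := by
    rw [le_abs]; omega
  exact_mod_cast h2

theorem qfun_neg {r j : ℕ} (hj : j < r) : qfun r (8 * (j : ℝ) + 4) * qfun r (8 * (j : ℝ) + 12) < 0 := by
  rw [qfun, qfun, ← Finset.prod_mul_distrib]
  rw [← Finset.prod_erase_mul _ _ (Finset.mem_range.2 hj)]
  apply mul_neg_of_pos_of_neg
  · apply Finset.prod_pos
    intro i hi
    have hij : i ≠ j := (Finset.mem_erase.1 hi).1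
    have h1 : ((8 * (j : ℝ) + 4) - 8 * ((i : ℝ) + 1)) * ((8 * (j : ℝ) + 12) - 8 * ((i : ℝ) + 1))
        = ((64 * (((j : ℤ) - i) * ((j : ℤ) - i)) - 16 : ℤ) : ℝ) := by
      push_cast; ring
    rw [h1]
    have h2 : (1 : ℤ) ≤ ((j : ℤ) - i) * ((j : ℤ) - i) := by
      have h3 : ((j : ℤ) - i) ≠ 0 := by omega
      have := mul_self_pos.2 h3
      linarith
    have h3 : (0 : ℤ) < 64 * (((j : ℤ) - i) * ((j : ℤ) - i)) - 16 := by linarith
    exact_mod_cast h3
  · ring_nf; norm_num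

theorem qfun_continuous (r : ℕ) : Continuous (qfun r) := by
  unfold qfun
  fun_prop

theorem exists_root {r j : ℕ} (hj : j < r) :
    ∃ x : ℝ, 8 * (j : ℝ) + 4 < x ∧ x < 8 * (j : ℝ) + 12 ∧ qfun r x + 2 = 0 := by
  have hr : 0 < r := by omega
  have h1 := abs_qfun_ge hr (x := 8 * (j : ℝ) + 4) (fun i _ => abs_mid j i)
  have h2 := abs_qfun_ge hr (x := 8 * (j : ℝ) + 12) (fun i _ => by
    have := abs_mid (j + 1) i
    push_cast at this
    have e : (8 : ℝ) * ((j : ℝ) + 1) + 4 = 8 * (j : ℝ) + 12 := by ring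
    rwa [e] at this)
  have h3 := qfun_neg hj
  have hc : ContinuousOn (fun x => qfun r x + 2) (Set.Icc (8 * (j : ℝ) + 4) (8 * (j : ℝ) + 12)) :=
    ((qfun_continuous r).add continuous_const).continuousOn
  have hle : (8 * (j : ℝ) + 4) ≤ (8 * (j : ℝ) + 12) := by linarith
  rcases mul_neg_iff.1 h3 with ⟨h4, h5⟩ | ⟨h4, h5⟩
  · rw [abs_of_pos h4] at h1
    rw [abs_of_neg h5] at h2
    have : (0 : ℝ) ∈ Set.Ioo (qfun r (8 * (j : ℝ) + 12) + 2) (qfun r (8 * (j : ℝ) + 4) + 2) :=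
      ⟨by linarith, by linarith⟩
    obtain ⟨x, hx, hx2⟩ := intermediate_value_Ioo' hle hc this
    exact ⟨x, hx.1, hx.2, hx2⟩
  · rw [abs_of_neg h4] at h1
    rw [abs_of_pos h5] at h2
    have : (0 : ℝ) ∈ Set.Ioo (qfun r (8 * (j : ℝ) + 4) + 2) (qfun r (8 * (j : ℝ) + 12) + 2) :=
      ⟨by linarith, by linarith⟩
    obtain ⟨x, hx, hx2⟩ := intermediate_value_Ioo hle hc this
    exact ⟨x, hx.1, hx.2, hx2⟩

theorem root_gt {r : ℕ} (hr : 0 < r) {x : ℝ} (hx : qfun r x + 2 = 0) : 4 < x := by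
  by_contra hcon
  push Not at hcon
  have h1 := abs_qfun_ge hr (x := x) (fun i _ => by
    have : (0 : ℝ) ≤ i := Nat.cast_nonneg i
    rw [le_abs]; right; linarith)
  have h2 : qfun r x = -2 := by linarith
  rw [h2] at h1
  norm_num at h1

theorem mem_roots_iff {r : ℕ} (hr : 0 < r) (x : ℝ) : x ∈ (rpoly r).aroots ℝ ↔ qfun r x + 2 = 0 := by
  rw [mem_aroots, aeval_rpoly]
  exact ⟨fun h => h.2, fun h => ⟨(rpoly_monic hr).ne_zero, h⟩⟩

theorem finite_roots (r : ℕ) : Finite {x // x ∈ (rpoly r).aroots ℝ} := by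
  classical
  have : {x : ℝ | x ∈ (rpoly r).aroots ℝ}.Finite := by
    have h := ((rpoly r).aroots ℝ).toFinset.finite_toSet
    refine h.subset ?_
    intro x hx
    simpa using hx
  exact this.to_subtype

theorem card_roots_eq {r : ℕ} (hr : 0 < r) : Nat.card {x // x ∈ (rpoly r).aroots ℝ} = r := by
  classical
  haveI := finite_roots r
  apply le_antisymm
  · have h1 : Nat.card {x // x ∈ (rpoly r).aroots ℝ} ≤ ((rpoly r).aroots ℝ).toFinset.card := by
      rw [← Nat.card_eq_finsetCard ((rpoly r).aroots ℝ).toFinset]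
      apply Nat.card_le_card_of_injective
        (fun x : {x // x ∈ (rpoly r).aroots ℝ} => (⟨x.1, by simpa using x.2⟩ :
          ((rpoly r).aroots ℝ).toFinset))
      intro x y h
      have := congrArg Subtype.val h
      exact Subtype.ext this
    have h2 := Multiset.toFinset_card_le ((rpoly r).aroots ℝ)
    have h3 : Multiset.card ((rpoly r).aroots ℝ) ≤ r := by
      have := card_roots' ((rpoly r).map (algebraMap ℚ ℝ))
      rwa [(rpoly_monic hr).natDegree_map, rpoly_natDegree hr] at this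
    omega
  · choose f hf using fun j : Fin r => exists_root j.2
    have h1 : ∀ j, f j ∈ (rpoly r).aroots ℝ := fun j => (mem_roots_iff hr _).2 (hf j).2.2
    have h2 : Function.Injective (fun j : Fin r => (⟨f j, h1 j⟩ : {x // x ∈ (rpoly r).aroots ℝ})) := by
      intro j k hjk
      have h3 : f j = f k := congrArg Subtype.val hjk
      have hj := hf j
      have hk := hf k
      rw [h3] at hj
      have h4 : (8 : ℝ) * (j : ℕ) + 4 < 8 * (k : ℕ) + 12 := hj.1.trans hk.2.1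
      have h5 : (8 : ℝ) * (k : ℕ) + 4 < 8 * (j : ℕ) + 12 := hk.1.trans hj.2.1
      have h6 : ((j : ℕ) : ℝ) < ((k : ℕ) : ℝ) + 1 := by linarith
      have h7 : ((k : ℕ) : ℝ) < ((j : ℕ) : ℝ) + 1 := by linarith
      have h8 : (j : ℕ) < (k : ℕ) + 1 := by exact_mod_cast h6
      have h9 : (k : ℕ) < (j : ℕ) + 1 := by exact_mod_cast h7
      apply Fin.ext
      omega
    have := Nat.card_le_card_of_injective _ h2
    simpa using this

open IntermediateField in
theorem exists_field {r : ℕ} (hr : 0 < r) :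
    ∃ (F : Type) (_ : Field F) (_ : Algebra ℚ F) (_ : FiniteDimensional ℚ F) (l : Fˣ)
      (ι : F →+* ℝ), 1 < ι l ∧ Algebra.adjoin ℚ {(l : F)} = ⊤ ∧ (∀ σ : F →+* ℝ, 0 < σ l) ∧
      ENat.card (F →+* ℝ) = r := by
  obtain ⟨x, -, -, hx⟩ := exists_root hr
  have hx4 : 4 < x := root_gt hr hx
  have haev : aeval x (rpoly r) = 0 := by rw [aeval_rpoly]; exact hx
  have hmin : rpoly r = minpoly ℚ x :=
    minpoly.eq_of_irreducible_of_monic (rpoly_irreducible hr) haev (rpoly_monic hr)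
  have hint : IsIntegral ℚ x := ⟨rpoly r, rpoly_monic hr, haev⟩
  haveI : FiniteDimensional ℚ ℚ⟮x⟯ := adjoin.finiteDimensional hint
  have hgen0 : (AdjoinSimple.gen ℚ x) ≠ 0 := by
    intro h
    have := congrArg (algebraMap ℚ⟮x⟯ ℝ) h
    rw [AdjoinSimple.algebraMap_gen, map_zero] at this
    linarith
  have hroot : ∀ σ : ℚ⟮x⟯ →+* ℝ, 4 < σ (AdjoinSimple.gen ℚ x) := by
    intro σ
    apply root_gt hr
    let σ' : ℚ⟮x⟯ →ₐ[ℚ] ℝ := RingHom.equivRatAlgHom _ _ σ
    have h1 : aeval (AdjoinSimple.gen ℚ x) (rpoly r) = 0 := by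
      rw [hmin]
      exact aeval_gen_minpoly ℚ x
    have h2 : aeval (σ' (AdjoinSimple.gen ℚ x)) (rpoly r) = 0 := by
      rw [aeval_algHom_apply, h1, map_zero]
    rw [aeval_rpoly] at h2
    exact h2
  refine ⟨ℚ⟮x⟯, inferInstance, inferInstance, inferInstance, Units.mk0 _ hgen0,
    algebraMap ℚ⟮x⟯ ℝ, ?_, ?_, ?_, ?_⟩
  · rw [Units.val_mk0, AdjoinSimple.algebraMap_gen]; linarith
  · have := (adjoin.powerBasis hint).adjoin_gen_eq_top
    rw [adjoin.powerBasis_gen] at this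
    rw [Units.val_mk0]
    exact this
  · intro σ
    rw [Units.val_mk0]
    linarith [hroot σ]
  · have e1 := (RingHom.equivRatAlgHom ℚ⟮x⟯ ℝ).trans
      (IntermediateField.algHomAdjoinIntegralEquiv ℚ (K := ℝ) hint)
    rw [← hmin] at e1
    haveI := finite_roots r
    letI := Fintype.ofFinite {x // x ∈ (rpoly r).aroots ℝ}
    have h := card_roots_eq hr
    rw [Nat.card_eq_fintype_card] at h
    rw [ENat.card_congr e1, ENat.card_eq_coe_fintype_card, h]

end Pool.Agent.Helper56
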