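import Pool.Agent.Helper56.GG
import Pool.Agent.Helper56.Count
import Pool.Agent.Helper56.NF

set_option autoImplicit false
set_option linter.style.haveILetI false

namespace Pool.Agent.Helper56

theorem zpow_ne_one_of {F : Type} [Field F] {l : Fˣ} {ι : F →+* ℝ} (hl : 1 < ι l) :
    ∀ n : ℤ, n ≠ 0 → ((l ^ n : Fˣ) : F) ≠ 1 := by
  intro n hn h
  have h1 := congrArg ι h
  rw [BG.ι_zpow, map_one] at h1
  exact hn (zpow_right_injective₀ (by linarith) hl.ne' (by simpa using h1))

theorem main_count (k : ℕ) (hk : 0 < k) : ∃ (G : Type) (_ : Group G),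
    {P : Set G | IsCone P}.encard = ((2 * k : ℕ) : ℕ∞) := by
  rcases Nat.even_or_odd' k with ⟨r, rfl | rfl⟩
  · -- even case
    have hr : 0 < r := by omega
    obtain ⟨F, _, _, _, l, ι, h1, h2, h3, h4⟩ := exists_field hr
    refine ⟨BG F l, inferInstance, ?_⟩
    rw [encard_bgCones h2 h3 (zpow_ne_one_of h1), h4]
    push_cast; ring
  · rcases Nat.eq_zero_or_pos r with rfl | hr
    · refine ⟨Multiplicative ℤ, inferInstance, ?_⟩
      rw [encard_zCones]; rfl
    · obtain ⟨F, _, _, _, l, ι, h1, h2, h3, h4⟩ := exists_field hr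
      refine ⟨GG l ι h1, inferInstance, ?_⟩
      rw [encard_GG h1, encard_zCones, encard_bgCones h2 h3 (zpow_ne_one_of h1), h4]
      push_cast; ring

end Pool.Agent.Helper56
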