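import Pool.Agent.Helper56.Dicho

set_option autoImplicit false
set_option linter.unusedSectionVars false

namespace Pool.Agent.Helper56

/-- `u` is supported strictly below the support of `f`. -/
def SepX (X : Type*) [LinearOrder X] {G : Type*} [Group G] [MulAction G X] (u f : G) : Prop :=
  ∃ c c' : X, c < c' ∧ (∀ x, c ≤ x → u • x = x) ∧ (∀ x, x ≤ c' → f • x = x)

/-- A group acting richly on a linear order, with a germ cocycle at the top. -/
structure TopSide (G X Λ : Type*) [Group G] [LinearOrder X] [MulAction G X] [Group Λ]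
    (κ : G → X → Λ) : Prop where
  mono : ∀ (g : G) {x y : X}, x < y → g • x < g • y
  ext : ∀ g : G, (∀ x : X, g • x = x) → g = 1
  top : ∀ g : G, g ≠ 1 → ∃ t : X, (∀ x, t ≤ x → g • x = x) ∧
    ∀ s, s < t → ∃ y, s < y ∧ y < t ∧ g • y ≠ y
  cocycle : ∀ (g h : G) (x : X), κ (g * h) x = κ g (h • x) * κ h x
  germ : ∀ (g : G) (t : X), g • t = t →
    (κ g t = 1 ↔ ∃ s, s < t ∧ ∀ y, s ≤ y → y ≤ t → g • y = y)
  trans : ∀ t t' : X, ∃ w : G, w • t = t' ∧ κ w t = 1
  real : ∀ (t : X) (l : Λ), ∃ h : G, (∀ x, t ≤ x → h • x = x) ∧ κ h t = l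
  bot : ∀ c : X, ∃ w : G, (∀ x, x ≤ c → w • x = x) ∧
    (∀ x, c < x → ∃ y, c < y ∧ y < x ∧ w • y ≠ y)

section

variable {G X Λ : Type*} [Group G] [LinearOrder X] [MulAction G X] [Group Λ] {κ : G → X → Λ}

/-- `g` has germ `l ≠ 1` at the top of its support. -/
def TopGerm (X : Type*) [LinearOrder X] [MulAction G X] (κ : G → X → Λ) (g : G) (l : Λ) : Prop :=
  ∃ t : X, (∀ x, t ≤ x → g • x = x) ∧ κ g t = l ∧ l ≠ 1

namespace TopSide

variable (T : TopSide G X Λ κ)
include T

theorem le_smul (g : G) {x y : X} (h : x ≤ y) : g • x ≤ g • y := by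
  rcases h.eq_or_lt with rfl | h
  · exact le_rfl
  · exact (T.mono g h).le

theorem lt_iff (g : G) {x y : X} : g • x < g • y ↔ x < y := by
  constructor
  · intro h
    have := T.mono g⁻¹ h
    simpa using this
  · exact T.mono g

theorem le_iff (g : G) {x y : X} : g • x ≤ g • y ↔ x ≤ y := by
  constructor
  · intro h
    have := T.le_smul g⁻¹ h
    simpa using this
  · exact T.le_smul g

theorem κ_one (x : X) : κ 1 x = 1 := by
  have h := T.cocycle 1 1 x
  rw [one_mul, one_smul] at h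
  exact (mul_eq_left.1 h.symm)

theorem κ_inv (g : G) (x : X) : κ g⁻¹ (g • x) = (κ g x)⁻¹ := by
  have h := T.cocycle g⁻¹ g x
  rw [inv_mul_cancel, T.κ_one] at h
  exact eq_inv_of_mul_eq_one_left h.symm

theorem κ_inv_fix {g : G} {x : X} (h : g • x = x) : κ g⁻¹ x = (κ g x)⁻¹ := by
  have := T.κ_inv g x
  rwa [h] at this

theorem inv_fix {g : G} {x : X} (h : g • x = x) : g⁻¹ • x = x := by
  rw [inv_smul_eq_iff, h]

theorem κ_eq_one {g : G} {c t : X} (hct : c < t) (h : ∀ x, c ≤ x → g • x = x) : κ g t = 1 :=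
  (T.germ g t (h t hct.le)).2 ⟨c, hct, fun y hy _ => h y hy⟩

theorem topGerm_ne_one {g : G} {l : Λ} (h : TopGerm X κ g l) : g ≠ 1 := by
  rintro rfl
  obtain ⟨t, _, h2, h3⟩ := h
  rw [T.κ_one] at h2
  exact h3 h2.symm

theorem topGerm_unique {g : G} {l l' : Λ} (h : TopGerm X κ g l) (h' : TopGerm X κ g l') :
    l = l' := by
  obtain ⟨t, h1, h2, h3⟩ := h
  obtain ⟨t', h1', h2', h3'⟩ := h'
  rcases lt_trichotomy t t' with h | h | h
  · exact absurd (h2' ▸ T.κ_eq_one h h1) h3'
  · subst h; rw [← h2, ← h2']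
  · exact absurd (h2 ▸ T.κ_eq_one h h1') h3

theorem exists_topGerm {g : G} (hg : g ≠ 1) : ∃ l, TopGerm X κ g l := by
  obtain ⟨t, ht, ht2⟩ := T.top g hg
  refine ⟨κ g t, t, ht, rfl, ?_⟩
  intro h
  rw [T.germ g t (ht t le_rfl)] at h
  obtain ⟨s, hs, hs2⟩ := h
  obtain ⟨y, hy1, hy2, hy3⟩ := ht2 s hs
  exact hy3 (hs2 y hy1.le hy2.le)

theorem topGerm_inv {g : G} {l : Λ} (h : TopGerm X κ g l) : TopGerm X κ g⁻¹ l⁻¹ := by
  obtain ⟨t, h1, h2, h3⟩ := h
  refine ⟨t, fun x hx => T.inv_fix (h1 x hx), ?_, by simpa using h3⟩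
  rw [T.κ_inv_fix (h1 t le_rfl), h2]

/-- conjugation moves the top of the support -/
theorem conj_top {g : G} {t : X} (h1 : ∀ x, t ≤ x → g • x = x) (w : G) :
    (∀ x, w • t ≤ x → (w * g * w⁻¹) • x = x) ∧
      κ (w * g * w⁻¹) (w • t) = κ w t * κ g t * (κ w t)⁻¹ := by
  constructor
  · intro x hx
    have h2 : t ≤ w⁻¹ • x := by
      have := T.le_smul w⁻¹ hx
      simpa using this
    rw [mul_smul, mul_smul, h1 _ h2, smul_inv_smul]
  · rw [T.cocycle, T.cocycle, inv_smul_smul, T.κ_inv, h1 t le_rfl]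

theorem topGerm_conj {g : G} {l : Λ} (h : TopGerm X κ g l) (w : G) :
    ∃ m : Λ, TopGerm X κ (w * g * w⁻¹) (m * l * m⁻¹) := by
  obtain ⟨t, h1, h2, h3⟩ := h
  obtain ⟨h4, h5⟩ := T.conj_top h1 w
  refine ⟨κ w t, w • t, h4, ?_, ?_⟩
  · rw [h5, h2]
  · intro h
    apply h3
    have : l = (κ w t)⁻¹ * (κ w t * l * (κ w t)⁻¹) * κ w t := by group
    rw [this, h]; group

/-- conjugating to move the top to a prescribed point, with the same germ -/
theorem exists_conj_top {g : G} {l : Λ} {t : X} (h1 : ∀ x, t ≤ x → g • x = x) (h2 : κ g t = l)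
    (t' : X) : ∃ w : G, (∀ x, t' ≤ x → (w * g * w⁻¹) • x = x) ∧ κ (w * g * w⁻¹) t' = l := by
  obtain ⟨w, hw1, hw2⟩ := T.trans t t'
  obtain ⟨h4, h5⟩ := T.conj_top h1 w
  rw [hw1, hw2] at h5
  rw [hw1] at h4
  refine ⟨w, h4, ?_⟩
  rw [h5, h2]; simp

/-- For a cone of type U, multiplication by an element supported strictly below the top of `g`
does not change the sign of `g`. -/
theorem below_mem {P : Set G} (hP : IsCone P) (hU : UType (SepX X) P) {g u : G} {c t : X}
    (hg : g ∈ P) (h1 : ∀ x, t ≤ x → g • x = x) (h2 : κ g t ≠ 1)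
    (hct : c < t) (hu : ∀ x, c ≤ x → u • x = x) : u * g ∈ P := by
  -- a point `c'` close to `t`, not fixed by `g`
  have hgt : g⁻¹ • t = t := T.inv_fix (h1 t le_rfl)
  have hg1 : g ≠ 1 := hP.ne_one hg
  obtain ⟨t', ht', ht2⟩ := T.top g hg1
  have htt' : t' = t := by
    rcases lt_trichotomy t' t with h | h | h
    · exact absurd (T.κ_eq_one h ht') h2
    · exact h
    · obtain ⟨y, hy1, hy2, hy3⟩ := ht2 t h
      exact absurd (h1 y hy1.le) hy3
  subst htt'
  have hc2 : g⁻¹ • c < t' := by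
    have := T.mono g⁻¹ hct
    rwa [hgt] at this
  obtain ⟨c', hc'1, hc'2, hc'3⟩ := ht2 (max c (g⁻¹ • c)) (max_lt hct hc2)
  have hcc' : c < c' := lt_of_le_of_lt (le_max_left _ _) hc'1
  have hcc'' : c < g • c' := by
    have h3 : g⁻¹ • c < c' := lt_of_le_of_lt (le_max_right _ _) hc'1
    have := T.mono g h3
    simpa using this
  obtain ⟨w, hw1, hw2⟩ := T.bot c'
  -- `w` commutes with `u`
  have hwinv : ∀ x, x ≤ c' → w⁻¹ • x = x := fun x hx => T.inv_fix (hw1 x hx)
  have hcomm : w * u * w⁻¹ * u⁻¹ = 1 := by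
    apply T.ext
    intro x
    rw [mul_smul, mul_smul, mul_smul]
    by_cases hx : c ≤ x
    · rw [T.inv_fix (hu x hx)]
      have h3 : c ≤ w⁻¹ • x := by
        have := T.le_smul w⁻¹ hx
        rwa [hwinv c hcc'.le] at this
      rw [hu _ h3, smul_inv_smul]
    · push Not at hx
      have h3 : u⁻¹ • x < c := by
        have := T.mono u⁻¹ hx
        rwa [T.inv_fix (hu c le_rfl)] at this
      rw [hwinv _ (h3.le.trans hcc'.le), smul_inv_smul, hw1 _ (hx.le.trans hcc'.le)]
  have hwu : w * u = u * w := by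
    have : w * u = (w * u * w⁻¹ * u⁻¹) * (u * w) := by group
    rw [this, hcomm, one_mul]
  set f := w * g * w⁻¹ * g⁻¹ with hf
  -- `f` is supported above
  have hfsupp : ∀ x, x ≤ min c' (g • c') → f • x = x := by
    intro x hx
    have hx1 : x ≤ c' := hx.trans (min_le_left _ _)
    have hx2 : g⁻¹ • x ≤ c' := by
      have := T.le_smul g⁻¹ (hx.trans (min_le_right _ _))
      simpa using this
    rw [hf, mul_smul, mul_smul, mul_smul, hwinv _ hx2, smul_inv_smul, hw1 _ hx1]
  have hsep : SepX X u f := ⟨c, min c' (g • c'), lt_min hcc' hcc'', hu, hfsupp⟩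
  have hsep' : SepX X u f⁻¹ :=
    ⟨c, min c' (g • c'), lt_min hcc' hcc'', hu, fun x hx => T.inv_fix (hfsupp x hx)⟩
  -- `f ≠ 1`
  have hf1 : f ≠ 1 := by
    intro h
    have hwg : w * g = g * w := by
      have : w * g = (w * g * w⁻¹ * g⁻¹) * (g * w) := by group
      rw [this, ← hf, h, one_mul]
    apply hc'3
    rcases lt_trichotomy (g • c') c' with h3 | h3 | h3
    · exfalso
      have h4 : c' < g⁻¹ • c' := by
        have := T.mono g⁻¹ h3
        simpa using this
      obtain ⟨y, hy1, hy2, hy3⟩ := hw2 _ h4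
      have h5 : g • y < c' := by
        have := T.mono g hy2
        simpa using this
      have h6 : g • (w • y) = g • y := by
        rw [← mul_smul, ← hwg, mul_smul, hw1 _ h5.le]
      exact hy3 (smul_left_cancel g h6)
    · exact h3
    · exfalso
      obtain ⟨y, hy1, hy2, hy3⟩ := hw2 _ h3
      have h5 : g⁻¹ • y < c' := by
        have := T.mono g⁻¹ hy2
        simpa using this
      have h6 : w • y = y := by
        have h7 : y = g • (g⁻¹ • y) := by simp
        conv_lhs => rw [h7]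
        rw [← mul_smul, hwg, mul_smul, hw1 _ h5.le, smul_inv_smul]
      exact hy3 h6
  -- conclusion
  by_contra hcon
  have hv : g⁻¹ * u⁻¹ ∈ P ∨ g⁻¹ * u⁻¹ = 1 := by
    by_cases h3 : u * g = 1
    · right; rw [← mul_inv_rev, h3, inv_one]
    · left; rw [← mul_inv_rev]; exact hP.inv_of_not h3 hcon
  rcases hP.total f hf1 with h3 | h3
  · have h4 : u * f ∈ P := by simpa using hU u f hsep h3 1
    have h5 : f⁻¹ * u⁻¹ ∈ P := by
      have e : f⁻¹ * u⁻¹ = g * (w * (g⁻¹ * u⁻¹) * w⁻¹) := by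
        have e1 : w⁻¹ * u⁻¹ = u⁻¹ * w⁻¹ := by
          rw [← mul_inv_rev, ← mul_inv_rev, hwu]
        rw [hf]
        calc (w * g * w⁻¹ * g⁻¹)⁻¹ * u⁻¹ = g * w * g⁻¹ * (w⁻¹ * u⁻¹) := by group
          _ = g * w * g⁻¹ * (u⁻¹ * w⁻¹) := by rw [e1]
          _ = g * (w * (g⁻¹ * u⁻¹) * w⁻¹) := by group
      rw [e]
      rcases hv with hv | hv
      · exact hP.mul _ _ hg (hP.conj _ w hv)
      · rw [hv]; simpa using hg
    rw [← mul_inv_rev] at h5
    exact hP.not_inv h4 h5
  · have h4 : u * f⁻¹ ∈ P := by simpa using hU u f⁻¹ hsep' h3 1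
    have h5 : f * u⁻¹ ∈ P := by
      have e : f * u⁻¹ = (w * g * w⁻¹) * (g⁻¹ * u⁻¹) := by rw [hf]; group
      rw [e]
      rcases hv with hv | hv
      · exact hP.mul _ _ (hP.conj _ w hg) hv
      · rw [hv]; simpa using hP.conj _ w hg
    have h6 : (u * f⁻¹)⁻¹ ∈ P := by
      rw [mul_inv_rev, inv_inv]; exact h5
    exact hP.not_inv h4 h6

/-- For a cone of type U the sign depends only on the top germ. -/
theorem mem_of_germ {P : Set G} (hP : IsCone P) (hU : UType (SepX X) P) {g g' : G} {l : Λ}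
    (hg : g ∈ P) (h1 : TopGerm X κ g l) (h2 : TopGerm X κ g' l) : g' ∈ P := by
  obtain ⟨t, h3, h4, h5⟩ := h1
  obtain ⟨t', h3', h4', -⟩ := h2
  obtain ⟨w, hw1, hw2⟩ := T.exists_conj_top h3 h4 t'
  set g₁ := w * g * w⁻¹ with hg₁
  have hg₁P : g₁ ∈ P := hP.conj _ w hg
  set u := g' * g₁⁻¹ with hu
  have hu1 : ∀ x, t' ≤ x → u • x = x := by
    intro x hx
    rw [hu, mul_smul, T.inv_fix (hw1 x hx), h3' x hx]
  have hu2 : κ u t' = 1 := by
    rw [hu, T.cocycle, T.inv_fix (hw1 t' le_rfl), T.κ_inv_fix (hw1 t' le_rfl), hw2, h4',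
      mul_inv_cancel]
  rw [T.germ u t' (hu1 t' le_rfl)] at hu2
  obtain ⟨s, hs1, hs2⟩ := hu2
  have hu3 : ∀ x, s ≤ x → u • x = x := by
    intro x hx
    rcases le_total x t' with h | h
    · exact hs2 x hx h
    · exact hu1 x h
  have := T.below_mem hP hU hg₁P hw1 (by rw [hw2]; exact h5) hs1 hu3
  simpa [hu] using this

/-- The cone of `G` attached to a cone of `Λ`. -/
def liftCone (X : Type*) [LinearOrder X] [MulAction G X] (κ : G → X → Λ) (Q : Set Λ) : Set G :=
  {g | ∃ l ∈ Q, TopGerm X κ g l}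

theorem lift_injOn [Nonempty X] : Set.InjOn (liftCone X κ) {Q : Set Λ | IsCone Q} := by
  have key : ∀ Q Q' : Set Λ, IsCone Q → liftCone X κ Q = liftCone X κ Q' → Q ⊆ Q' := by
    intro Q Q' hQ h l hl
    obtain ⟨t⟩ := ‹Nonempty X›
    obtain ⟨k, hk1, hk2⟩ := T.real t l
    have h1 : TopGerm X κ k l := ⟨t, hk1, hk2, hQ.ne_one hl⟩
    have h2 : k ∈ liftCone X κ Q := ⟨l, hl, h1⟩
    rw [h] at h2
    obtain ⟨l', hl', h3⟩ := h2
    rw [T.topGerm_unique h1 h3]; exact hl'
  intro Q hQ Q' hQ' h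
  exact Set.Subset.antisymm (key Q Q' hQ h) (key Q' Q hQ' h.symm)

theorem lift_isCone {Q : Set Λ} (hQ : IsCone Q) : IsCone (liftCone X κ Q) where
  one := by
    rintro ⟨l, _, h⟩
    exact T.topGerm_ne_one h rfl
  mul := by
    rintro g h ⟨l, hl, t, h1, h2, h3⟩ ⟨m, hm, t', h1', h2', h3'⟩
    rcases lt_trichotomy t t' with htt | htt | htt
    · refine ⟨m, hm, t', ?_, ?_, h3'⟩
      · intro x hx
        rw [mul_smul, h1' x hx, h1 x (htt.le.trans hx)]
      · rw [T.cocycle, h1' t' le_rfl, T.κ_eq_one htt h1, h2', one_mul]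
    · subst htt
      refine ⟨l * m, hQ.mul _ _ hl hm, t, ?_, ?_, hQ.ne_one (hQ.mul _ _ hl hm)⟩
      · intro x hx
        rw [mul_smul, h1' x hx, h1 x hx]
      · rw [T.cocycle, h1' t le_rfl, h2, h2']
    · refine ⟨l, hl, t, ?_, ?_, h3⟩
      · intro x hx
        rw [mul_smul, h1' x (htt.le.trans hx), h1 x hx]
      · rw [T.cocycle, h1' t htt.le, T.κ_eq_one htt h1', h2, mul_one]
  total := by
    intro g hg
    obtain ⟨l, hl⟩ := T.exists_topGerm hg
    rcases hQ.total l hl.choose_spec.2.2 with h | h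
    · exact Or.inl ⟨l, h, hl⟩
    · exact Or.inr ⟨l⁻¹, h, T.topGerm_inv hl⟩
  conj := by
    rintro g w ⟨l, hl, h⟩
    obtain ⟨m, hm⟩ := T.topGerm_conj h w
    exact ⟨_, hQ.conj l m hl, hm⟩

theorem lift_uType {Q : Set Λ} : UType (SepX X) (liftCone X κ Q) := by
  rintro u f ⟨c, c', hcc', hu, hf⟩ ⟨l, hl, t, h1, h2, h3⟩ n
  have hct : c' < t := by
    by_contra hcon
    push Not at hcon
    have hf1 : f = 1 := T.ext f (fun x => by
      rcases le_total x c' with h | h
      · exact hf x h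
      · exact h1 x (hcon.trans h))
    exact T.topGerm_ne_one ⟨t, h1, h2, h3⟩ hf1
  have hun : ∀ x, c ≤ x → (u ^ n) • x = x := by
    intro x hx
    have h4 : u ∈ MulAction.stabilizer G x := hu x hx
    exact (MulAction.stabilizer G x).zpow_mem h4 n
  refine ⟨l, hl, t, ?_, ?_, h3⟩
  · intro x hx
    rw [mul_smul, h1 x hx, hun x ((hcc'.trans hct).le.trans hx)]
  · rw [T.cocycle, h1 t le_rfl, T.κ_eq_one (hcc'.trans hct) hun, h2, one_mul]

theorem exists_lift [Nonempty X] {P : Set G} (hP : IsCone P) (hU : UType (SepX X) P) :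
    ∃ Q : Set Λ, IsCone Q ∧ liftCone X κ Q = P := by
  refine ⟨{l | ∃ g ∈ P, TopGerm X κ g l}, ⟨?_, ?_, ?_, ?_⟩, ?_⟩
  · rintro ⟨g, _, t, _, _, h⟩; exact h rfl
  · rintro l m ⟨g, hg, t, h1, h2, h3⟩ ⟨h, hh, t', h1', h2', h3'⟩
    obtain ⟨w, hw1, hw2⟩ := T.exists_conj_top h1 h2 t'
    by_cases hlm : l * m = 1
    · exfalso
      have h4 := T.topGerm_inv (g := h) ⟨t', h1', h2', h3'⟩
      have h5 : m⁻¹ = l := (eq_inv_of_mul_eq_one_left hlm).symm
      rw [h5] at h4
      exact hP.not_inv hh (T.mem_of_germ hP hU hg ⟨t, h1, h2, h3⟩ h4)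
    · refine ⟨(w * g * w⁻¹) * h, hP.mul _ _ (hP.conj _ w hg) hh, t', ?_, ?_, hlm⟩
      · intro x hx
        rw [mul_smul, h1' x hx, hw1 x hx]
      · rw [T.cocycle, h1' t' le_rfl, hw2, h2']
  · intro l hl
    obtain ⟨t⟩ := ‹Nonempty X›
    obtain ⟨k, hk1, hk2⟩ := T.real t l
    have hk : TopGerm X κ k l := ⟨t, hk1, hk2, hl⟩
    rcases hP.total k (T.topGerm_ne_one hk) with h | h
    · exact Or.inl ⟨k, h, hk⟩
    · exact Or.inr ⟨k⁻¹, h, T.topGerm_inv hk⟩
  · rintro l m ⟨g, hg, t, h1, h2, h3⟩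
    obtain ⟨k, hk1, hk2⟩ := T.real t m
    obtain ⟨h4, h5⟩ := T.conj_top h1 k
    rw [hk1 t le_rfl] at h4 h5
    rw [hk2, h2] at h5
    refine ⟨_, hP.conj g k hg, t, h4, h5, ?_⟩
    intro h6
    apply h3
    have : l = m⁻¹ * (m * l * m⁻¹) * m := by group
    rw [this, h6]; group
  · ext g
    constructor
    · rintro ⟨l, ⟨g', hg', h1⟩, h2⟩
      exact T.mem_of_germ hP hU hg' h1 h2
    · intro hg
      obtain ⟨l, hl⟩ := T.exists_topGerm (hP.ne_one hg)
      exact ⟨l, ⟨g, hg, hl⟩, hl⟩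

theorem cones_eq_image [Nonempty X] :
    {P : Set G | IsCone P ∧ UType (SepX X) P} = liftCone X κ '' {Q : Set Λ | IsCone Q} := by
  ext P
  constructor
  · rintro ⟨hP, hU⟩
    obtain ⟨Q, hQ, h⟩ := T.exists_lift hP hU
    exact ⟨Q, hQ, h⟩
  · rintro ⟨Q, hQ, rfl⟩
    exact ⟨T.lift_isCone hQ, T.lift_uType⟩

theorem encard_uType [Nonempty X] :
    {P : Set G | IsCone P ∧ UType (SepX X) P}.encard = {Q : Set Λ | IsCone Q}.encard := by
  rw [T.cones_eq_image]
  exact T.lift_injOn.encard_image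

end TopSide

end

/-- A faithful order preserving action. -/
structure Faith (G X : Type*) [Group G] [LinearOrder X] [MulAction G X] : Prop where
  mono : ∀ (g : G) {x y : X}, x < y → g • x < g • y
  ext : ∀ g : G, (∀ x : X, g • x = x) → g = 1

namespace Faith

variable {G X : Type*} [Group G] [LinearOrder X] [MulAction G X] (R : Faith G X)
include R

theorem le_smul (g : G) {x y : X} (h : x ≤ y) : g • x ≤ g • y := by
  rcases h.eq_or_lt with rfl | h
  · exact le_rfl
  · exact (R.mono g h).le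

theorem inv_fix {g : G} {x : X} (h : g • x = x) : g⁻¹ • x = x := by
  rw [inv_smul_eq_iff, h]

theorem comm_of {u v : G} {A B : X} (hAB : A ≤ B) (h1 : ∀ x, x ≤ A → u • x = x)
    (h2 : ∀ x, B ≤ x → u • x = x) (h3 : ∀ x, A ≤ x → x ≤ B → v • x = x) : v * u = u * v := by
  have key : (u * v)⁻¹ * (v * u) = 1 := by
    apply R.ext
    intro x
    rw [mul_smul, inv_smul_eq_iff, mul_smul, mul_smul]
    rcases le_total x A with hx | hx
    · rw [h1 x hx]
      have : v • x ≤ A := by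
        have := R.le_smul v hx
        rwa [h3 A le_rfl hAB] at this
      rw [h1 _ this]
    rcases le_total x B with hx2 | hx2
    · rw [h3 x hx hx2, h3 _]
      · have := R.le_smul u hx
        rwa [h1 A le_rfl] at this
      · have := R.le_smul u hx2
        rwa [h2 B le_rfl] at this
    · rw [h2 x hx2]
      have : B ≤ v • x := by
        have := R.le_smul v hx2
        rwa [h3 B hAB le_rfl] at this
      rw [h2 _ this]
  rw [inv_mul_eq_one] at key
  exact key.symm

theorem conj_eq_of_agree {u w g : G} {A B : X} (hAB : A ≤ B) (h1 : ∀ x, x ≤ A → u • x = x)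
    (h2 : ∀ x, B ≤ x → u • x = x) (h3 : ∀ x, A ≤ x → x ≤ B → w • x = g • x) :
    w * u * w⁻¹ = g * u * g⁻¹ := by
  have h4 := R.comm_of (v := g⁻¹ * w) hAB h1 h2 (by
    intro x hx1 hx2
    rw [mul_smul, h3 x hx1 hx2, inv_smul_smul])
  calc w * u * w⁻¹ = g * (g⁻¹ * w * u) * w⁻¹ := by group
    _ = g * (u * (g⁻¹ * w)) * w⁻¹ := by rw [h4]
    _ = g * u * g⁻¹ := by group

/-- elements with separated supports commute -/
theorem sep_comm {u f : G} {c : X} (hu : ∀ x, c ≤ x → u • x = x) (hf : ∀ x, x ≤ c → f • x = x) :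
    u * f = f * u := by
  have key : (f * u)⁻¹ * (u * f) = 1 := by
    apply R.ext
    intro x
    rw [mul_smul, inv_smul_eq_iff, mul_smul, mul_smul]
    rcases le_total x c with hx | hx
    · rw [hf x hx, hf]
      have := R.le_smul u hx
      rwa [hu c le_rfl] at this
    · rw [hu x hx]
      rw [hu]
      have := R.le_smul f hx
      rwa [hf c le_rfl] at this
  rw [inv_mul_eq_one] at key
  exact key.symm

theorem dual : Faith G Xᵒᵈ where
  mono := fun g _ _ h => R.mono g h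
  ext := fun g h => R.ext g h

end Faith

/-- sup of the support -/
theorem exists_top {G X : Type*} [Group G] [ConditionallyCompleteLinearOrder X] [MulAction G X]
    (R : Faith G X) {g : G} (hg : g ≠ 1) (hb : ∃ b : X, ∀ x, b ≤ x → g • x = x) :
    ∃ t : X, (∀ x, t ≤ x → g • x = x) ∧ ∀ s, s < t → ∃ y, s < y ∧ y < t ∧ g • y ≠ y := by
  obtain ⟨b, hb⟩ := hb
  set A : Set X := {x | g • x ≠ x} with hA
  have hne : A.Nonempty := by
    by_contra hcon
    rw [Set.not_nonempty_iff_eq_empty] at hcon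
    apply hg
    apply R.ext
    intro x
    by_contra hx
    have : x ∈ A := hx
    rw [hcon] at this
    exact this
  have hbdd : BddAbove A := by
    refine ⟨b, ?_⟩
    intro x hx
    by_contra hcon
    push Not at hcon
    exact hx (hb x hcon.le)
  have h1 : ∀ x, sSup A < x → g • x = x := by
    intro x hx
    by_contra hcon
    exact absurd (le_csSup hbdd hcon) (not_le.2 hx)
  have h2 : g • sSup A = sSup A := by
    rcases lt_trichotomy (g • sSup A) (sSup A) with h | h | h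
    · have h3 : sSup A < g⁻¹ • sSup A := by
        have := R.mono g⁻¹ h
        simpa using this
      have h4 := h1 _ h3
      rw [smul_inv_smul] at h4
      exact absurd h4 h3.ne
    · exact h
    · have h4 := h1 _ h
      exact smul_left_cancel g h4
  refine ⟨sSup A, ?_, ?_⟩
  · intro x hx
    rcases hx.eq_or_lt with rfl | hx
    · exact h2
    · exact h1 x hx
  · intro s hs
    obtain ⟨y, hy, hsy⟩ := exists_lt_of_lt_csSup hne hs
    refine ⟨y, hsy, lt_of_le_of_ne (le_csSup hbdd hy) ?_, hy⟩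
    rintro rfl
    exact hy h2

/-- Richness of an action, giving the separation axioms. -/
structure Rich (G X : Type*) [Group G] [LinearOrder X] [MulAction G X] : Prop
    extends Faith G X where
  lower : ∀ g : G, ∃ a : X, ∀ x, x ≤ a → g • x = x
  upper : ∀ g : G, ∃ a : X, ∀ x, a ≤ x → g • x = x
  push : ∀ A B : X, ∃ g : G, B < g • A
  pull : ∀ A B : X, ∃ g : G, g • B < A
  sim : ∀ (g h : G) (m₁ m₂ A B : X), m₁ < m₂ → g • m₁ < h • m₂ →
    ∃ w : G, (∀ x, A ≤ x → x ≤ m₁ → w • x = g • x) ∧ (∀ x, m₂ ≤ x → x ≤ B → w • x = h • x)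

namespace Rich

variable {G X : Type*} [Group G] [LinearOrder X] [MulAction G X] (R : Rich G X)
include R

theorem sepAx : SepAx (SepX X (G := G)) where
  comm := by
    rintro u f ⟨c, c', hcc', hu, hf⟩
    exact R.sep_comm hu (fun x hx => hf x (hx.trans hcc'.le))
  sim := by
    rintro u f g h ⟨c, c', hcc', hu, hf⟩ ⟨d, d', hdd', hu', hf'⟩
    obtain ⟨a, ha⟩ := R.lower u
    obtain ⟨b, hb⟩ := R.upper f
    have hu2 : ∀ x, g⁻¹ • d ≤ x → u • x = x := by
      intro x hx
      have h1 : d ≤ g • x := by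
        have := R.le_smul g hx
        simpa using this
      have h2 := hu' _ h1
      rw [mul_smul, mul_smul, inv_smul_smul] at h2
      exact smul_left_cancel g h2
    have hf2 : ∀ x, x ≤ h⁻¹ • d' → f • x = x := by
      intro x hx
      have h1 : h • x ≤ d' := by
        have := R.le_smul h hx
        simpa using this
      have h2 := hf' _ h1
      rw [mul_smul, mul_smul, inv_smul_smul] at h2
      exact smul_left_cancel h h2
    have hm : min c (g⁻¹ • d) < max c' (h⁻¹ • d') :=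
      lt_of_le_of_lt (min_le_left _ _) (lt_of_lt_of_le hcc' (le_max_left _ _))
    have hm2 : g • min c (g⁻¹ • d) < h • max c' (h⁻¹ • d') := by
      have h1 : g • min c (g⁻¹ • d) ≤ d := by
        have := R.le_smul g (min_le_right c (g⁻¹ • d))
        simpa using this
      have h2 : d' ≤ h • max c' (h⁻¹ • d') := by
        have := R.le_smul h (le_max_right c' (h⁻¹ • d'))
        simpa using this
      exact lt_of_le_of_lt h1 (lt_of_lt_of_le hdd' h2)
    obtain ⟨w, hw1, hw2⟩ := R.sim g h _ _ (min a (min c (g⁻¹ • d))) (max b (max c' (h⁻¹ • d')))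
      hm hm2
    refine ⟨w, ?_, ?_⟩
    · apply R.conj_eq_of_agree (A := min a (min c (g⁻¹ • d))) (B := min c (g⁻¹ • d))
        (min_le_right _ _)
      · intro x hx; exact ha x (hx.trans (min_le_left _ _))
      · intro x hx
        rcases min_le_iff.1 hx with h1 | h1
        · exact hu x h1
        · exact hu2 x h1
      · exact hw1
    · apply R.conj_eq_of_agree (A := max c' (h⁻¹ • d')) (B := max b (max c' (h⁻¹ • d')))
        (le_max_right _ _)
      · intro x hx
        rcases le_max_iff.1 hx with h1 | h1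
        · exact hf x h1
        · exact hf2 x h1
      · intro x hx; exact hb x ((le_max_left _ _).trans hx)
      · exact hw2
  room := by
    intro u a b
    obtain ⟨p, hp⟩ := R.upper u
    obtain ⟨q, hq⟩ := R.lower a
    obtain ⟨q', hq'⟩ := R.lower b
    obtain ⟨g, hg⟩ := R.pull (min q q') p
    have h1 : ∀ x, g • p ≤ x → (g * u * g⁻¹) • x = x := by
      intro x hx
      have h2 : p ≤ g⁻¹ • x := by
        have := R.le_smul g⁻¹ hx
        simpa using this
      rw [mul_smul, mul_smul, hp _ h2, smul_inv_smul]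
    exact ⟨g, ⟨g • p, q, hg.trans_le (min_le_left _ _), h1, hq⟩,
      ⟨g • p, q', hg.trans_le (min_le_right _ _), h1, hq'⟩⟩
  room' := by
    intro u a b
    obtain ⟨p, hp⟩ := R.lower u
    obtain ⟨q, hq⟩ := R.upper a
    obtain ⟨q', hq'⟩ := R.upper b
    obtain ⟨g, hg⟩ := R.push p (max q q')
    have h1 : ∀ x, x ≤ g • p → (g * u * g⁻¹) • x = x := by
      intro x hx
      have h2 : g⁻¹ • x ≤ p := by
        have := R.le_smul g⁻¹ hx
        simpa using this
      rw [mul_smul, mul_smul, hp _ h2, smul_inv_smul]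
    exact ⟨g, ⟨q, g • p, lt_of_le_of_lt (le_max_left _ _) hg, hq, h1⟩,
      ⟨q', g • p, lt_of_le_of_lt (le_max_right _ _) hg, hq', h1⟩⟩
  irr := by
    rintro u ⟨c, c', hcc', h1, h2⟩
    apply R.ext
    intro x
    rcases le_total c x with h | h
    · exact h1 x h
    · exact h2 x (h.trans hcc'.le)
  trans := by
    rintro x z y ⟨c, c', hcc', h1, h2⟩ ⟨d, d', hdd', h3, h4⟩ hz
    have : c' < d := by
      by_contra hcon
      push Not at hcon
      apply hz
      apply R.ext
      intro p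
      rcases le_total p c' with h | h
      · exact h2 p h
      · exact h3 p (hcon.trans h)
    exact ⟨c, d', (hcc'.trans this).trans hdd', h1, h4⟩

theorem sep_inv (u f : G) (h : SepX X u f) : SepX X u⁻¹ f := by
  obtain ⟨c, c', hcc', h1, h2⟩ := h
  exact ⟨c, c', hcc', fun x hx => R.inv_fix (h1 x hx), h2⟩

theorem sep_inv' (u f : G) (h : SepX X u f) : SepX X u f⁻¹ := by
  obtain ⟨c, c', hcc', h1, h2⟩ := h
  exact ⟨c, c', hcc', h1, fun x hx => R.inv_fix (h2 x hx)⟩

end Rich

theorem sepX_dual {G X : Type*} [Group G] [LinearOrder X] [MulAction G X] (u f : G) :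
    SepX Xᵒᵈ u f ↔ SepX X f u := by
  constructor
  · rintro ⟨c, c', hcc', h1, h2⟩
    refine ⟨OrderDual.ofDual c', OrderDual.ofDual c, hcc', ?_, ?_⟩
    · intro x hx
      exact h2 (OrderDual.toDual x) hx
    · intro x hx
      exact h1 (OrderDual.toDual x) hx
  · rintro ⟨c, c', hcc', h1, h2⟩
    refine ⟨OrderDual.toDual c', OrderDual.toDual c, hcc', ?_, ?_⟩
    · intro x hx
      exact h2 (OrderDual.ofDual x) hx
    · intro x hx
      exact h1 (OrderDual.ofDual x) hx

/-- Counting theorem: cones of `G` are cones of the top germ group plus cones of the bottom germ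
group. -/
theorem encard_cones {G X Λ Λ' : Type*} [Group G] [LinearOrder X] [Nonempty X] [MulAction G X]
    [Group Λ] [Group Λ'] {κ : G → X → Λ} {κ' : G → Xᵒᵈ → Λ'}
    (R : Rich G X) (T : TopSide G X Λ κ) (T' : TopSide G Xᵒᵈ Λ' κ')
    (hs : ∀ u : G, u ≠ 1 → Subgroup.normalClosure {u} = ⊤) (hne : ∃ u : G, u ≠ 1) :
    {P : Set G | IsCone P}.encard
      = {Q : Set Λ | IsCone Q}.encard + {Q : Set Λ' | IsCone Q}.encard := by
  rw [← T.encard_uType, ← T'.encard_uType]
  have hdual : (SepX Xᵒᵈ : G → G → Prop) = fun u f => SepX X f u := by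
    funext u f; exact propext (sepX_dual u f)
  rw [hdual, ← Set.encard_union_eq]
  · congr 1
    ext P
    constructor
    · intro hP
      rcases dichotomy R.sepAx R.sep_inv R.sep_inv' hs hP with h | h
      · exact Or.inl ⟨hP, h⟩
      · exact Or.inr ⟨hP, h⟩
    · rintro (h | h)
      · exact h.1
      · exact h.1
  · rw [Set.disjoint_left]
    rintro P ⟨hP, hU⟩ ⟨-, hL⟩
    obtain ⟨u, hu⟩ := hne
    obtain ⟨g, hg, -⟩ := R.sepAx.room u u u
    -- choose positive representatives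
    obtain ⟨f, hf, hsep⟩ : ∃ f, f ∈ P ∧ SepX X (g * u * g⁻¹) f := by
      rcases hP.total u hu with h | h
      · exact ⟨u, h, hg⟩
      · exact ⟨u⁻¹, h, R.sep_inv' _ _ hg⟩
    have hgu : g * u * g⁻¹ ≠ 1 := by
      intro h
      apply hu
      have : u = g⁻¹ * (g * u * g⁻¹) * g := by group
      rw [this, h]; group
    obtain ⟨v, hv, hsep2⟩ : ∃ v, v ∈ P ∧ SepX X v f := by
      rcases hP.total _ hgu with h | h
      · exact ⟨_, h, hsep⟩
      · exact ⟨_, h, R.sep_inv _ _ hsep⟩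
    have h1 : v⁻¹ * f ∈ P := by simpa using hU v f hsep2 hf (-1)
    have h2 : f⁻¹ * v ∈ P := by simpa using hL f v hsep2 hv (-1)
    have := hP.not_inv h1
    rw [mul_inv_rev, inv_inv] at this
    exact this h2

end Pool.Agent.Helper56
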