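import Pool.Agent.Helper56.Beta
import Pool.Agent.Helper56.Side

set_option autoImplicit false

open scoped commutatorElement

namespace Pool.Agent.Helper56

section

variable {F : Type} [Field F] {l : Fˣ} {ι : F →+* ℝ}

/-- Make an element trivial near `+∞` without changing it on `(-∞, b]`. -/
theorem cutAbove (hl : 1 < ι l) {f : ℝ ≃o ℝ} (hf : InP l ι f) (b : ℝ) :
    ∃ g, InP l ι g ∧ (∀ x, x ≤ b → g x = f x) ∧ ∃ b', ∀ x, b' ≤ x → g x = x := by
  have h1 : b < max b (f b) + 1 := by linarith [le_max_left b (f b)]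
  have h2 : f b < max b (f b) + 1 := by linarith [le_max_right b (f b)]
  obtain ⟨i, hi, hi1, hi2⟩ := exists_interp (l := l) hl h1 h2
  have e1 : f b = i b := hi1.symm
  have e2 : glue f i b e1 (max b (f b) + 1) = (1 : ℝ ≃o ℝ) (max b (f b) + 1) := by
    rw [glue_ge h1.le, hi2, one_app]
  refine ⟨glue (glue f i b e1) 1 (max b (f b) + 1) e2, (hf.glue hi e1).glue one_inP e2, ?_,
    max b (f b) + 1, ?_⟩
  · intro x hx
    rw [glue_le (hx.trans h1.le), glue_le hx]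
  · intro x hx
    rw [glue_ge hx, one_app]

/-- Make an element trivial near `-∞` without changing it on `[a, ∞)`. -/
theorem cutBelow (hl : 1 < ι l) {f : ℝ ≃o ℝ} (hf : InP l ι f) (a : ℝ) :
    ∃ g, InP l ι g ∧ (∀ x, a ≤ x → g x = f x) ∧ ∃ a', ∀ x, x ≤ a' → g x = x := by
  have h1 : min a (f a) - 1 < a := by linarith [min_le_left a (f a)]
  have h2 : min a (f a) - 1 < f a := by linarith [min_le_right a (f a)]
  obtain ⟨i, hi, hi1, hi2⟩ := exists_interp (l := l) hl h1 h2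
  have e1 : i a = f a := hi2
  have e2 : (1 : ℝ ≃o ℝ) (min a (f a) - 1) = glue i f a e1 (min a (f a) - 1) := by
    rw [glue_le h1.le, hi1, one_app]
  refine ⟨glue 1 (glue i f a e1) (min a (f a) - 1) e2, one_inP.glue (hi.glue hf e1) e2, ?_,
    min a (f a) - 1, ?_⟩
  · intro x hx
    rw [glue_ge (h1.le.trans hx), glue_ge hx]
  · intro x hx
    rw [glue_le hx, one_app]

theorem fix_inv {f : ℝ ≃o ℝ} {x : ℝ} (h : f x = x) : f⁻¹ x = x := by
  conv_lhs => rw [← h]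
  exact inv_app_self f x

/-- The subgroup of elements of bounded support. -/
def SS (l : Fˣ) (ι : F →+* ℝ) (hl : 1 < ι l) : Subgroup (ℝ ≃o ℝ) where
  carrier := {f | InP l ι f ∧ (∃ a, ∀ x, x ≤ a → f x = x) ∧ (∃ b, ∀ x, b ≤ x → f x = x)}
  mul_mem' := by
    rintro f g ⟨hf, ⟨a, ha⟩, ⟨b, hb⟩⟩ ⟨hg, ⟨a', ha'⟩, ⟨b', hb'⟩⟩
    refine ⟨(PP l ι hl).mul_mem hf hg, ⟨min a a', ?_⟩, ⟨max b b', ?_⟩⟩
    · intro x hx
      rw [mul_app, ha' x (hx.trans (min_le_right _ _)), ha x (hx.trans (min_le_left _ _))]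
    · intro x hx
      rw [mul_app, hb' x ((le_max_right _ _).trans hx), hb x ((le_max_left _ _).trans hx)]
  one_mem' := ⟨one_inP, ⟨0, fun _ _ => rfl⟩, ⟨0, fun _ _ => rfl⟩⟩
  inv_mem' := by
    rintro f ⟨hf, ⟨a, ha⟩, ⟨b, hb⟩⟩
    exact ⟨(PP l ι hl).inv_mem hf, ⟨a, fun x hx => fix_inv (ha x hx)⟩,
      ⟨b, fun x hx => fix_inv (hb x hx)⟩⟩

/-- The group `G`: the commutator subgroup of the group of elements of bounded support. -/
def GG (l : Fˣ) (ι : F →+* ℝ) (hl : 1 < ι l) : Subgroup (ℝ ≃o ℝ) := ⁅SS l ι hl, SS l ι hl⁆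

variable (hl : 1 < ι l)

theorem GG_le_SS : GG l ι hl ≤ SS l ι hl := by
  rw [GG, Subgroup.commutator_le]
  intro g hg h hh
  exact (SS l ι hl).mul_mem ((SS l ι hl).mul_mem ((SS l ι hl).mul_mem hg hh)
    ((SS l ι hl).inv_mem hg)) ((SS l ι hl).inv_mem hh)

theorem faith : Faith (ℝ ≃o ℝ) ℝ where
  mono := fun g _ _ h => (OrderIso.lt_iff_lt g).2 h
  ext := fun _ h => RelIso.ext h

/-- an element of `S` moving `p` to `q` -/
theorem exists_SS_move (p q : ℝ) : ∃ z ∈ SS l ι hl, z p = q := by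
  obtain ⟨t, ht, ht2⟩ := exists_trans (l := l) hl (q - p)
  obtain ⟨g, hg, hg2, hg3⟩ := cutAbove hl ht p
  obtain ⟨k, hk, hk2, hk3⟩ := cutBelow hl hg p
  obtain ⟨b', hb'⟩ := hg3
  refine ⟨k, ⟨hk, hk3, max b' p, ?_⟩, ?_⟩
  · intro x hx
    rw [hk2 x ((le_max_right _ _).trans hx), hb' x ((le_max_left _ _).trans hx)]
  · rw [hk2 p le_rfl, hg2 p le_rfl, ht2]; ring

/-- Elements of `S` agree with elements of `G` on half-lines. -/
theorem agree_up {f : ℝ ≃o ℝ} (hf : f ∈ SS l ι hl) (C : ℝ) :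
    ∃ g ∈ GG l ι hl, ∀ x, C ≤ x → g x = f x := by
  obtain ⟨b, hb⟩ := hf.2.2
  obtain ⟨z, hz, hz2⟩ := exists_SS_move hl b C
  refine ⟨⁅f, z⁆, Subgroup.commutator_mem_commutator hf hz, ?_⟩
  intro x hx
  have h1 : b ≤ z⁻¹ x := by
    have h2 : z⁻¹ C = b := by rw [← hz2]; exact inv_app_self z b
    rw [← h2]
    exact (OrderIso.le_iff_le _).2 hx
  have h2 : ⁅f, z⁆ x = f (z (f⁻¹ (z⁻¹ x))) := rfl
  rw [h2, fix_inv (hb _ h1), app_inv_self]

theorem agree_down {f : ℝ ≃o ℝ} (hf : f ∈ SS l ι hl) (C : ℝ) :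
    ∃ g ∈ GG l ι hl, ∀ x, x ≤ C → g x = f x := by
  obtain ⟨b, hb⟩ := hf.2.1
  obtain ⟨z, hz, hz2⟩ := exists_SS_move hl b C
  refine ⟨⁅f, z⁆, Subgroup.commutator_mem_commutator hf hz, ?_⟩
  intro x hx
  have h1 : z⁻¹ x ≤ b := by
    have h2 : z⁻¹ C = b := by rw [← hz2]; exact inv_app_self z b
    rw [← h2]
    exact (OrderIso.le_iff_le _).2 hx
  have h2 : ⁅f, z⁆ x = f (z (f⁻¹ (z⁻¹ x))) := rfl
  rw [h2, fix_inv (hb _ h1), app_inv_self]

/-- Conjugation by `S` is locally conjugation by `G`. -/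
theorem conj_SS {x s : ℝ ≃o ℝ} (hx : x ∈ SS l ι hl) (hs : s ∈ SS l ι hl) :
    ∃ g ∈ GG l ι hl, g * x * g⁻¹ = s * x * s⁻¹ := by
  obtain ⟨-, ⟨a, ha⟩, ⟨b, hb⟩⟩ := hx
  obtain ⟨g, hg, hg2⟩ := agree_up hl hs a
  refine ⟨g, hg, ?_⟩
  apply faith.conj_eq_of_agree (A := a) (B := max a b) (le_max_left _ _)
  · exact ha
  · intro y hy; exact hb y ((le_max_right _ _).trans hy)
  · intro y hy _; exact hg2 y hy

/-- Higman's argument. -/
theorem GG_le_of_normalized {N : Subgroup (ℝ ≃o ℝ)}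
    (hN : ∀ s ∈ SS l ι hl, ∀ x ∈ N, s * x * s⁻¹ ∈ N) {u : ℝ ≃o ℝ} (hu : u ∈ N) (hu1 : u ≠ 1) :
    GG l ι hl ≤ N := by
  -- find `u` with `p < u p`
  obtain ⟨v, hv, p, hp⟩ : ∃ v ∈ N, ∃ p, p < v p := by
    have : ∃ p, u p ≠ p := by
      by_contra hcon
      push Not at hcon
      exact hu1 (RelIso.ext hcon)
    obtain ⟨p, hp⟩ := this
    rcases lt_or_gt_of_ne hp with h | h
    · refine ⟨u⁻¹, N.inv_mem hu, p, ?_⟩
      have := (OrderIso.lt_iff_lt u⁻¹).2 h
      rwa [inv_app_self] at this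
    · exact ⟨u, hu, p, h⟩
  rw [GG, Subgroup.commutator_le]
  intro a ha b hb
  -- common support
  obtain ⟨A, B, hAB, ha1, ha2, hb1, hb2⟩ : ∃ A B : ℝ, A < B ∧ (∀ x, x ≤ A → a x = x) ∧
      (∀ x, B ≤ x → a x = x) ∧ (∀ x, x ≤ A → b x = x) ∧ (∀ x, B ≤ x → b x = x) := by
    obtain ⟨-, ⟨a1, ha1⟩, ⟨a2, ha2⟩⟩ := ha
    obtain ⟨-, ⟨b1, hb1⟩, ⟨b2, hb2⟩⟩ := hb
    refine ⟨min a1 b1, max (max a2 b2) (min a1 b1 + 1), ?_, ?_, ?_, ?_, ?_⟩
    · exact lt_of_lt_of_le (lt_add_one _) (le_max_right _ _)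
    · intro x hx; exact ha1 x (hx.trans (min_le_left _ _))
    · intro x hx
      exact ha2 x (((le_max_left _ _).trans (le_max_left _ _)).trans hx)
    · intro x hx; exact hb1 x (hx.trans (min_le_right _ _))
    · intro x hx
      exact hb2 x (((le_max_right _ _).trans (le_max_left _ _)).trans hx)
  -- scaling element
  set q := (p + v p) / 2 with hq
  have hpq : p < q := by rw [hq]; linarith
  have hqv : q < v p := by rw [hq]; linarith
  obtain ⟨i, hi, hi1, hi2⟩ := exists_interp (l := l) hl hAB hpq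
  obtain ⟨g, hg, hg2, b', hg3⟩ := cutAbove hl hi B
  obtain ⟨w, hw, hw2, hw3⟩ := cutBelow hl hg A
  have hwS : w ∈ SS l ι hl := by
    refine ⟨hw, hw3, max b' A, ?_⟩
    intro x hx
    rw [hw2 x ((le_max_right _ _).trans hx), hg3 x ((le_max_left _ _).trans hx)]
  have hwA : w A = p := by rw [hw2 A le_rfl, hg2 A hAB.le, hi1]
  have hwB : w B = q := by rw [hw2 B hAB.le, hg2 B le_rfl, hi2]
  have hwA' : w⁻¹ p = A := by rw [← hwA]; exact inv_app_self w A
  have hwB' : w⁻¹ q = B := by rw [← hwB]; exact inv_app_self w B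
  -- conjugates, supported in `[p, q]`
  have supp_lo : ∀ c : ℝ ≃o ℝ, (∀ x, x ≤ A → c x = x) → ∀ x, x ≤ p → (w * c * w⁻¹) x = x := by
    intro c hc x hx
    have : w⁻¹ x ≤ A := by rw [← hwA']; exact (OrderIso.le_iff_le _).2 hx
    rw [mul_app, mul_app, hc _ this, app_inv_self]
  have supp_hi : ∀ c : ℝ ≃o ℝ, (∀ x, B ≤ x → c x = x) → ∀ x, q ≤ x → (w * c * w⁻¹) x = x := by
    intro c hc x hx
    have : B ≤ w⁻¹ x := by rw [← hwB']; exact (OrderIso.le_iff_le _).2 hx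
    rw [mul_app, mul_app, hc _ this, app_inv_self]
  set α := w * a * w⁻¹ with hα
  set β := w * b * w⁻¹ with hβ
  have hαS : α ∈ SS l ι hl :=
    (SS l ι hl).mul_mem ((SS l ι hl).mul_mem hwS ha) ((SS l ι hl).inv_mem hwS)
  have hβS : β ∈ SS l ι hl :=
    (SS l ι hl).mul_mem ((SS l ι hl).mul_mem hwS hb) ((SS l ι hl).inv_mem hwS)
  -- `γ = v α⁻¹ v⁻¹` is supported above `v p`, hence commutes with `α` and `β`
  set γ := v * α⁻¹ * v⁻¹ with hγ
  have hγsupp : ∀ x, x ≤ q → γ x = x := by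
    intro x hx
    have h1 : v⁻¹ x ≤ p := by
      have : x ≤ v p := hx.trans hqv.le
      have := (OrderIso.le_iff_le v⁻¹).2 this
      rwa [inv_app_self] at this
    rw [hγ, mul_app, mul_app, fix_inv (supp_lo a ha1 _ h1), app_inv_self]
  have hγα : α * γ = γ * α := faith.sep_comm (c := q) (supp_hi a ha2) hγsupp
  have hγβ : β * γ = γ * β := faith.sep_comm (c := q) (supp_hi b hb2) hγsupp
  have h1 : α * γ ∈ N := by
    have : α * γ = (α * v * α⁻¹) * v⁻¹ := by rw [hγ]; group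
    rw [this]
    exact N.mul_mem (hN α hαS v hv) (N.inv_mem hv)
  have h2 : ⁅α, β⁆ ∈ N := by
    have : ⁅α, β⁆ = (α * γ) * (β * (α * γ)⁻¹ * β⁻¹) := by
      have e : (α * γ) * (β * (α * γ)⁻¹ * β⁻¹) = α * (γ * β) * γ⁻¹ * α⁻¹ * β⁻¹ := by group
      rw [e, ← hγβ, commutatorElement_def]
      group
    rw [this]
    exact N.mul_mem h1 (hN β hβS _ (N.inv_mem h1))
  have h3 : ⁅a, b⁆ = w⁻¹ * ⁅α, β⁆ * w⁻¹⁻¹ := by
    rw [hα, hβ, commutatorElement_def, commutatorElement_def]; group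
  rw [h3]
  exact hN w⁻¹ ((SS l ι hl).inv_mem hwS) _ h2

theorem GG_simple (u : GG l ι hl) (hu : u ≠ 1) : Subgroup.normalClosure {u} = ⊤ := by
  set N := Subgroup.normalClosure {u} with hN
  have hmap : GG l ι hl ≤ N.map (GG l ι hl).subtype := by
    apply GG_le_of_normalized hl (u := (u : ℝ ≃o ℝ))
    · rintro s hs x ⟨y, hy, rfl⟩
      obtain ⟨g, hg, hg2⟩ := conj_SS hl (GG_le_SS hl y.2) hs
      have hn : (⟨g, hg⟩ : GG l ι hl) * y * (⟨g, hg⟩ : GG l ι hl)⁻¹ ∈ N :=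
        Subgroup.normalClosure_normal.conj_mem y hy _
      exact ⟨_, hn, hg2⟩
    · exact ⟨u, Subgroup.subset_normalClosure rfl, rfl⟩
    · intro h
      exact hu (Subtype.ext h)
  rw [eq_top_iff]
  intro x _
  obtain ⟨y, hy, hyx⟩ := hmap x.2
  have : y = x := Subtype.ext hyx
  rw [← this]; exact hy

theorem faithGG : Faith (GG l ι hl) ℝ where
  mono := fun g _ _ h => (OrderIso.lt_iff_lt (g : ℝ ≃o ℝ)).2 h
  ext := fun _ h => Subtype.ext (RelIso.ext h)

theorem richGG : Rich (GG l ι hl) ℝ where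
  toFaith := faithGG hl
  lower := fun g => (GG_le_SS hl g.2).2.1
  upper := fun g => (GG_le_SS hl g.2).2.2
  push := by
    intro A B
    obtain ⟨z, hz, hz2⟩ := exists_SS_move hl A (B + 1)
    obtain ⟨g, hg, hg2⟩ := agree_up hl hz A
    refine ⟨⟨g, hg⟩, ?_⟩
    change B < g A
    rw [hg2 A le_rfl, hz2]; linarith
  pull := by
    intro A B
    obtain ⟨z, hz, hz2⟩ := exists_SS_move hl B (A - 1)
    obtain ⟨g, hg, hg2⟩ := agree_up hl hz B
    refine ⟨⟨g, hg⟩, ?_⟩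
    change g B < A
    rw [hg2 B le_rfl, hz2]; linarith
  sim := by
    intro g h m₁ m₂ A B hm hgh
    change (g : ℝ ≃o ℝ) m₁ < (h : ℝ ≃o ℝ) m₂ at hgh
    obtain ⟨i, hi, hi1, hi2⟩ := exists_interp (l := l) hl hm hgh
    have hgS := GG_le_SS hl g.2
    have hhS := GG_le_SS hl h.2
    obtain ⟨hgP, ⟨a, ha⟩, -⟩ := hgS
    obtain ⟨hhP, -, ⟨b, hb⟩⟩ := hhS
    have e1 : (g : ℝ ≃o ℝ) m₁ = i m₁ := hi1.symm
    have e2 : glue (g : ℝ ≃o ℝ) i m₁ e1 m₂ = (h : ℝ ≃o ℝ) m₂ := by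
      rw [glue_ge hm.le, hi2]
    have hS : glue (glue (g : ℝ ≃o ℝ) i m₁ e1) (h : ℝ ≃o ℝ) m₂ e2 ∈ SS l ι hl := by
      refine ⟨(hgP.glue hi e1).glue hhP e2, ⟨min a m₁, ?_⟩, ⟨max b m₂, ?_⟩⟩
      · intro x hx
        have h1 : x ≤ m₁ := hx.trans (min_le_right _ _)
        rw [glue_le (h1.trans hm.le), glue_le h1, ha x (hx.trans (min_le_left _ _))]
      · intro x hx
        rw [glue_ge ((le_max_right _ _).trans hx), hb x ((le_max_left _ _).trans hx)]
    obtain ⟨w, hw, hw2⟩ := agree_up hl hS (min A m₂)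
    refine ⟨⟨w, hw⟩, ?_, ?_⟩
    · intro x hx1 hx2
      change w x = (g : ℝ ≃o ℝ) x
      rw [hw2 x ((min_le_left _ _).trans hx1), glue_le (hx2.trans hm.le), glue_le hx2]
    · intro x hx1 hx2
      change w x = (h : ℝ ≃o ℝ) x
      rw [hw2 x ((min_le_right _ _).trans hx1), glue_ge hx1]

/-- the left germ cocycle -/
noncomputable def kap (g : GG l ι hl) (x : ℝ) : Multiplicative ℤ :=
  Multiplicative.ofAdd (Classical.choose ((GG_le_SS hl g.2).1.1 x))

theorem kap_spec (g : GG l ι hl) (x : ℝ) :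
    LeftAt (ι l) (g : ℝ ≃o ℝ) x (Multiplicative.toAdd (kap hl g x)) :=
  Classical.choose_spec ((GG_le_SS hl g.2).1.1 x)

theorem kap_eq {g : GG l ι hl} {x : ℝ} {n : ℤ} (h : LeftAt (ι l) (g : ℝ ≃o ℝ) x n) :
    kap hl g x = Multiplicative.ofAdd n := by
  have := (kap_spec hl g x).unique hl h
  rw [← this]; rfl

/-- the right germ cocycle -/
noncomputable def kap' (g : GG l ι hl) (x : ℝᵒᵈ) : BG F l :=
  Classical.choose ((GG_le_SS hl g.2).1.2 (OrderDual.ofDual x))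

theorem kap'_spec (g : GG l ι hl) (x : ℝᵒᵈ) :
    RightAt ι (g : ℝ ≃o ℝ) (OrderDual.ofDual x) (kap' hl g x) :=
  Classical.choose_spec ((GG_le_SS hl g.2).1.2 (OrderDual.ofDual x))

theorem kap'_eq {g : GG l ι hl} {x : ℝᵒᵈ} {A : BG F l}
    (h : RightAt ι (g : ℝ ≃o ℝ) (OrderDual.ofDual x) A) : kap' hl g x = A :=
  (kap'_spec hl g x).unique hl h

/-- a local translation in `S` -/
theorem exists_local_trans (t t' : ℝ) : ∃ w ∈ GG l ι hl, ∀ x, t - 1 ≤ x → x ≤ t + 1 →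
    w x = x + (t' - t) := by
  obtain ⟨z, hz, hz2⟩ := exists_trans (l := l) hl (t' - t)
  obtain ⟨g, hg, hg2, b', hg3⟩ := cutAbove hl hz (t + 1)
  obtain ⟨k, hk, hk2, hk3⟩ := cutBelow hl hg (t - 1)
  have hkS : k ∈ SS l ι hl := by
    refine ⟨hk, hk3, max b' (t - 1), ?_⟩
    intro x hx
    rw [hk2 x ((le_max_right _ _).trans hx), hg3 x ((le_max_left _ _).trans hx)]
  obtain ⟨w, hw, hw2⟩ := agree_up hl hkS (t - 1)
  refine ⟨w, hw, ?_⟩
  intro x hx1 hx2
  rw [hw2 x hx1, hk2 x hx1, hg2 x hx2, hz2]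

/-- realisation of left germs in `G` -/
theorem real_left (t : ℝ) (n : ℤ) : ∃ h ∈ GG l ι hl, (∀ x, t ≤ x → h x = x) ∧
    LeftAt (ι l) h t n := by
  obtain ⟨f, hf1, hf2, hf3⟩ := exists_germ_left (l := l) hl t n
  obtain ⟨g, hg, hg2, hg3⟩ := cutBelow hl hf1 (t - 1)
  have hgS : g ∈ SS l ι hl := by
    refine ⟨hg, hg3, t, ?_⟩
    intro x hx
    rw [hg2 x (by linarith), hf2 x hx]
  obtain ⟨w, hw, hw2⟩ := agree_up hl hgS (t - 1)
  refine ⟨w, hw, ?_, ?_⟩
  · intro x hx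
    rw [hw2 x (by linarith), hg2 x (by linarith), hf2 x hx]
  · refine hf3.congr (s := t - 1) (by linarith) ?_
    intro y hy _
    rw [hw2 y hy, hg2 y hy]

/-- realisation of right germs in `G` -/
theorem real_right (t : ℝ) (A : BG F l) : ∃ h ∈ GG l ι hl, (∀ x, x ≤ t → h x = x) ∧
    RightAt ι h t A := by
  obtain ⟨f, hf1, hf2, hf3⟩ := exists_germ_right (l := l) hl t A
  obtain ⟨g, hg, hg2, hg3⟩ := cutAbove hl hf1 (t + 1)
  have hgS : g ∈ SS l ι hl := by
    refine ⟨hg, ⟨t, ?_⟩, hg3⟩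
    intro x hx
    rw [hg2 x (by linarith), hf2 x hx]
  obtain ⟨w, hw, hw2⟩ := agree_down hl hgS (t + 1)
  refine ⟨w, hw, ?_, ?_⟩
  · intro x hx
    rw [hw2 x (by linarith), hg2 x (by linarith), hf2 x hx]
  · refine hf3.congr (s := t + 1) (by linarith) ?_
    intro y _ hy
    rw [hw2 y hy, hg2 y hy]

theorem topGG : TopSide (GG l ι hl) ℝ (Multiplicative ℤ) (kap hl) where
  mono := (faithGG hl).mono
  ext := (faithGG hl).ext
  top := fun g hg => exists_top (faithGG hl) hg ((richGG hl).upper g)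
  cocycle := by
    intro g h x
    apply kap_eq
    exact (kap_spec hl g (h • x)).mul (by linarith) (kap_spec hl h x)
  germ := by
    intro g t hg
    change (g : ℝ ≃o ℝ) t = t at hg
    constructor
    · intro h
      have h1 := kap_spec hl g t
      rw [h] at h1
      obtain ⟨s, hs, h2⟩ := h1
      refine ⟨s, hs, ?_⟩
      intro y hy1 hy2
      change (g : ℝ ≃o ℝ) y = y
      have h3 := h2 y hy1 hy2
      rw [hg, toAdd_one, zpow_zero] at h3
      rw [h3]; ring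
    · rintro ⟨s, hs, h1⟩
      have : LeftAt (ι l) (g : ℝ ≃o ℝ) t 0 := by
        refine ⟨s, hs, ?_⟩
        intro y hy1 hy2
        have h2 : (g : ℝ ≃o ℝ) y = y := h1 y hy1 hy2
        rw [h2, hg, zpow_zero]; ring
      rw [kap_eq hl this]; rfl
  trans := by
    intro t t'
    obtain ⟨w, hw, hw2⟩ := exists_local_trans hl t t'
    refine ⟨⟨w, hw⟩, ?_, ?_⟩
    · change w t = t'
      rw [hw2 t (by linarith) (by linarith)]; ring
    · apply kap_eq (n := 0)
      refine ⟨t - 1, by linarith, ?_⟩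
      intro y hy1 hy2
      rw [hw2 y hy1 (by linarith), hw2 t (by linarith) (by linarith), zpow_zero]; ring
  real := by
    intro t n
    obtain ⟨h, hh, h1, h2⟩ := real_left hl t (Multiplicative.toAdd n)
    exact ⟨⟨h, hh⟩, h1, kap_eq hl h2⟩
  bot := by
    intro c
    obtain ⟨h, hh, h1, h2⟩ := real_right hl c (⟨1, 0⟩ : BG F l)
    refine ⟨⟨h, hh⟩, h1, ?_⟩
    intro x hx
    by_contra hcon
    push Not at hcon
    have h3 : RightAt ι h c (1 : BG F l) := by
      refine RightAt.one.congr (s := (c + x) / 2) (by linarith) ?_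
      intro y hy1 hy2
      rw [one_app]
      rcases hy1.eq_or_lt with rfl | hy1
      · exact (h1 _ le_rfl).symm
      · exact (hcon y hy1 (by linarith)).symm
    have h4 := h2.unique hl h3
    have h5 := congrArg BG.n h4
    simp at h5

theorem botGG : TopSide (GG l ι hl) ℝᵒᵈ (BG F l) (kap' hl) where
  mono := (faithGG hl).dual.mono
  ext := (faithGG hl).dual.ext
  top := fun g hg => exists_top (faithGG hl).dual hg ((richGG hl).lower g)
  cocycle := by
    intro g h x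
    apply kap'_eq
    exact (kap'_spec hl g (h • x)).mul (kap'_spec hl h x)
  germ := by
    intro g t hg
    change (g : ℝ ≃o ℝ) (OrderDual.ofDual t) = OrderDual.ofDual t at hg
    constructor
    · intro h
      have h1 := kap'_spec hl g t
      rw [h] at h1
      obtain ⟨s, hs, h2⟩ := h1
      refine ⟨OrderDual.toDual s, hs, ?_⟩
      intro y hy1 hy2
      change (g : ℝ ≃o ℝ) (OrderDual.ofDual y) = OrderDual.ofDual y
      rcases hy2.eq_or_lt with h4 | h4
      · have h5 : t = y := h4.symm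
        rw [← h5]; exact hg
      · have h4' : OrderDual.ofDual t < OrderDual.ofDual y := h4
        have h3 := h2 (OrderDual.ofDual y) h4' hy1
        rw [hg, BG.act_one] at h3
        have h6 : OrderDual.ofDual t < (g : ℝ ≃o ℝ) (OrderDual.ofDual y) := by
          conv_lhs => rw [← hg]
          exact (OrderIso.lt_iff_lt _).2 h4'
        have h5 := psi_inj hl (by linarith) (by linarith) h3
        linarith
    · rintro ⟨s, hs, h1⟩
      apply kap'_eq
      refine RightAt.one.congr (s := OrderDual.ofDual s) hs ?_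
      intro y hy1 hy2
      rw [one_app]
      exact (h1 (OrderDual.toDual y) hy2 hy1).symm
  trans := by
    intro t t'
    obtain ⟨w, hw, hw2⟩ := exists_local_trans hl (OrderDual.ofDual t) (OrderDual.ofDual t')
    refine ⟨⟨w, hw⟩, ?_, ?_⟩
    · change w (OrderDual.ofDual t) = OrderDual.ofDual t'
      rw [hw2 _ (by linarith) (by linarith)]; ring
    · apply kap'_eq
      refine ⟨OrderDual.ofDual t + 1, by linarith, ?_⟩
      intro y hy1 hy2
      rw [hw2 y (by linarith) hy2, hw2 _ (by linarith) (by linarith), BG.act_one]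
      congr 1; ring
  real := by
    intro t A
    obtain ⟨h, hh, h1, h2⟩ := real_right hl (OrderDual.ofDual t) A
    exact ⟨⟨h, hh⟩, h1, kap'_eq hl h2⟩
  bot := by
    intro c
    obtain ⟨h, hh, h1, h2⟩ := real_left hl (OrderDual.ofDual c) 1
    refine ⟨⟨h, hh⟩, h1, ?_⟩
    intro x hx
    have hx' : OrderDual.ofDual x < OrderDual.ofDual c := hx
    by_contra hcon
    push Not at hcon
    have h3 : LeftAt (ι l) h (OrderDual.ofDual c) 0 := by
      refine LeftAt.one.congr (s := (OrderDual.ofDual c + OrderDual.ofDual x) / 2)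
        (by linarith) ?_
      intro y hy1 hy2
      rw [one_app]
      rcases hy2.eq_or_lt with rfl | hy2
      · exact (h1 _ le_rfl).symm
      · exact (hcon (OrderDual.toDual y) hy2 (show OrderDual.ofDual x < y by linarith)).symm
    have h4 := h2.unique hl h3
    exact one_ne_zero h4

theorem encard_GG : {P : Set (GG l ι hl) | IsCone P}.encard
    = {Q : Set (Multiplicative ℤ) | IsCone Q}.encard + {Q : Set (BG F l) | IsCone Q}.encard := by
  apply encard_cones (richGG hl) (topGG hl) (botGG hl) (GG_simple hl)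
  obtain ⟨h, h1, h2⟩ := (topGG hl).real 0 (Multiplicative.ofAdd 1)
  refine ⟨h, ?_⟩
  rintro rfl
  rw [(topGG hl).κ_one] at h2
  have := congrArg Multiplicative.toAdd h2
  simp at this

end

end Pool.Agent.Helper56
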