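import Mathlib

set_option autoImplicit false

namespace Pool.Agent.Helper56

open Classical in
/-- The piecewise linear interpolation of `1/u` at the powers of `L`. -/
noncomputable def psi (L u : ℝ) : ℝ :=
  if h : 0 < u ∧ 1 < L then
    (L ^ (Classical.choose (exists_mem_Ico_zpow h.1 h.2)) * (L + 1) - u) /
      ((L ^ (Classical.choose (exists_mem_Ico_zpow h.1 h.2))) ^ 2 * L)
  else 0

variable {L : ℝ}

theorem psi_spec (hL : 1 < L) {u : ℝ} (hu : 0 < u) : ∃ m : ℤ, L ^ m ≤ u ∧ u < L ^ m * L ∧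
    psi L u = (L ^ m * (L + 1) - u) / ((L ^ m) ^ 2 * L) := by
  have h : 0 < u ∧ 1 < L := ⟨hu, hL⟩
  have h2 := Classical.choose_spec (exists_mem_Ico_zpow h.1 h.2)
  refine ⟨Classical.choose (exists_mem_Ico_zpow h.1 h.2), h2.1, ?_, ?_⟩
  · have := h2.2
    rwa [zpow_add_one₀ (by linarith)] at this
  · rw [psi, dif_pos h]

theorem psi_eq (hL : 1 < L) {u : ℝ} (m : ℤ) (h1 : L ^ m ≤ u) (h2 : u ≤ L ^ m * L) :
    psi L u = (L ^ m * (L + 1) - u) / ((L ^ m) ^ 2 * L) := by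
  have hL0 : 0 < L := by linarith
  have ha : 0 < L ^ m := zpow_pos hL0 m
  have hu : 0 < u := lt_of_lt_of_le ha h1
  obtain ⟨k, hk1, hk2, hk3⟩ := psi_spec hL hu
  rw [hk3]
  have h2' : u ≤ L ^ (m + 1) := by rwa [zpow_add_one₀ hL0.ne']
  have hk2' : u < L ^ (k + 1) := by rwa [zpow_add_one₀ hL0.ne']
  have h3 : m < k + 1 := (zpow_lt_zpow_iff_right₀ hL).1 (lt_of_le_of_lt h1 hk2')
  have h4 : k ≤ m + 1 := (zpow_le_zpow_iff_right₀ hL).1 (hk1.trans h2')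
  rcases (show k = m ∨ k = m + 1 by omega) with rfl | rfl
  · rfl
  · have h5 : u = L ^ m * L := by
      apply le_antisymm h2
      rwa [zpow_add_one₀ hL0.ne'] at hk1
    rw [h5, zpow_add_one₀ hL0.ne']
    field_simp
    ring

theorem psi_pos (hL : 1 < L) {u : ℝ} (hu : 0 < u) : 0 < psi L u := by
  obtain ⟨m, h1, h2, h3⟩ := psi_spec hL hu
  have hL0 : 0 < L := by linarith
  have ha : 0 < L ^ m := zpow_pos hL0 m
  rw [h3]
  apply div_pos
  · nlinarith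
  · positivity

theorem psi_le (hL : 1 < L) {u : ℝ} (m : ℤ) (h1 : L ^ m ≤ u) (h2 : u ≤ L ^ m * L) :
    psi L u ≤ (L ^ m)⁻¹ := by
  rw [psi_eq hL m h1 h2]
  have hL0 : 0 < L := by linarith
  have ha : 0 < L ^ m := zpow_pos hL0 m
  rw [div_le_iff₀ (by positivity)]
  have : (L ^ m)⁻¹ * ((L ^ m) ^ 2 * L) = L ^ m * L := by field_simp
  rw [this]
  linarith

theorem le_psi (hL : 1 < L) {u : ℝ} (m : ℤ) (h1 : L ^ m ≤ u) (h2 : u ≤ L ^ m * L) :
    (L ^ m * L)⁻¹ ≤ psi L u := by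
  rw [psi_eq hL m h1 h2]
  have hL0 : 0 < L := by linarith
  have ha : 0 < L ^ m := zpow_pos hL0 m
  rw [le_div_iff₀ (by positivity)]
  have : (L ^ m * L)⁻¹ * ((L ^ m) ^ 2 * L) = L ^ m := by field_simp
  rw [this]
  linarith

theorem lt_psi (hL : 1 < L) {u : ℝ} (m : ℤ) (h1 : L ^ m ≤ u) (h2 : u < L ^ m * L) :
    (L ^ m * L)⁻¹ < psi L u := by
  rw [psi_eq hL m h1 h2.le]
  have hL0 : 0 < L := by linarith
  have ha : 0 < L ^ m := zpow_pos hL0 m
  rw [lt_div_iff₀ (by positivity)]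
  have : (L ^ m * L)⁻¹ * ((L ^ m) ^ 2 * L) = L ^ m := by field_simp
  rw [this]
  linarith

theorem psi_lt (hL : 1 < L) {u v : ℝ} (hu : 0 < u) (huv : u < v) : psi L v < psi L u := by
  obtain ⟨m, h1, h2, h3⟩ := psi_spec hL hu
  obtain ⟨k, k1, k2, k3⟩ := psi_spec hL (hu.trans huv)
  have hL0 : 0 < L := by linarith
  have ha : 0 < L ^ m := zpow_pos hL0 m
  have hk2' : v < L ^ (k + 1) := by rwa [zpow_add_one₀ hL0.ne']
  have hmk : m < k + 1 := (zpow_lt_zpow_iff_right₀ hL).1 ((h1.trans_lt huv).trans hk2')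
  rcases (show m = k ∨ m + 1 ≤ k by omega) with rfl | h
  · rw [h3, k3]
    apply div_lt_div_of_pos_right _ (by positivity)
    linarith
  · have h4 : psi L v ≤ (L ^ k)⁻¹ := psi_le hL k k1 k2.le
    have h5 : (L ^ m * L)⁻¹ < psi L u := lt_psi hL m h1 h2
    have h6 : L ^ m * L ≤ L ^ k := by
      rw [← zpow_add_one₀ hL0.ne']
      exact zpow_le_zpow_right₀ hL.le h
    have h7 : (L ^ k)⁻¹ ≤ (L ^ m * L)⁻¹ := inv_anti₀ (by positivity) h6
    linarith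

theorem psi_le_iff (hL : 1 < L) {u v : ℝ} (hu : 0 < u) (hv : 0 < v) :
    psi L v ≤ psi L u ↔ u ≤ v := by
  constructor
  · intro h
    by_contra hcon
    push Not at hcon
    exact absurd (psi_lt hL hv hcon) (not_lt.2 h)
  · intro h
    rcases h.eq_or_lt with rfl | h
    · exact le_rfl
    · exact (psi_lt hL hu h).le

theorem psi_lt_iff (hL : 1 < L) {u v : ℝ} (hu : 0 < u) (hv : 0 < v) :
    psi L v < psi L u ↔ u < v := by
  rw [← not_le, ← not_le, not_iff_not]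
  exact psi_le_iff hL hv hu

theorem psi_psi (hL : 1 < L) {u : ℝ} (hu : 0 < u) : psi L (psi L u) = u := by
  obtain ⟨m, h1, h2, h3⟩ := psi_spec hL hu
  have hL0 : 0 < L := by linarith
  have ha : 0 < L ^ m := zpow_pos hL0 m
  have e : L ^ (-m - 1) = (L ^ m * L)⁻¹ := by
    rw [← zpow_add_one₀ hL0.ne', ← zpow_neg]
    congr 1; ring
  have e2 : L ^ (-m - 1) * L = (L ^ m)⁻¹ := by
    rw [e]; field_simp
  have h4 := psi_eq hL (u := psi L u) (-m - 1) (by rw [e]; exact le_psi hL m h1 h2.le)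
    (by rw [e2]; exact psi_le hL m h1 h2.le)
  rw [h4, e, h3]
  field_simp
  ring

theorem psi_inj (hL : 1 < L) {u v : ℝ} (hu : 0 < u) (hv : 0 < v) (h : psi L u = psi L v) :
    u = v := by
  rw [← psi_psi hL hu, h, psi_psi hL hv]

theorem psi_scale (hL : 1 < L) {u : ℝ} (hu : 0 < u) (k : ℤ) :
    psi L (L ^ k * u) = L ^ (-k) * psi L u := by
  obtain ⟨m, h1, h2, h3⟩ := psi_spec hL hu
  have hL0 : 0 < L := by linarith
  have ha : 0 < L ^ m := zpow_pos hL0 m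
  have hk : 0 < L ^ k := zpow_pos hL0 k
  have e : L ^ (k + m) = L ^ k * L ^ m := zpow_add₀ hL0.ne' k m
  have h4 := psi_eq hL (u := L ^ k * u) (k + m)
    (by rw [e]; exact mul_le_mul_of_nonneg_left h1 hk.le)
    (by rw [e, mul_assoc]; exact mul_le_mul_of_nonneg_left h2.le hk.le)
  rw [h4, h3, e, zpow_neg]
  field_simp

/-- right-linearity of `psi` -/
theorem psi_right (hL : 1 < L) {u : ℝ} (hu : 0 < u) :
    ∃ k : ℤ, ∃ s, u < s ∧ ∀ y, u ≤ y → y ≤ s → psi L y = psi L u - L ^ k * (y - u) := by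
  obtain ⟨m, h1, h2, h3⟩ := psi_spec hL hu
  have hL0 : 0 < L := by linarith
  have ha : 0 < L ^ m := zpow_pos hL0 m
  refine ⟨-(2 * m + 1), L ^ m * L, h2, ?_⟩
  intro y hy1 hy2
  have e : L ^ (-(2 * m + 1)) = ((L ^ m) ^ 2 * L)⁻¹ := by
    rw [zpow_neg, zpow_add_one₀ hL0.ne', two_mul, zpow_add₀ hL0.ne', pow_two]
  rw [psi_eq hL m (h1.trans hy1) hy2, h3, e]
  field_simp
  ring

/-- left-linearity of `psi` -/
theorem psi_left (hL : 1 < L) {u : ℝ} (hu : 0 < u) :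
    ∃ k : ℤ, ∃ s, 0 < s ∧ s < u ∧ ∀ y, s ≤ y → y ≤ u → psi L y = psi L u - L ^ k * (y - u) := by
  obtain ⟨m, h1, h2⟩ := exists_mem_Ioc_zpow hu hL
  have hL0 : 0 < L := by linarith
  have ha : 0 < L ^ m := zpow_pos hL0 m
  rw [zpow_add_one₀ hL0.ne'] at h2
  refine ⟨-(2 * m + 1), L ^ m, ha, h1, ?_⟩
  intro y hy1 hy2
  have e : L ^ (-(2 * m + 1)) = ((L ^ m) ^ 2 * L)⁻¹ := by
    rw [zpow_neg, zpow_add_one₀ hL0.ne', two_mul, zpow_add₀ hL0.ne', pow_two]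
  rw [psi_eq hL m hy1 (hy2.trans h2), psi_eq hL m h1.le h2, e]
  field_simp
  ring

end Pool.Agent.Helper56
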