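import Pool.Agent.Helper56.BG
import Pool.Agent.Helper56.Psi

set_option autoImplicit false

namespace Pool.Agent.Helper56

/-- `f` is linear with slope `L ^ n` on a left neighbourhood of `x`. -/
def LeftAt (L : ℝ) (f : ℝ ≃o ℝ) (x : ℝ) (n : ℤ) : Prop :=
  ∃ s, s < x ∧ ∀ y, s ≤ y → y ≤ x → f y = f x + L ^ n * (y - x)

/-- On a right neighbourhood of `x`, `f` acts in the coordinate `psi` by the affine map `A`. -/
def RightAt {F : Type} [Field F] {l : Fˣ} (ι : F →+* ℝ) (f : ℝ ≃o ℝ) (x : ℝ) (A : BG F l) : Prop :=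
  ∃ s, x < s ∧ ∀ y, x < y → y ≤ s → psi (ι l) (f y - f x) = A.act ι (psi (ι l) (y - x))

/-- `f` is linear with slope `L ^ n` on a right neighbourhood of `x`. -/
def RLin (L : ℝ) (f : ℝ ≃o ℝ) (x : ℝ) (n : ℤ) : Prop :=
  ∃ s, x < s ∧ ∀ y, x ≤ y → y ≤ s → f y = f x + L ^ n * (y - x)

/-- The big group of locally nice homeomorphisms. -/
def InP {F : Type} [Field F] (l : Fˣ) (ι : F →+* ℝ) (f : ℝ ≃o ℝ) : Prop :=
  (∀ x, ∃ n : ℤ, LeftAt (ι l) f x n) ∧ (∀ x, ∃ A : BG F l, RightAt ι f x A)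

theorem mul_app (f g : ℝ ≃o ℝ) (x : ℝ) : (f * g) x = f (g x) := rfl
theorem one_app (x : ℝ) : (1 : ℝ ≃o ℝ) x = x := rfl
theorem inv_app_self (f : ℝ ≃o ℝ) (x : ℝ) : f⁻¹ (f x) = x := RelIso.inv_apply_self f x
theorem app_inv_self (f : ℝ ≃o ℝ) (x : ℝ) : f (f⁻¹ x) = x := RelIso.apply_inv_self f x

section Left

variable {L : ℝ} {f g : ℝ ≃o ℝ} {x : ℝ} {n m : ℤ}

theorem LeftAt.mul (hL : 0 < L) (hf : LeftAt L f (g x) n) (hg : LeftAt L g x m) :
    LeftAt L (f * g) x (n + m) := by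
  obtain ⟨s, hs, h1⟩ := hf
  obtain ⟨t, ht, h2⟩ := hg
  refine ⟨max t (g⁻¹ s), max_lt ht ?_, ?_⟩
  · rw [← inv_app_self g x]
    exact (OrderIso.lt_iff_lt _).2 hs
  · intro y hy1 hy2
    have h3 : t ≤ y := (le_max_left _ _).trans hy1
    have h4 : s ≤ g y := by
      have : g⁻¹ s ≤ y := (le_max_right _ _).trans hy1
      rw [← app_inv_self g s]
      exact (OrderIso.le_iff_le _).2 this
    have h5 : g y ≤ g x := (OrderIso.le_iff_le _).2 hy2
    rw [mul_app, mul_app, h1 _ h4 h5, h2 _ h3 hy2, zpow_add₀ hL.ne']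
    ring

theorem LeftAt.one : LeftAt L 1 x 0 := ⟨x - 1, by linarith, by
  intro y _ _
  rw [one_app, one_app, zpow_zero]; ring⟩

theorem LeftAt.inv (hL : 0 < L) (hf : LeftAt L f x n) : LeftAt L f⁻¹ (f x) (-n) := by
  obtain ⟨s, hs, h1⟩ := hf
  refine ⟨f s, (OrderIso.lt_iff_lt _).2 hs, ?_⟩
  intro y hy1 hy2
  have h2 : s ≤ f⁻¹ y := by
    rw [← inv_app_self f s]; exact (OrderIso.le_iff_le _).2 hy1
  have h3 : f⁻¹ y ≤ x := by
    rw [← inv_app_self f x]; exact (OrderIso.le_iff_le _).2 hy2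
  have h4 := h1 _ h2 h3
  rw [app_inv_self] at h4
  have : L ^ n ≠ 0 := (zpow_pos hL n).ne'
  have h5 : y - f x = L ^ n * (f⁻¹ y - x) := by linear_combination h4
  rw [inv_app_self, zpow_neg, h5]
  field_simp
  ring

theorem LeftAt.unique (hL : 1 < L) (h1 : LeftAt L f x n) (h2 : LeftAt L f x m) : n = m := by
  obtain ⟨s, hs, h1⟩ := h1
  obtain ⟨t, ht, h2⟩ := h2
  have h3 := h1 (max s t) (le_max_left _ _) (max_lt hs ht).le
  have h4 := h2 (max s t) (le_max_right _ _) (max_lt hs ht).le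
  have h5 : (L ^ n - L ^ m) * (max s t - x) = 0 := by linear_combination h4 - h3
  have h6 : max s t - x ≠ 0 := by
    have := max_lt hs ht
    exact (sub_neg.2 this).ne
  have h7 : L ^ n = L ^ m := by
    rcases mul_eq_zero.1 h5 with h | h
    · exact sub_eq_zero.1 h
    · exact absurd h h6
  exact zpow_right_injective₀ (by linarith) hL.ne' h7

theorem LeftAt.congr {s : ℝ} (hs : s < x) (hfg : ∀ y, s ≤ y → y ≤ x → f y = g y)
    (h : LeftAt L f x n) : LeftAt L g x n := by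
  obtain ⟨t, ht, h1⟩ := h
  refine ⟨max s t, max_lt hs ht, ?_⟩
  intro y hy1 hy2
  rw [← hfg y ((le_max_left _ _).trans hy1) hy2, ← hfg x hs.le le_rfl]
  exact h1 y ((le_max_right _ _).trans hy1) hy2

end Left

section Right

variable {F : Type} [Field F] {l : Fˣ} {ι : F →+* ℝ} {f g : ℝ ≃o ℝ} {x : ℝ} {A B : BG F l}

theorem RightAt.mul (hf : RightAt ι f (g x) A) (hg : RightAt ι g x B) :
    RightAt ι (f * g) x (A * B) := by
  obtain ⟨s, hs, h1⟩ := hf
  obtain ⟨t, ht, h2⟩ := hg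
  refine ⟨min t (g⁻¹ s), lt_min ht ?_, ?_⟩
  · rw [← inv_app_self g x]
    exact (OrderIso.lt_iff_lt _).2 hs
  · intro y hy1 hy2
    have h3 : y ≤ t := hy2.trans (min_le_left _ _)
    have h4 : g y ≤ s := by
      have : y ≤ g⁻¹ s := hy2.trans (min_le_right _ _)
      rw [← app_inv_self g s]
      exact (OrderIso.le_iff_le _).2 this
    have h5 : g x < g y := (OrderIso.lt_iff_lt _).2 hy1
    rw [mul_app, mul_app, h1 _ h5 h4, h2 _ hy1 h3, BG.act_mul]

theorem RightAt.one : RightAt ι 1 x (1 : BG F l) := ⟨x + 1, by linarith, by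
  intro y _ _
  rw [one_app, one_app, BG.act_one]⟩

theorem RightAt.inv (hf : RightAt ι f x A) : RightAt ι f⁻¹ (f x) A⁻¹ := by
  obtain ⟨s, hs, h1⟩ := hf
  refine ⟨f s, (OrderIso.lt_iff_lt _).2 hs, ?_⟩
  intro y hy1 hy2
  have h2 : f⁻¹ y ≤ s := by
    rw [← inv_app_self f s]; exact (OrderIso.le_iff_le _).2 hy2
  have h3 : x < f⁻¹ y := by
    rw [← inv_app_self f x]; exact (OrderIso.lt_iff_lt _).2 hy1
  have h4 := h1 _ h3 h2
  rw [app_inv_self] at h4
  rw [inv_app_self, h4, ← BG.act_mul, inv_mul_cancel, BG.act_one]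

theorem RightAt.unique (hl : 1 < ι l) (h1 : RightAt ι f x A) (h2 : RightAt ι f x B) : A = B := by
  obtain ⟨s, hs, h1⟩ := h1
  obtain ⟨t, ht, h2⟩ := h2
  have hm : x < min s t := lt_min hs ht
  set y := min s t with hy
  set z := (x + y) / 2 with hz
  have hz1 : x < z := by rw [hz]; linarith
  have hz2 : z < y := by rw [hz]; linarith
  have h3 := h1 y hm (min_le_left _ _)
  have h4 := h2 y hm (min_le_right _ _)
  have h5 := h1 z hz1 (hz2.le.trans (min_le_left _ _))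
  have h6 := h2 z hz1 (hz2.le.trans (min_le_right _ _))
  have h7 : psi (ι l) (y - x) < psi (ι l) (z - x) := psi_lt hl (by linarith) (by linarith)
  exact BG.act_inj hl h7.ne (h3.symm.trans h4) (h5.symm.trans h6)

theorem RightAt.congr {s : ℝ} (hs : x < s) (hfg : ∀ y, x ≤ y → y ≤ s → f y = g y)
    (h : RightAt ι f x A) : RightAt ι g x A := by
  obtain ⟨t, ht, h1⟩ := h
  refine ⟨min s t, lt_min hs ht, ?_⟩
  intro y hy1 hy2
  rw [← hfg y hy1.le (hy2.trans (min_le_left _ _)), ← hfg x le_rfl hs.le]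
  exact h1 y hy1 (hy2.trans (min_le_right _ _))

theorem RLin.rightAt (hl : 1 < ι l) {n : ℤ} (h : RLin (ι l) f x n) :
    RightAt ι f x (⟨-n, 0⟩ : BG F l) := by
  obtain ⟨s, hs, h1⟩ := h
  refine ⟨s, hs, ?_⟩
  intro y hy1 hy2
  rw [h1 y hy1.le hy2, add_sub_cancel_left, psi_scale hl (sub_pos.2 hy1)]
  simp [BG.act]

end Right

/-- The group `𝒫`. -/
def PP {F : Type} [Field F] (l : Fˣ) (ι : F →+* ℝ) (hl : 1 < ι l) : Subgroup (ℝ ≃o ℝ) where
  carrier := {f | InP l ι f}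
  mul_mem' := by
    rintro f g ⟨hf1, hf2⟩ ⟨hg1, hg2⟩
    constructor
    · intro x
      obtain ⟨n, hn⟩ := hf1 (g x)
      obtain ⟨m, hm⟩ := hg1 x
      exact ⟨_, hn.mul (by linarith) hm⟩
    · intro x
      obtain ⟨n, hn⟩ := hf2 (g x)
      obtain ⟨m, hm⟩ := hg2 x
      exact ⟨_, hn.mul hm⟩
  one_mem' := ⟨fun x => ⟨0, LeftAt.one⟩, fun x => ⟨1, RightAt.one⟩⟩
  inv_mem' := by
    rintro f ⟨hf1, hf2⟩
    constructor
    · intro x
      obtain ⟨n, hn⟩ := hf1 (f⁻¹ x)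
      have := hn.inv (by linarith)
      rw [app_inv_self] at this
      exact ⟨_, this⟩
    · intro x
      obtain ⟨n, hn⟩ := hf2 (f⁻¹ x)
      have := hn.inv
      rw [app_inv_self] at this
      exact ⟨_, this⟩

theorem mem_PP {F : Type} [Field F] {l : Fˣ} {ι : F →+* ℝ} {hl : 1 < ι l} {f : ℝ ≃o ℝ} :
    f ∈ PP l ι hl ↔ InP l ι f := Iff.rfl

/-- Gluing two order automorphisms at a point. -/
noncomputable def glue (f g : ℝ ≃o ℝ) (m : ℝ) (h : f m = g m) : ℝ ≃o ℝ :=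
  StrictMono.orderIsoOfRightInverse (fun x => if x ≤ m then f x else g x)
    (by
      intro x y hxy
      simp only
      split_ifs with h1 h2 h2
      · exact (OrderIso.lt_iff_lt _).2 hxy
      · calc f x ≤ f m := (OrderIso.le_iff_le _).2 h1
          _ = g m := h
          _ < g y := (OrderIso.lt_iff_lt _).2 (not_le.1 h2)
      · exact absurd (hxy.le.trans h2) h1
      · exact (OrderIso.lt_iff_lt _).2 hxy)
    (fun y => if y ≤ f m then f⁻¹ y else g⁻¹ y)
    (by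
      intro y
      by_cases hy : y ≤ f m
      · have h1 : f⁻¹ y ≤ m := by
          rw [← inv_app_self f m]; exact (OrderIso.le_iff_le _).2 hy
        simp only [if_pos hy, if_pos h1, app_inv_self]
      · have h1 : ¬ g⁻¹ y ≤ m := by
          rw [← inv_app_self g m, ← h]
          intro h2
          exact hy ((OrderIso.le_iff_le _).1 h2)
        simp only [if_neg hy, if_neg h1, app_inv_self])

theorem glue_le {f g : ℝ ≃o ℝ} {m : ℝ} {h : f m = g m} {x : ℝ} (hx : x ≤ m) :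
    glue f g m h x = f x := if_pos hx

theorem glue_ge {f g : ℝ ≃o ℝ} {m : ℝ} {h : f m = g m} {x : ℝ} (hx : m ≤ x) :
    glue f g m h x = g x := by
  rcases hx.eq_or_lt with rfl | hx
  · rw [glue_le le_rfl, h]
  · exact if_neg (not_le.2 hx)

section InP

variable {F : Type} [Field F] {l : Fˣ} {ι : F →+* ℝ} {f g : ℝ ≃o ℝ}

theorem InP.glue (hf : InP l ι f) (hg : InP l ι g) {m : ℝ} (h : f m = g m) :
    InP l ι (glue f g m h) := by
  constructor
  · intro x
    rcases le_or_gt x m with hx | hx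
    · obtain ⟨n, hn⟩ := hf.1 x
      exact ⟨n, hn.congr (s := x - 1) (by linarith) (fun y _ hy => (glue_le (hy.trans hx)).symm)⟩
    · obtain ⟨n, hn⟩ := hg.1 x
      exact ⟨n, hn.congr hx (fun y hy _ => (glue_ge hy).symm)⟩
  · intro x
    rcases lt_or_ge x m with hx | hx
    · obtain ⟨n, hn⟩ := hf.2 x
      exact ⟨n, hn.congr hx (fun y _ hy => (glue_le hy).symm)⟩
    · obtain ⟨n, hn⟩ := hg.2 x
      exact ⟨n, hn.congr (s := x + 1) (by linarith) (fun y hy _ => (glue_ge (hx.trans hy)).symm)⟩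

/-- affine maps of slope `L ^ k` -/
noncomputable def aff (L : ℝ) (hL : 0 < L) (k : ℤ) (c : ℝ) : ℝ ≃o ℝ :=
  StrictMono.orderIsoOfRightInverse (fun x => L ^ k * x + c)
    (by
      intro x y hxy
      have : 0 < L ^ k := zpow_pos hL k
      simp only
      have := mul_lt_mul_of_pos_left hxy this
      linarith)
    (fun y => (L ^ k)⁻¹ * (y - c))
    (by
      intro y
      have : L ^ k ≠ 0 := (zpow_pos hL k).ne'
      simp only
      field_simp
      ring)

theorem aff_app (L : ℝ) (hL : 0 < L) (k : ℤ) (c x : ℝ) : aff L hL k c x = L ^ k * x + c := rfl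

theorem aff_left (L : ℝ) (hL : 0 < L) (k : ℤ) (c x : ℝ) : LeftAt L (aff L hL k c) x k :=
  ⟨x - 1, by linarith, by
    intro y _ _
    rw [aff_app, aff_app]; ring⟩

theorem aff_rlin (L : ℝ) (hL : 0 < L) (k : ℤ) (c x : ℝ) : RLin L (aff L hL k c) x k :=
  ⟨x + 1, by linarith, by
    intro y _ _
    rw [aff_app, aff_app]; ring⟩

theorem aff_inP (hl : 1 < ι l) (hL : 0 < ι l) (k : ℤ) (c : ℝ) : InP l ι (aff (ι l) hL k c) :=
  ⟨fun x => ⟨k, aff_left _ hL k c x⟩, fun x => ⟨_, (aff_rlin _ hL k c x).rightAt hl⟩⟩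

theorem one_inP : InP l ι 1 := ⟨fun _ => ⟨0, LeftAt.one⟩, fun _ => ⟨1, RightAt.one⟩⟩

/-- Interpolation: `𝒫` is 2-transitive on increasing pairs. -/
theorem exists_interp (hl : 1 < ι l) {p q p' q' : ℝ} (hpq : p < q) (hpq' : p' < q') :
    ∃ f, InP l ι f ∧ f p = p' ∧ f q = q' := by
  have hL : 0 < ι l := by linarith
  set L := ι l with hLdef
  have hs : 0 < (q' - p') / (q - p) := div_pos (by linarith) (by linarith)
  obtain ⟨k, hk1, hk2⟩ := exists_mem_Ico_zpow hs hl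
  have hd : 0 < q - p := by linarith
  rw [le_div_iff₀ hd] at hk1
  rw [div_lt_iff₀ hd, zpow_add_one₀ hL.ne'] at hk2
  have hLk : 0 < L ^ k := zpow_pos hL k
  -- breakpoint
  set D := L ^ k * L - L ^ k with hD
  have hDpos : 0 < D := by rw [hD]; nlinarith
  set m := p + ((q' - p') - L ^ k * (q - p)) / D with hm
  have hmeq : D * (m - p) = (q' - p') - L ^ k * (q - p) := by
    rw [hm]; field_simp; ring
  have hpm : p ≤ m := by
    have : 0 ≤ D * (m - p) := by rw [hmeq]; linarith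
    have := nonneg_of_mul_nonneg_right this hDpos
    linarith
  have hmq : m ≤ q := by
    have : 0 ≤ D * (q - m) := by
      have : D * (q - m) = D * (q - p) - D * (m - p) := by ring
      rw [this, hmeq, hD]; nlinarith
    have := nonneg_of_mul_nonneg_right this hDpos
    linarith
  have hglue : aff L hL (k + 1) (p' - L ^ (k + 1) * p) m = aff L hL k (q' - L ^ k * q) m := by
    rw [aff_app, aff_app, zpow_add_one₀ hL.ne']
    have := hmeq
    rw [hD] at this
    linear_combination this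
  refine ⟨glue _ _ m hglue, (aff_inP hl hL _ _).glue (aff_inP hl hL _ _) hglue, ?_, ?_⟩
  · rw [glue_le hpm, aff_app]; ring
  · rw [glue_ge hmq, aff_app]; ring

/-- translations -/
theorem exists_trans (hl : 1 < ι l) (c : ℝ) : ∃ f : ℝ ≃o ℝ, InP l ι f ∧ ∀ x, f x = x + c := by
  have hL : 0 < ι l := by linarith
  exact ⟨aff _ hL 0 c, aff_inP hl hL 0 c, fun x => by rw [aff_app]; simp⟩

end InP

end Pool.Agent.Helper56
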