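import Mathlib

set_option autoImplicit false

namespace Pool.Agent.Helper56

/-- Positive cones of bi-invariant total orders on a group. -/
structure IsCone {G : Type*} [Group G] (P : Set G) : Prop where
  one : (1 : G) ∉ P
  mul : ∀ a b, a ∈ P → b ∈ P → a * b ∈ P
  total : ∀ a, a ≠ 1 → a ∈ P ∨ a⁻¹ ∈ P
  conj : ∀ a g, a ∈ P → g * a * g⁻¹ ∈ P

namespace IsCone

variable {G : Type*} [Group G] {P : Set G}

theorem ne_one (hP : IsCone P) {a : G} (ha : a ∈ P) : a ≠ 1 := by
  rintro rfl; exact hP.one ha

theorem not_inv (hP : IsCone P) {a : G} (ha : a ∈ P) : a⁻¹ ∉ P := by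
  intro h
  have := hP.mul _ _ ha h
  rw [mul_inv_cancel] at this
  exact hP.one this

theorem inv_of_not (hP : IsCone P) {a : G} (h1 : a ≠ 1) (ha : a ∉ P) : a⁻¹ ∈ P :=
  (hP.total a h1).resolve_left ha

theorem conj' (hP : IsCone P) {a g : G} (ha : a ∈ P) : g⁻¹ * a * g ∈ P := by
  simpa using hP.conj a g⁻¹ ha

theorem conj_iff (hP : IsCone P) (a g : G) : g * a * g⁻¹ ∈ P ↔ a ∈ P := by
  constructor
  · intro h
    have := hP.conj' (g := g) h
    simpa [mul_assoc] using this
  · exact hP.conj a g

/-- Two cones, one contained in the other, are equal. -/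
theorem eq_of_subset {Q : Set G} (hP : IsCone P) (hQ : IsCone Q) (h : P ⊆ Q) : P = Q := by
  apply Set.Subset.antisymm h
  intro a ha
  by_contra hn
  exact hQ.not_inv ha (h (hP.inv_of_not (hQ.ne_one ha) hn))

end IsCone

/-- The order relation attached to a cone. -/
def coneRel {G : Type*} [Group G] (P : Set G) (a b : G) : Prop := a = b ∨ a⁻¹ * b ∈ P

theorem coneRel_injOn {G : Type*} [Group G] :
    Set.InjOn (coneRel (G := G)) {P : Set G | IsCone P} := by
  intro P hP Q hQ h
  ext g
  have h1 : coneRel P 1 g ↔ coneRel Q 1 g := by rw [h]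
  simp only [coneRel, inv_one, one_mul] at h1
  constructor
  · intro hg
    rcases h1.1 (Or.inr hg) with h2 | h2
    · exact absurd hg (h2 ▸ hP.one)
    · exact h2
  · intro hg
    rcases h1.2 (Or.inr hg) with h2 | h2
    · exact absurd hg (h2 ▸ hQ.one)
    · exact h2

theorem orders_eq_image (G : Type*) [Group G] :
    {r : G → G → Prop | IsLinearOrder G r ∧
            ∀ a b c d : G, r a b → r (c * a * d) (c * b * d)}
      = coneRel '' {P : Set G | IsCone P} := by
  ext r
  constructor
  · rintro ⟨hr, hinv⟩
    have hrefl : ∀ a, r a a := fun a => hr.toIsPartialOrder.toIsPreorder.toRefl.refl a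
    have htrans : ∀ a b c, r a b → r b c → r a c :=
      fun a b c => hr.toIsPartialOrder.toIsPreorder.toIsTrans.trans a b c
    have hanti : ∀ a b, r a b → r b a → a = b :=
      fun a b => hr.toIsPartialOrder.toAntisymm.antisymm a b
    have htot : ∀ a b, r a b ∨ r b a := fun a b => hr.toTotal.total a b
    refine ⟨{g | r 1 g ∧ g ≠ 1}, ⟨?_, ?_, ?_, ?_⟩, ?_⟩
    · rintro ⟨_, h⟩; exact h rfl
    · rintro a b ⟨ha, ha1⟩ ⟨hb, hb1⟩
      have h1 : r a (a * b) := by simpa using hinv 1 b a 1 hb
      refine ⟨htrans _ _ _ ha h1, ?_⟩
      intro hab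
      rw [hab] at h1
      exact ha1 (hanti _ _ h1 ha)
    · intro a ha
      rcases htot 1 a with h | h
      · exact Or.inl ⟨h, ha⟩
      · refine Or.inr ⟨?_, by simpa using ha⟩
        simpa using hinv a 1 a⁻¹ 1 h
    · rintro a g ⟨ha, ha1⟩
      refine ⟨?_, ?_⟩
      · simpa using hinv 1 a g g⁻¹ ha
      · intro h
        apply ha1
        have : a = g⁻¹ * (g * a * g⁻¹) * g := by group
        rw [this, h]; group
    · funext a b
      apply propext
      simp only [coneRel, Set.mem_ofPred_eq]
      constructor
      · rintro (rfl | ⟨h, _⟩)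
        · exact hrefl _
        · simpa using hinv _ _ a 1 h
      · intro h
        by_cases hab : a = b
        · exact Or.inl hab
        · refine Or.inr ⟨?_, ?_⟩
          · simpa using hinv _ _ a⁻¹ 1 h
          · intro h2
            exact hab (by rw [inv_mul_eq_one] at h2; exact h2)
  · rintro ⟨P, hP, rfl⟩
    refine ⟨?_, ?_⟩
    · have hrefl : ∀ a, coneRel P a a := fun a => Or.inl rfl
      have htrans : ∀ a b c, coneRel P a b → coneRel P b c → coneRel P a c := by
        rintro a b c (rfl | h1) (rfl | h2)
        · exact Or.inl rfl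
        · exact Or.inr h2
        · exact Or.inr h1
        · refine Or.inr ?_
          have := hP.mul _ _ h1 h2
          simpa [mul_assoc] using this
      have hanti : ∀ a b, coneRel P a b → coneRel P b a → a = b := by
        rintro a b (rfl | h1) h2
        · rfl
        · rcases h2 with h2 | h2
          · exact h2.symm
          · exfalso
            have := hP.not_inv h1
            rw [mul_inv_rev, inv_inv] at this
            exact this h2
      have htot : ∀ a b, coneRel P a b ∨ coneRel P b a := by
        intro a b
        by_cases hab : a = b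
        · exact Or.inl (Or.inl hab)
        · have h1 : a⁻¹ * b ≠ 1 := by
            intro h; rw [inv_mul_eq_one] at h; exact hab h
          rcases hP.total _ h1 with h | h
          · exact Or.inl (Or.inr h)
          · refine Or.inr (Or.inr ?_)
            rw [mul_inv_rev, inv_inv] at h
            exact h
      exact { refl := hrefl, trans := htrans, antisymm := hanti, total := htot }
    · rintro a b c d (rfl | h)
      · exact Or.inl rfl
      · refine Or.inr ?_
        have : (c * a * d)⁻¹ * (c * b * d) = d⁻¹ * (a⁻¹ * b) * d := by group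
        rw [this]
        exact hP.conj' h

theorem encard_orders (G : Type*) [Group G] :
    {r : G → G → Prop | IsLinearOrder G r ∧
            ∀ a b c d : G, r a b → r (c * a * d) (c * b * d)}.encard
      = {P : Set G | IsCone P}.encard := by
  rw [orders_eq_image]
  exact coneRel_injOn.encard_image

end Pool.Agent.Helper56
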